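import Pool.Agent.MP_c00610_co.Upper

open Finset Filter Topology

noncomputable section
namespace Pool.Agent.MP_c00610_co

lemma tendsto_of_even_odd {u : ℕ → ℝ} {l : ℝ} (h0 : Tendsto (fun m => u (2 * m)) atTop (𝓝 l))
    (h1 : Tendsto (fun m => u (2 * m + 1)) atTop (𝓝 l)) : Tendsto u atTop (𝓝 l) := by
  rw [Metric.tendsto_atTop] at *
  intro ε hε
  obtain ⟨N0, k0⟩ := h0 ε hε
  obtain ⟨N1, k1⟩ := h1 ε hε
  refine ⟨2 * N0 + 2 * N1 + 1, fun n hn => ?_⟩
  rcases Nat.even_or_odd' n with ⟨m, rfl | rfl⟩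
  · exact k0 m (by omega)
  · exact k1 m (by omega)

/-- ratio of the middle binomial coefficient to its Stirling approximation -/
def cr (n : ℕ) : ℝ := n.choose (n / 2) / (2 ^ n * √(2 / (Real.pi * n)))

lemma cr_even : Tendsto (fun m => cr (2 * m)) atTop (𝓝 1) := by
  have hs := Stirling.tendsto_stirlingSeq_sqrt_pi
  have h2 : Tendsto (fun m => Stirling.stirlingSeq (2 * m)) atTop (𝓝 √Real.pi) :=
    hs.comp (tendsto_id.const_mul_atTop' (by norm_num))
  have hpi : 0 < √Real.pi := Real.sqrt_pos.2 Real.pi_pos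
  have h3 : Tendsto (fun m => Stirling.stirlingSeq (2 * m) * √Real.pi /
      (Stirling.stirlingSeq m * Stirling.stirlingSeq m)) atTop
      (𝓝 (√Real.pi * √Real.pi / (√Real.pi * √Real.pi))) :=
    (h2.mul_const _).div (hs.mul hs) (by positivity)
  rw [div_self (by positivity)] at h3
  refine h3.congr' ?_
  filter_upwards [eventually_gt_atTop 0] with m hm
  have hm' : (0 : ℝ) < m := by exact_mod_cast hm
  unfold cr Stirling.stirlingSeq
  rw [Nat.mul_div_cancel_left m (by norm_num), Nat.cast_choose ℝ (by omega),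
    show 2 * m - m = m by omega]
  push_cast
  have e1 : √(2 * (2 * (m : ℝ))) = 2 * √m := by
    rw [show 2 * (2 * (m : ℝ)) = 2 ^ 2 * m by ring, Real.sqrt_mul (by norm_num),
      Real.sqrt_sq (by norm_num)]
  have e2 : √(2 / (Real.pi * (2 * (m : ℝ)))) = 1 / (√Real.pi * √m) := by
    rw [show 2 / (Real.pi * (2 * (m : ℝ))) = 1 / (Real.pi * m) by field_simp, Real.sqrt_div
      (by norm_num), Real.sqrt_one, Real.sqrt_mul Real.pi_pos.le]
  have e3 : √(2 * (m : ℝ)) * √(2 * (m : ℝ)) = 2 * (√m * √m) := by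
    rw [Real.mul_self_sqrt (by positivity), Real.mul_self_sqrt hm'.le]
  have e4 : (2 * (m : ℝ) / Real.exp 1) ^ (2 * m) =
      2 ^ (2 * m) * ((m / Real.exp 1) ^ m * (m / Real.exp 1) ^ m) := by
    rw [← pow_add, ← two_mul, ← mul_pow, mul_div_assoc]
  have p1 : 0 < √(m : ℝ) := Real.sqrt_pos.2 hm'
  have p2 : 0 < √(2 * (m : ℝ)) := Real.sqrt_pos.2 (by positivity)
  have p3 : (0 : ℝ) < (m / Real.exp 1) ^ m := by positivity
  have p4 : (0 : ℝ) < m.factorial := by exact_mod_cast m.factorial_pos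
  rw [e1, e2, e4, div_mul_div_comm, mul_mul_mul_comm (√(2 * (m : ℝ))), e3]
  field_simp

lemma cr_odd : Tendsto (fun m => cr (2 * m + 1)) atTop (𝓝 1) := by
  have h1 : Tendsto (fun m => cr (2 * (m + 1))) atTop (𝓝 1) :=
    cr_even.comp (tendsto_add_atTop_nat 1)
  have h2 : Tendsto (fun m : ℕ => √((2 * (m : ℝ) + 1) / (2 * (m + 1)))) atTop (𝓝 1) := by
    have h3 : Tendsto (fun m : ℕ => 1 - 1 / 2 * (1 / ((m : ℝ) + 1))) atTop (𝓝 (1 - 1 / 2 * 0)) :=
      tendsto_const_nhds.sub (tendsto_one_div_add_atTop_nhds_zero_nat.const_mul _)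
    have h4 := h3.sqrt
    simp only [mul_zero, sub_zero, Real.sqrt_one] at h4
    refine h4.congr fun m => ?_
    congr 1
    field_simp
    ring
  have h5 := h1.mul h2
  rw [mul_one] at h5
  refine h5.congr fun m => ?_
  unfold cr
  have e1 : (2 * (m + 1)) / 2 = m + 1 := by omega
  have e2 : (2 * m + 1) / 2 = m := by omega
  have e3 : (2 * (m + 1)).choose (m + 1) = 2 * (2 * m + 1).choose m := by
    rw [show 2 * (m + 1) = (2 * m + 1) + 1 by ring, Nat.choose_succ_succ', Nat.choose_symm_half]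
    ring
  rw [e1, e2, e3]
  push_cast
  have hm : (0 : ℝ) ≤ m := Nat.cast_nonneg m
  have hpi := Real.pi_pos
  have e4 : √(2 / (Real.pi * (2 * ((m : ℝ) + 1)))) =
      √(2 / (Real.pi * (2 * (m : ℝ) + 1))) * √((2 * (m : ℝ) + 1) / (2 * (m + 1))) := by
    rw [← Real.sqrt_mul (by positivity)]
    congr 1
    field_simp
  have p1 : 0 < √(2 / (Real.pi * (2 * (m : ℝ) + 1))) := Real.sqrt_pos.2 (by positivity)
  have p2 : 0 < √((2 * (m : ℝ) + 1) / (2 * (m + 1))) := Real.sqrt_pos.2 (by positivity)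
  rw [e4, show 2 * (m + 1) = (2 * m + 1) + 1 by ring, pow_succ]
  field_simp

lemma cr_tendsto : Tendsto cr atTop (𝓝 1) := tendsto_of_even_odd cr_even cr_odd

/-- normalised binomial coefficient -/
def rho (n : ℕ) (k : ℤ) : ℝ := if 0 ≤ k then n.choose k.toNat / n.choose (n / 2) else 0

lemma choose_half_pos (n : ℕ) : (0 : ℝ) < n.choose (n / 2) := by
  exact_mod_cast Nat.choose_pos (Nat.div_le_self n 2)

lemma rho_nonneg (n : ℕ) (k : ℤ) : 0 ≤ rho n k := by
  unfold rho; split_ifs <;> positivity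

lemma rho_le_one (n : ℕ) (k : ℤ) : rho n k ≤ 1 := by
  unfold rho; split_ifs
  · rw [div_le_one (choose_half_pos n)]
    exact_mod_cast Nat.choose_le_middle _ _
  · norm_num

lemma half_tendsto : Tendsto (fun n : ℕ => ((n / 2 : ℕ) : ℝ) / n) atTop (𝓝 (1 / 2)) := by
  have h1 : Tendsto (fun n : ℕ => 1 / 2 - 1 / (n : ℝ)) atTop (𝓝 (1 / 2 - 0)) :=
    tendsto_const_nhds.sub tendsto_one_div_atTop_nhds_zero_nat
  rw [sub_zero] at h1
  refine tendsto_of_tendsto_of_tendsto_of_le_of_le' h1 tendsto_const_nhds ?_ ?_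
  · filter_upwards [eventually_gt_atTop 0] with n hn
    have hn' : (0 : ℝ) < n := by exact_mod_cast hn
    have := (div_bounds n 2 (by norm_num)).1
    rw [le_div_iff₀ hn', sub_mul, one_div_mul_cancel hn'.ne']
    push_cast at this
    linarith
  · filter_upwards [eventually_gt_atTop 0] with n hn
    have hn' : (0 : ℝ) < n := by exact_mod_cast hn
    have := (div_bounds n 2 (by norm_num)).2
    rw [div_le_iff₀ hn']
    push_cast at this
    linarith

lemma tau_tendsto (j : ℤ) : Tendsto (fun n : ℕ =>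
    ((n : ℝ) - (j + (n / 2 : ℕ))) / (j + (n / 2 : ℕ) + 1)) atTop (𝓝 1) := by
  have h0 : Tendsto (fun n : ℕ => 1 / (n : ℝ)) atTop (𝓝 0) := tendsto_one_div_atTop_nhds_zero_nat
  have h1 : Tendsto (fun n : ℕ => (1 - ((j : ℝ) * (1 / n) + ((n / 2 : ℕ) : ℝ) / n)) /
      ((j : ℝ) * (1 / n) + ((n / 2 : ℕ) : ℝ) / n + 1 / n)) atTop
      (𝓝 ((1 - ((j : ℝ) * 0 + 1 / 2)) / ((j : ℝ) * 0 + 1 / 2 + 0))) :=
    (tendsto_const_nhds.sub ((h0.const_mul _).add half_tendsto)).div
      (((h0.const_mul _).add half_tendsto).add h0) (by norm_num)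
  norm_num at h1
  refine h1.congr' ?_
  filter_upwards [eventually_gt_atTop 0] with n hn
  have hn' : (n : ℝ) ≠ 0 := by exact_mod_cast hn.ne'
  rw [← mul_div_mul_left _ _ hn']
  congr 1 <;> field_simp

lemma rho_step (j : ℤ) : ∀ᶠ n : ℕ in atTop, rho n (j + 1 + (n / 2 : ℕ)) =
    rho n (j + (n / 2 : ℕ)) * (((n : ℝ) - (j + (n / 2 : ℕ))) / (j + (n / 2 : ℕ) + 1)) := by
  filter_upwards [eventually_ge_atTop (2 * j.natAbs + 2)] with n hn
  obtain ⟨k, hk⟩ : ∃ k : ℕ, (k : ℤ) = j + (n / 2 : ℕ) := ⟨(j + (n / 2 : ℕ)).toNat, by omega⟩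
  have hkn : k ≤ n := by omega
  have e1 : j + 1 + (n / 2 : ℕ) = ((k + 1 : ℕ) : ℤ) := by omega
  have e2 : (j : ℝ) + (n / 2 : ℕ) = k := by
    generalize n / 2 = m at hk
    exact_mod_cast hk.symm
  rw [e1, ← hk, e2]
  unfold rho
  rw [if_pos (by omega), if_pos (by omega), Int.toNat_natCast, Int.toNat_natCast]
  have h1 : ((n.choose (k + 1) : ℝ)) * (k + 1) = n.choose k * (n - k) := by
    have := Nat.choose_succ_right_eq n k
    rw [← Nat.cast_sub hkn]
    exact_mod_cast this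
  have := choose_half_pos n
  field_simp
  linarith

lemma rho_tendsto (j : ℤ) : Tendsto (fun n : ℕ => rho n (j + (n / 2 : ℕ))) atTop (𝓝 1) := by
  induction j using Int.induction_on with
  | zero =>
    refine tendsto_const_nhds.congr fun n => ?_
    unfold rho
    rw [zero_add, if_pos (by omega), Int.toNat_natCast, div_self (choose_half_pos n).ne']
  | succ j ih =>
    have := ih.mul (tau_tendsto j)
    rw [mul_one] at this
    exact this.congr' ((rho_step j).mono fun n hn => hn.symm)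
  | pred j ih =>
    have h1 := ih.div (tau_tendsto (-(j : ℤ) - 1)) one_ne_zero
    rw [div_one] at h1
    refine h1.congr' ?_
    filter_upwards [rho_step (-(j : ℤ) - 1),
      (tau_tendsto (-(j : ℤ) - 1)).eventually_ne one_ne_zero] with n hn hn'
    rw [sub_add_cancel] at hn
    simp only [Pi.div_apply]
    rw [hn, mul_div_cancel_right₀ _ hn']

/-- Gaussian weights -/
def gw (x : ℝ) : ℝ := (2 : ℝ) ^ (-x ^ 2)

lemma gw_pos (x : ℝ) : 0 < gw x := pw_pos _

lemma gw_le (j : ℤ) (c : ℝ) (hc : |c| ≤ 2) : gw (j + c) ≤ 8 * (1 / 2) ^ j.natAbs := by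
  have e1 : (8 : ℝ) * (1 / 2) ^ j.natAbs = (2 : ℝ) ^ (3 - |(j : ℝ)|) := by
    rw [Real.rpow_sub (by norm_num), ← Int.cast_abs, ← Int.natCast_natAbs, Int.cast_natCast,
      Real.rpow_natCast, one_div, inv_pow, div_eq_mul_inv]
    norm_num
  rw [e1]
  apply pw_le
  have h1 : |(j : ℝ)| ≤ |(j : ℝ) + c| + |c| := by
    have := abs_sub ((j : ℝ) + c) c
    rwa [add_sub_cancel_right] at this
  rw [← sq_abs]
  nlinarith [sq_nonneg (|(j : ℝ) + c| - 1 / 2)]

lemma summable_bound : Summable fun j : ℤ => (8 : ℝ) * (1 / 2) ^ j.natAbs := by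
  refine Summable.mul_left _ (Summable.of_nat_of_neg ?_ ?_)
  · simpa using summable_geometric_two
  · simpa using summable_geometric_two

lemma summable_gw (c : ℝ) (hc : |c| ≤ 2) : Summable fun j : ℤ => gw (j + c) :=
  Summable.of_nonneg_of_le (fun _ => (gw_pos _).le) (fun j => gw_le j c hc) summable_bound

/-- the theta constant -/
def theta (n : ℕ) : ℝ := ∑' k : ℤ, (2 : ℝ) ^ (-((k : ℝ) - n / 2) ^ 2)

lemma off_abs (n : ℕ) (s : ℤ) (hs : |(s : ℝ)| ≤ 1) :
    |((n / 2 : ℕ) : ℝ) - s - n / 2| ≤ 2 := by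
  have h1 := div_bounds n 2 (by norm_num)
  push_cast at h1
  rw [abs_le] at hs ⊢
  constructor <;> linarith [h1.1, h1.2]

lemma theta_eq (n : ℕ) (s : ℤ) :
    theta n = ∑' j : ℤ, gw (j + (((n / 2 : ℕ) : ℝ) - s - n / 2)) := by
  unfold theta
  rw [← (Equiv.addRight (((n / 2 : ℕ) : ℤ) - s)).tsum_eq]
  refine tsum_congr fun j => ?_
  simp only [Equiv.coe_addRight, gw]
  generalize n / 2 = m
  push_cast
  congr 2; ring

lemma theta_ge (n : ℕ) : 1 / 2 ≤ theta n := by
  rw [theta_eq n 0]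
  have h1 := (summable_gw _ (off_abs n 0 (by simp))).le_tsum 0 (fun j _ => (gw_pos _).le)
  refine le_trans ?_ h1
  have h2 : (1 / 2 : ℝ) = (2 : ℝ) ^ (-1 : ℝ) := by rw [Real.rpow_neg_one]; norm_num
  rw [h2]
  apply pw_le
  have h3 := div_bounds n 2 (by norm_num)
  push_cast at h3 ⊢
  nlinarith [h3.1, h3.2]

/-- the weighted theta sum -/
def Theta (s : ℤ) (n : ℕ) : ℝ :=
  ∑ a ∈ range (n + 1), (n.choose a : ℝ) / n.choose (n / 2) * gw (a - s - n / 2)

lemma Theta_eq (s : ℤ) (n : ℕ) : Theta s n =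
    ∑' j : ℤ, rho n (j + (n / 2 : ℕ)) * gw (j + (((n / 2 : ℕ) : ℝ) - s - n / 2)) := by
  have h1 : ∑' k : ℤ, rho n k * gw (k - s - n / 2) = Theta s n := by
    rw [tsum_eq_sum (s := (range (n + 1)).map ⟨Nat.cast, Nat.cast_injective⟩), sum_map]
    · refine sum_congr rfl fun a _ => ?_
      simp [rho]
    · intro k hk
      unfold rho
      split_ifs with h
      · have : n < k.toNat := by
          by_contra hle
          exact hk (mem_map.2 ⟨k.toNat, by simp only [mem_range]; omega, by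
            simp only [Function.Embedding.coeFn_mk]; omega⟩)
        rw [Nat.choose_eq_zero_of_lt this]; simp
      · simp
  rw [← h1, ← (Equiv.addRight (((n / 2 : ℕ) : ℤ))).tsum_eq]
  refine tsum_congr fun j => ?_
  simp only [Equiv.coe_addRight]
  generalize n / 2 = m
  push_cast
  congr 2; ring

lemma Theta_tendsto (s : ℤ) (hs : |(s : ℝ)| ≤ 1) :
    Tendsto (fun n => theta n - Theta s n) atTop (𝓝 0) := by
  have h1 := tendsto_tsum_of_dominated_convergence (𝓕 := atTop) (α := ℕ)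
    (f := fun n (j : ℤ) => (1 - rho n (j + (n / 2 : ℕ))) *
      gw (j + (((n / 2 : ℕ) : ℝ) - s - n / 2))) (g := fun _ => 0) summable_bound ?_ ?_
  · rw [tsum_zero] at h1
    refine h1.congr fun n => ?_
    have hsum := summable_gw _ (off_abs n s hs)
    rw [theta_eq n s, Theta_eq, ← Summable.tsum_sub hsum]
    · exact tsum_congr fun j => by ring
    · exact Summable.of_nonneg_of_le (fun j => mul_nonneg (rho_nonneg _ _) (gw_pos _).le)
        (fun j => mul_le_of_le_one_left (gw_pos _).le (rho_le_one _ _)) hsum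
  · intro j
    have h2 : Tendsto (fun n : ℕ => (1 - rho n (j + (n / 2 : ℕ))) * (8 * (1 / 2) ^ j.natAbs))
        atTop (𝓝 ((1 - 1) * (8 * (1 / 2) ^ j.natAbs))) :=
      (tendsto_const_nhds.sub (rho_tendsto j)).mul_const _
    rw [sub_self, zero_mul] at h2
    refine squeeze_zero (fun n => mul_nonneg (sub_nonneg.2 (rho_le_one _ _)) (gw_pos _).le)
      (fun n => ?_) h2
    exact mul_le_mul_of_nonneg_left (gw_le j _ (off_abs n s hs)) (sub_nonneg.2 (rho_le_one _ _))
  · refine Eventually.of_forall fun n j => ?_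
    rw [Real.norm_of_nonneg (mul_nonneg (sub_nonneg.2 (rho_le_one _ _)) (gw_pos _).le)]
    refine le_trans (mul_le_of_le_one_left (gw_pos _).le ?_) (gw_le j _ (off_abs n s hs))
    linarith [rho_nonneg n (j + (n / 2 : ℕ))]

lemma fS_eq (n : ℕ) : fS n = n.choose (n / 2) * (2 : ℝ) ^ ((n : ℝ) ^ 2 / 4 + n) *
    (2 * Theta 1 n + Theta 0 n) := by
  unfold fS Theta
  rw [mul_sum, ← sum_add_distrib, mul_sum]
  refine sum_congr rfl fun a ha => ?_
  have ha' : a ≤ n := by simpa [Nat.lt_succ_iff] using ha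
  have hc := choose_half_pos n
  have k1 : (2 : ℝ) ^ a * 2 ^ (a * (n - a)) * 2 ^ a =
      (2 : ℝ) ^ ((n : ℝ) ^ 2 / 4 + n) * ((2 : ℝ) ^ (1 : ℝ) * gw (a - (1 : ℤ) - n / 2)) := by
    rw [pw_nat (_ * _), pw_nat a, gw, pw_add, pw_add, pw_add, pw_add]
    push_cast [Nat.cast_sub ha']
    congr 1; ring
  have k2 : (2 : ℝ) ^ a * 2 ^ (a * (n - a)) * 2 ^ (n - a) =
      (2 : ℝ) ^ ((n : ℝ) ^ 2 / 4 + n) * gw (a - (0 : ℤ) - n / 2) := by
    rw [pw_nat (_ * _), pw_nat a, pw_nat (n - a), gw, pw_add, pw_add, pw_add]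
    push_cast [Nat.cast_sub ha']
    congr 1; ring
  rw [Real.rpow_one] at k1
  rw [fT, mul_add, k1, k2]
  field_simp

/-- intermediate comparison function -/
def H (n : ℕ) : ℝ := 3 * theta n * (n.choose (n / 2) * (2 : ℝ) ^ ((n : ℝ) ^ 2 / 4 + n))

lemma H_ge (n : ℕ) : F n ≤ (n + 1) * H n := by
  have h1 : (2 : ℝ) ^ n ≤ (n + 1) * n.choose (n / 2) := by
    have h2 := Nat.sum_range_choose n
    have h3 : ∑ m ∈ range (n + 1), n.choose m ≤ (n + 1) * n.choose (n / 2) := by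
      have := sum_le_card_nsmul (range (n + 1)) (fun m => n.choose m) (n.choose (n / 2))
        (fun m _ => Nat.choose_le_middle m n)
      simpa using this
    rw [h2] at h3
    exact_mod_cast h3
  have h2 : F n = (2 : ℝ) ^ n * (2 : ℝ) ^ ((n : ℝ) ^ 2 / 4 + n) := by
    rw [pw_nat, pw_add, F]; congr 1; ring
  have h3 := theta_ge n
  have h4 := pw_pos ((n : ℝ) ^ 2 / 4 + n)
  have h5 := choose_half_pos n
  rw [h2, H]
  calc _ ≤ ((n + 1) * n.choose (n / 2)) * (2 : ℝ) ^ ((n : ℝ) ^ 2 / 4 + n) := by gcongr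
    _ = (n + 1) * (1 * (n.choose (n / 2) * (2 : ℝ) ^ ((n : ℝ) ^ 2 / 4 + n))) := by ring
    _ ≤ _ := by gcongr; linarith

lemma H_pos (n : ℕ) : 0 < H n := by
  have h3 := theta_ge n
  have h4 := pw_pos ((n : ℝ) ^ 2 / 4 + n)
  have h5 := choose_half_pos n
  unfold H
  positivity

lemma fS_div_H : Tendsto (fun n => fS n / H n) atTop (𝓝 1) := by
  have h1 := Theta_tendsto 1 (by simp)
  have h0 := Theta_tendsto 0 (by simp)
  have h2 : Tendsto (fun n => |2 * (theta n - Theta 1 n) + (theta n - Theta 0 n)|) atTop (𝓝 0) := by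
    simpa using ((h1.const_mul 2).add h0).abs
  rw [tendsto_iff_dist_tendsto_zero]
  refine squeeze_zero (fun _ => dist_nonneg) (fun n => ?_) h2
  have h3 := theta_ge n
  have h4 := pw_pos ((n : ℝ) ^ 2 / 4 + n)
  have h5 := choose_half_pos n
  have e : fS n / H n - 1 =
      -(2 * (theta n - Theta 1 n) + (theta n - Theta 0 n)) / (3 * theta n) := by
    rw [fS_eq, H]
    field_simp
    ring
  rw [Real.dist_eq, e, abs_div, abs_neg, abs_of_pos (by linarith : 0 < 3 * theta n)]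
  exact div_le_self (abs_nonneg _) (by linarith)

end Pool.Agent.MP_c00610_co
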