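import Mathlib

set_option linter.unusedSectionVars false

open Finset
open scoped Classical

noncomputable section
namespace Pool.Agent.MP_c00610_co

variable {α : Type} [Fintype α]

/-- idempotent relation -/
def Idem (R : α → α → Prop) : Prop := ∀ a b, R a b ↔ ∃ c, R a c ∧ R c b

/-- transitive and antisymmetric -/
structure PO (R : α → α → Prop) : Prop where
  tr : ∀ a b c, R a b → R b c → R a c
  anti : ∀ a b, R a b → R b a → a = b

def lt (R : α → α → Prop) (a b : α) : Prop := R a b ∧ a ≠ b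

def cov (R : α → α → Prop) (a b : α) : Prop := lt R a b ∧ ∀ c, lt R a c → ¬ lt R c b

def adj (R : α → α → Prop) (a b : α) : Prop := cov R a b ∨ cov R b a

def res (K : Finset α) (R : α → α → Prop) : α → α → Prop := fun a b => R a b ∧ a ∉ K ∧ b ∉ K

def fl (R : α → α → Prop) : α → α → Prop := fun a b => R b a

def above (R : α → α → Prop) (w : α) : Finset α := univ.filter fun z => lt R w z

def below (R : α → α → Prop) (w : α) : Finset α := univ.filter fun z => lt R z w

def upN (R : α → α → Prop) (v : α) : Finset α := univ.filter fun z => cov R v z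

def dnN (R : α → α → Prop) (v : α) : Finset α := univ.filter fun z => cov R z v

def nbr (R : α → α → Prop) (v : α) : Finset α := univ.filter fun z => adj R v z

def irr (R : α → α → Prop) : Finset α := univ.filter fun z => ¬ R z z

@[simp] lemma mem_above {R : α → α → Prop} {w z : α} : z ∈ above R w ↔ lt R w z := by
  simp [above]

@[simp] lemma mem_below {R : α → α → Prop} {w z : α} : z ∈ below R w ↔ lt R z w := by
  simp [below]

@[simp] lemma mem_upN {R : α → α → Prop} {w z : α} : z ∈ upN R w ↔ cov R w z := by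
  simp [upN]

@[simp] lemma mem_dnN {R : α → α → Prop} {w z : α} : z ∈ dnN R w ↔ cov R z w := by
  simp [dnN]

@[simp] lemma mem_nbr {R : α → α → Prop} {w z : α} : z ∈ nbr R w ↔ adj R w z := by
  simp [nbr]

@[simp] lemma mem_irr {R : α → α → Prop} {z : α} : z ∈ irr R ↔ ¬ R z z := by
  simp [irr]

lemma Idem.tr {R : α → α → Prop} (h : Idem R) (a b c : α) (h1 : R a b) (h2 : R b c) : R a c :=
  (h a c).2 ⟨b, h1, h2⟩

lemma lt_fl {R : α → α → Prop} {a b : α} : lt (fl R) a b ↔ lt R b a := by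
  unfold lt fl; constructor <;> rintro ⟨h1, h2⟩ <;> exact ⟨h1, h2.symm⟩

lemma cov_fl {R : α → α → Prop} {a b : α} : cov (fl R) a b ↔ cov R b a := by
  unfold cov; simp only [lt_fl]
  constructor
  · rintro ⟨h1, h2⟩; exact ⟨h1, fun c h3 h4 => h2 c h4 h3⟩
  · rintro ⟨h1, h2⟩; exact ⟨h1, fun c h3 h4 => h2 c h4 h3⟩

lemma adj_symm {R : α → α → Prop} {a b : α} (h : adj R a b) : adj R b a := h.symm

lemma PO.fl {R : α → α → Prop} (h : PO R) : PO (fl R) :=
  ⟨fun a b c h1 h2 => h.tr c b a h2 h1, fun a b h1 h2 => h.anti a b h2 h1⟩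

lemma PO.res {R : α → α → Prop} (h : PO R) (K : Finset α) : PO (res K R) :=
  ⟨fun a b c h1 h2 => ⟨h.tr a b c h1.1 h2.1, h1.2.1, h2.2.2⟩,
    fun a b h1 h2 => h.anti a b h1.1 h2.1⟩

lemma lt_res {R : α → α → Prop} {K : Finset α} {a b : α} :
    lt (res K R) a b ↔ lt R a b ∧ a ∉ K ∧ b ∉ K := by
  unfold lt res; tauto

lemma lt_irrefl' {R : α → α → Prop} {a : α} : ¬ lt R a a := fun h => h.2 rfl

lemma PO.lt_trans {R : α → α → Prop} (h : PO R) {a b c : α} (h1 : lt R a b) (h2 : lt R b c) :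
    lt R a c := by
  refine ⟨h.tr _ _ _ h1.1 h2.1, ?_⟩
  rintro rfl
  exact h1.2 (h.anti _ _ h1.1 h2.1)

lemma PO.lt_asymm {R : α → α → Prop} (h : PO R) {a b : α} (h1 : lt R a b) : ¬ lt R b a :=
  fun h2 => lt_irrefl' (h.lt_trans h1 h2)

lemma PO.exists_cov_up {R : α → α → Prop} (h : PO R) {x y : α} (hxy : lt R x y) :
    ∃ z, cov R x z ∧ (z = y ∨ lt R z y) := by
  obtain ⟨z, hz, hmin⟩ := exists_min_image (univ.filter fun z => lt R x z ∧ (z = y ∨ lt R z y))
    (fun z => (below R z).card) ⟨y, by simp [hxy]⟩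
  simp only [mem_filter, mem_univ, true_and] at hz hmin
  refine ⟨z, ⟨hz.1, fun c hc hcz => ?_⟩, hz.2⟩
  have h1 : c = y ∨ lt R c y := by
    rcases hz.2 with rfl | h2
    · exact Or.inr hcz
    · exact Or.inr (h.lt_trans hcz h2)
  have h2 := hmin c ⟨hc, h1⟩
  have h3 : below R c ⊂ below R z := by
    refine ⟨fun w hw => ?_, fun hsub => ?_⟩
    · rw [mem_below] at hw ⊢; exact h.lt_trans hw hcz
    · have : c ∈ below R c := hsub (by simpa using hcz)
      rw [mem_below] at this; exact lt_irrefl' this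
  have := card_lt_card h3
  omega

lemma PO.exists_cov_dn {R : α → α → Prop} (h : PO R) {x y : α} (hxy : lt R x y) :
    ∃ z, cov R z y ∧ (z = x ∨ lt R x z) := by
  obtain ⟨z, hz, hz'⟩ := h.fl.exists_cov_up (x := y) (y := x) (lt_fl.2 hxy)
  exact ⟨z, cov_fl.1 hz, by simpa [lt_fl] using hz'⟩

lemma PO.cov_induction {R : α → α → Prop} (h : PO R) (T : α → α → Prop)
    (hT : ∀ a b c, T a b → T b c → T a c) (hc : ∀ a b, cov R a b → T a b) :
    ∀ a b, lt R a b → T a b := by
  suffices H : ∀ m : ℕ, ∀ a b, (above R a).card = m → lt R a b → T a b from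
    fun a b hab => H _ a b rfl hab
  intro m
  induction m using Nat.strong_induction_on with
  | _ m ih =>
    intro a b hm hab
    obtain ⟨z, hz, hz'⟩ := h.exists_cov_up hab
    rcases hz' with rfl | hz'
    · exact hc _ _ hz
    · refine hT _ _ _ (hc _ _ hz) (ih _ ?_ z b rfl hz')
      rw [← hm]
      refine card_lt_card ⟨fun w hw => ?_, fun hsub => ?_⟩
      · rw [mem_above] at hw ⊢; exact h.lt_trans hz.1 hw
      · have : z ∈ above R z := hsub (by simpa using hz.1)
        rw [mem_above] at this; exact lt_irrefl' this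

lemma rel_ext {R1 R2 : α → α → Prop} (hlt : ∀ a b, lt R1 a b ↔ lt R2 a b)
    (hd : ∀ a, R1 a a ↔ R2 a a) : R1 = R2 := by
  funext a b
  apply propext
  by_cases hab : a = b
  · subst hab; exact hd a
  · have := hlt a b
    unfold lt at this
    tauto

/-- two orders whose covers are relations of the other are equal -/
lemma det_of_cov {R1 R2 : α → α → Prop} (h1 : PO R1) (h2 : PO R2)
    (h12 : ∀ a b, cov R1 a b → lt R2 a b) (h21 : ∀ a b, cov R2 a b → lt R1 a b)
    (hd : ∀ a, R1 a a ↔ R2 a a) : R1 = R2 := by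
  refine rel_ext (fun a b => ⟨?_, ?_⟩) hd
  · exact h1.cov_induction (lt R2) (fun _ _ _ => h2.lt_trans) h12 a b
  · exact h2.cov_induction (lt R1) (fun _ _ _ => h1.lt_trans) h21 a b

/-- determination by the restriction off `K` and the covers at `K` -/
lemma det_of_res {R1 R2 : α → α → Prop} (h1 : PO R1) (h2 : PO R2) (K : Finset α)
    (hlt : ∀ a b, a ∉ K → b ∉ K → (lt R1 a b ↔ lt R2 a b))
    (hup : ∀ v ∈ K, upN R1 v = upN R2 v) (hdn : ∀ v ∈ K, dnN R1 v = dnN R2 v)
    (hd : ∀ a, R1 a a ↔ R2 a a) : R1 = R2 := by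
  refine det_of_cov h1 h2 (fun a b hab => ?_) (fun a b hab => ?_) hd
  · by_cases ha : a ∈ K
    · have : b ∈ upN R2 a := by rw [← hup a ha]; simpa using hab
      exact (mem_upN.1 this).1
    by_cases hb : b ∈ K
    · have : a ∈ dnN R2 b := by rw [← hdn b hb]; simpa using hab
      exact (mem_dnN.1 this).1
    exact (hlt a b ha hb).1 hab.1
  · by_cases ha : a ∈ K
    · have : b ∈ upN R1 a := by rw [hup a ha]; simpa using hab
      exact (mem_upN.1 this).1
    by_cases hb : b ∈ K
    · have : a ∈ dnN R1 b := by rw [hdn b hb]; simpa using hab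
      exact (mem_dnN.1 this).1
    exact (hlt a b ha hb).2 hab.1

lemma PO.common_between {R : α → α → Prop} (h : PO R) {x y z : α} (hxy : lt R x y)
    (hx : adj R x z) (hy : adj R y z) : lt R x z ∧ lt R z y := by
  rcases hx with hx | hx <;> rcases hy with hy | hy
  · exact absurd hy.1 (hx.2 y hxy)
  · exact ⟨hx.1, hy.1⟩
  · exact absurd (h.lt_trans hy.1 hx.1) (h.lt_asymm hxy)
  · exact absurd hxy (hy.2 x hx.1)

lemma PO.no_triangle {R : α → α → Prop} (h : PO R) {x y z : α} (hxy : adj R x y)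
    (hx : adj R x z) (hy : adj R y z) : False := by
  rcases hxy with hxy | hxy
  · have := h.common_between hxy.1 hx hy
    exact hxy.2 z this.1 this.2
  · have := h.common_between hxy.1 hy hx
    exact hxy.2 z this.1 this.2

lemma adj_irrefl {R : α → α → Prop} {x : α} : ¬ adj R x x := by
  rintro (h | h) <;> exact lt_irrefl' h.1

/-- irreflexive comparable points have a reflexive point strictly between -/
lemma Idem.not_cov_irr {R : α → α → Prop} (h : Idem R) {x y : α} (hx : ¬ R x x) (hy : ¬ R y y) :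
    ¬ cov R x y := by
  rintro ⟨hxy, hc⟩
  obtain ⟨c, h1, h2⟩ := (h x y).1 hxy.1
  refine hc c ⟨h1, ?_⟩ ⟨h2, ?_⟩
  · rintro rfl; exact hx h1
  · rintro rfl; exact hy h2

lemma Idem.not_adj_irr {R : α → α → Prop} (h : Idem R) {x y : α} (hx : ¬ R x x) (hy : ¬ R y y) :
    ¬ adj R x y := by
  rintro (h1 | h1)
  · exact h.not_cov_irr hx hy h1
  · exact h.not_cov_irr hy hx h1

/-- criterion for a restriction to stay idempotent -/
lemma idem_res {R : α → α → Prop} (h : PO R) (K : Finset α)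
    (hK : ∀ x y, x ∉ K → y ∉ K → ¬ R x x → ¬ R y y → lt R x y → ∃ z, z ∉ K ∧ lt R x z ∧ lt R z y) :
    Idem (res K R) := by
  intro a b
  constructor
  · rintro ⟨hab, ha, hb⟩
    by_cases haa : R a a
    · exact ⟨a, ⟨haa, ha, ha⟩, ⟨hab, ha, hb⟩⟩
    by_cases hbb : R b b
    · exact ⟨b, ⟨hab, ha, hb⟩, ⟨hbb, hb, hb⟩⟩
    have hne : a ≠ b := by rintro rfl; exact haa hab
    obtain ⟨z, hz, h1, h2⟩ := hK a b ha hb haa hbb ⟨hab, hne⟩
    exact ⟨z, ⟨h1.1, ha, hz⟩, ⟨h2.1, hz, hb⟩⟩
  · rintro ⟨c, h1, h2⟩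
    exact ⟨h.tr _ _ _ h1.1 h2.1, h1.2.1, h2.2.2⟩

/-- deleting irreflexive points is free -/
lemma idem_res_irr {R : α → α → Prop} (h : PO R) (hI : Idem R) (K : Finset α)
    (hK : ∀ k ∈ K, ¬ R k k) : Idem (res K R) := by
  refine idem_res h K fun x y _ _ hx hy hxy => ?_
  obtain ⟨z, hz, hz'⟩ := h.exists_cov_up hxy
  have hzz : R z z := by
    by_contra hzz
    exact hI.not_cov_irr hx hzz hz
  rcases hz' with rfl | hz'
  · exact absurd hzz hy
  · exact ⟨z, fun hzK => hK z hzK hzz, hz.1, hz'⟩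

/-- all idempotent relations supported on `V` -/
def idemOn (V : Finset α) : Finset (α → α → Prop) :=
  univ.filter fun R => Idem R ∧ ∀ a b, R a b → a ∈ V ∧ b ∈ V

/-- the number of idempotent relations on `m` points -/
def I (m : ℕ) : ℕ := (univ.filter fun R : Fin m → Fin m → Prop => Idem R).card

lemma card_idemOn_le (V : Finset α) : (idemOn V).card ≤ I V.card := by
  let e : Fin V.card ≃ V := (V.equivFin).symm
  unfold I
  refine card_le_card_of_injOn (fun R => fun i j => R (e i) (e j)) ?_ ?_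
  · intro R hR
    simp only [idemOn, coe_filter, mem_univ, true_and, Set.mem_ofPred_eq] at hR ⊢
    intro i j
    constructor
    · intro hij
      obtain ⟨c, h1, h2⟩ := (hR.1 _ _).1 hij
      have hc : c ∈ V := (hR.2 _ _ h1).2
      refine ⟨e.symm ⟨c, hc⟩, ?_, ?_⟩
      · simpa using h1
      · simpa using h2
    · rintro ⟨c, h1, h2⟩
      exact hR.1.tr _ _ _ h1 h2
  · intro R1 hR1 R2 hR2 hEq
    simp only [idemOn, coe_filter, mem_univ, true_and, Set.mem_ofPred_eq] at hR1 hR2
    funext a b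
    apply propext
    have key : ∀ (ha : a ∈ V) (hb : b ∈ V), R1 a b ↔ R2 a b := by
      intro ha hb
      have := congrFun (congrFun hEq (e.symm ⟨a, ha⟩)) (e.symm ⟨b, hb⟩)
      simpa using this
    constructor
    · intro h; exact (key (hR1.2 _ _ h).1 (hR1.2 _ _ h).2).1 h
    · intro h; exact (key (hR2.2 _ _ h).1 (hR2.2 _ _ h).2).2 h

lemma res_mem_idemOn {R : α → α → Prop} {K : Finset α} (h : Idem (res K R)) :
    res K R ∈ idemOn Kᶜ := by
  simp only [idemOn, mem_filter, mem_univ, true_and, mem_compl]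
  exact ⟨h, fun a b hab => hab.2⟩

lemma card_idemOn_compl_le (K : Finset α) :
    (idemOn Kᶜ).card ≤ I (Fintype.card α - K.card) := by
  have := card_idemOn_le Kᶜ
  rwa [card_compl] at this

end Pool.Agent.MP_c00610_co
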