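import Pool.Agent.MP_c00610_co.Structure

set_option linter.unusedSectionVars false

open Finset
open scoped Classical

noncomputable section
namespace Pool.Agent.MP_c00610_co

variable {α : Type} [Fintype α]

lemma card_le_of_cover {ρ ι β : Type} (B : Finset ρ) (Side : Finset ι) (T : ι → Finset β)
    (F : ι → β → Finset ρ) (N M : ℝ) (hM : 0 ≤ M)
    (hcov : ∀ R ∈ B, ∃ s ∈ Side, ∃ t ∈ T s, R ∈ F s t)
    (hT : ∀ s ∈ Side, ((T s).card : ℝ) ≤ N)
    (hF : ∀ s ∈ Side, ∀ t ∈ T s, ((F s t).card : ℝ) ≤ M) :
    (B.card : ℝ) ≤ Side.card * N * M := by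
  have h1 : B ⊆ Side.biUnion fun s => (T s).biUnion (F s) := by
    intro R hR
    obtain ⟨s, hs, t, ht, h⟩ := hcov R hR
    exact mem_biUnion.2 ⟨s, hs, mem_biUnion.2 ⟨t, ht, h⟩⟩
  have h2 : B.card ≤ ∑ s ∈ Side, ∑ t ∈ T s, (F s t).card :=
    (card_le_card h1).trans (card_biUnion_le.trans (sum_le_sum fun s _ => card_biUnion_le))
  calc (B.card : ℝ) ≤ ∑ s ∈ Side, ∑ t ∈ T s, ((F s t).card : ℝ) := by exact_mod_cast h2
    _ ≤ ∑ s ∈ Side, N * M := by
        refine sum_le_sum fun s hs => ?_
        calc ∑ t ∈ T s, ((F s t).card : ℝ) ≤ ∑ t ∈ T s, M := sum_le_sum (hF s hs)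
          _ = (T s).card * M := by simp
          _ ≤ N * M := mul_le_mul_of_nonneg_right (hT s hs) hM
    _ = Side.card * N * M := by simp [mul_assoc]

/-- subsets of size at most `k` -/
def small (α : Type) [Fintype α] (k : ℕ) : Finset (Finset α) := univ.filter fun Q => Q.card ≤ k

@[simp] lemma mem_small {k : ℕ} {Q : Finset α} : Q ∈ small α k ↔ Q.card ≤ k := by
  simp [small]

lemma card_small_le_pow (k : ℕ) : (small α k).card ≤ (Fintype.card α + 1) ^ k := by
  induction k with
  | zero =>
    have : small α 0 ⊆ {∅} := by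
      intro Q hQ
      simpa using hQ
    simpa using card_le_card this
  | succ k ih =>
    have h1 : small α (k + 1) ⊆ ((univ : Finset (Option α)) ×ˢ small α k).image
        (fun p => match p.1 with | none => p.2 | some a => insert a p.2) := by
      intro Q hQ
      rw [mem_small] at hQ
      rcases Q.eq_empty_or_nonempty with rfl | ⟨a, ha⟩
      · exact mem_image.2 ⟨(none, ∅), by simp, rfl⟩
      · refine mem_image.2 ⟨(some a, Q.erase a), ?_, insert_erase ha⟩
        simp only [mem_product, mem_univ, mem_small, true_and]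
        rw [card_erase_of_mem ha]; omega
    refine (card_le_card h1).trans (card_image_le.trans ?_)
    rw [card_product, card_univ, Fintype.card_option, pow_succ, mul_comm]
    exact Nat.mul_le_mul_right _ ih

lemma card_small_le_entropy (k : ℕ) (t : ℝ) (h0 : 0 < t) (h1 : t ≤ 1) :
    ((small α k).card : ℝ) * t ^ k ≤ (1 + t) ^ Fintype.card α := by
  have h2 : (1 + t) ^ Fintype.card α = ∑ Q : Finset α, t ^ Q.card := by
    have := Finset.prod_one_add (s := (univ : Finset α)) (f := fun _ => t)
    simp only [prod_const, card_univ, powerset_univ] at this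
    exact this
  rw [h2]
  calc ((small α k).card : ℝ) * t ^ k = ∑ Q ∈ small α k, t ^ k := by simp
    _ ≤ ∑ Q ∈ small α k, t ^ Q.card :=
        sum_le_sum fun Q hQ => pow_le_pow_of_le_one h0.le h1 (mem_small.1 hQ)
    _ ≤ ∑ Q : Finset α, t ^ Q.card :=
        sum_le_sum_of_subset_of_nonneg (subset_univ _) fun Q _ _ => by positivity

/-- all idempotent relations -/
def idemAll (α : Type) [Fintype α] : Finset (α → α → Prop) := univ.filter fun R => Idem R

/-- non-antisymmetric idempotent relations -/
def B0 (α : Type) [Fintype α] : Finset (α → α → Prop) :=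
  univ.filter fun R => Idem R ∧ ∃ x y, x ≠ y ∧ R x y ∧ R y x

lemma card_B0 : ((B0 α).card : ℝ) ≤ (Fintype.card α : ℝ) ^ 2 * I (Fintype.card α - 1) := by
  have := card_le_of_cover (B0 α) (univ : Finset (α × α)) (fun s => idemOn ({s.2} : Finset α)ᶜ)
    (fun s t => univ.filter fun R => Idem R ∧ s.1 ≠ s.2 ∧ R s.1 s.2 ∧ R s.2 s.1 ∧ res {s.2} R = t)
    (I (Fintype.card α - 1)) 1 zero_le_one ?_ ?_ ?_
  · simpa [sq] using this
  · intro R hR
    simp only [B0, mem_filter, mem_univ, true_and] at hR
    obtain ⟨hI, x, y, hxy, h1, h2⟩ := hR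
    refine ⟨(x, y), mem_univ _, res {y} R, res_mem_idemOn ?_, by simp [hI, hxy, h1, h2]⟩
    intro a b
    simp only [res, mem_singleton]
    constructor
    · rintro ⟨hab, ha, hb⟩
      obtain ⟨c, h3, h4⟩ := (hI a b).1 hab
      by_cases hc : c = y
      · subst hc
        exact ⟨x, ⟨hI.tr _ _ _ h3 h2, ha, hxy⟩, hI.tr _ _ _ h1 h4, hxy, hb⟩
      · exact ⟨c, ⟨h3, ha, hc⟩, h4, hc, hb⟩
    · rintro ⟨c, h3, h4⟩
      exact ⟨hI.tr _ _ _ h3.1 h4.1, h3.2.1, h4.2.2⟩
  · intro s _
    have := card_idemOn_compl_le ({s.2} : Finset α)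
    rw [card_singleton] at this
    exact_mod_cast this
  · intro s _ t _
    norm_cast
    rw [card_le_one]
    intro R1 hR1 R2 hR2
    simp only [mem_filter, mem_univ, true_and] at hR1 hR2
    obtain ⟨x, y⟩ := s
    simp only at hR1 hR2
    have key : ∀ (S1 S2 : α → α → Prop), Idem S1 → S1 x y → S1 y x → Idem S2 → S2 x y → S2 y x →
        res {y} S1 = res {y} S2 → ∀ a b, S1 a b → S2 a b := by
      intro S1 S2 i1 p1 q1 i2 p2 q2 hres a b hab
      have hh : ∀ a b, a ≠ y → b ≠ y → S1 a b → S2 a b := by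
        intro a b ha hb hab
        have : res {y} S2 a b := by rw [← hres]; exact ⟨hab, by simpa, by simpa⟩
        exact this.1
      by_cases ha : a = y <;> by_cases hb : b = y
      · subst ha; subst hb; exact i2.tr _ _ _ q2 p2
      · subst ha
        exact i2.tr _ _ _ q2 (hh x b hR1.2.1 hb (i1.tr _ _ _ p1 hab))
      · subst hb
        exact i2.tr _ _ _ (hh a x ha hR1.2.1 (i1.tr _ _ _ hab q1)) p2
      · exact hh a b ha hb hab
    funext a b
    apply propext
    have hres : res {y} R1 = res {y} R2 := hR1.2.2.2.2.trans hR2.2.2.2.2.symm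
    exact ⟨key R1 R2 hR1.1 hR1.2.2.1 hR1.2.2.2.1 hR2.1 hR2.2.2.1 hR2.2.2.2.1 hres a b,
      key R2 R1 hR2.1 hR2.2.2.1 hR2.2.2.2.1 hR1.1 hR1.2.2.1 hR1.2.2.2.1 hres.symm a b⟩

/-- reflexive closure of the restriction -/
def rc (K : Finset α) (R : α → α → Prop) : α → α → Prop :=
  fun a b => a ∉ K ∧ b ∉ K ∧ (R a b ∨ a = b)

lemma rc_mem_idemOn {R : α → α → Prop} (h : PO R) (K : Finset α) : rc K R ∈ idemOn Kᶜ := by
  simp only [idemOn, mem_filter, mem_univ, true_and, mem_compl]
  refine ⟨fun a b => ⟨fun hab => ⟨a, ⟨hab.1, hab.1, Or.inr rfl⟩, hab⟩, ?_⟩,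
    fun a b hab => ⟨hab.1, hab.2.1⟩⟩
  rintro ⟨c, ⟨h1, h2, h3⟩, h4, h5, h6⟩
  refine ⟨h1, h5, ?_⟩
  rcases h3 with h3 | rfl
  · rcases h6 with h6 | rfl
    · exact Or.inl (h.tr _ _ _ h3 h6)
    · exact Or.inl h3
  · exact h6

lemma lt_iff_of_rc {R1 R2 : α → α → Prop} {K : Finset α} (h : rc K R1 = rc K R2) {a b : α}
    (ha : a ∉ K) (hb : b ∉ K) : lt R1 a b ↔ lt R2 a b := by
  have := congrFun (congrFun h a) b
  simp only [rc, ha, hb, not_false_eq_true, true_and, eq_iff_iff] at this
  unfold lt
  tauto

lemma diag_iff_of_irr {R1 R2 : α → α → Prop} (h : irr R1 = irr R2) (a : α) :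
    R1 a a ↔ R2 a a := by
  have : a ∈ irr R1 ↔ a ∈ irr R2 := by rw [h]
  simp only [mem_irr] at this
  tauto

/-- an antichain with too many homogeneous points -/
def B1 (α : Type) [Fintype α] (q e : ℕ) : Finset (α → α → Prop) :=
  univ.filter fun R => PO R ∧ ∃ Q, Antichain R Q ∧ Q.card = q ∧
    Fintype.card α + 2 * e < 2 * (Hom R Q).card

lemma card_B1 (q e : ℕ) : ((B1 α q e).card : ℝ) ≤
    ((Fintype.card α : ℝ) + 1) ^ q * 2 ^ Fintype.card α * 2 ^ Fintype.card α *
      I (Fintype.card α - q) *
      (4 ^ Fintype.card α * (2 : ℝ) ^ ((q : ℝ) * (Fintype.card α / 2 - e))) := by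
  have := card_le_of_cover (B1 α q e)
    (((small α q).filter fun Q => Q.card = q) ×ˢ (univ : Finset (Finset α)) ×ˢ
      (univ : Finset (Finset α)))
    (fun s => idemOn s.1ᶜ)
    (fun s t => univ.filter fun R => PO R ∧ Antichain R s.1 ∧ Hom R s.1 = s.2.1 ∧
      Fintype.card α + 2 * e < 2 * s.2.1.card ∧ irr R = s.2.2 ∧ rc s.1 R = t)
    (I (Fintype.card α - q))
    (4 ^ Fintype.card α * (2 : ℝ) ^ ((q : ℝ) * (Fintype.card α / 2 - e))) (by positivity) ?_ ?_ ?_
  · refine this.trans ?_
    gcongr
    rw [card_product, card_product, card_univ, Fintype.card_finset]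
    have h1 : ((small α q).filter fun Q => Q.card = q).card ≤ (Fintype.card α + 1) ^ q :=
      (card_filter_le _ _).trans (card_small_le_pow q)
    push_cast
    rw [← mul_assoc]
    gcongr
    exact_mod_cast h1
  · intro R hR
    simp only [B1, mem_filter, mem_univ, true_and] at hR
    obtain ⟨hP, Q, h1, h2, h3⟩ := hR
    exact ⟨(Q, Hom R Q, irr R), by simp [h2], rc Q R, rc_mem_idemOn hP Q, by simp [hP, h1, h3]⟩
  · intro s hs
    simp only [mem_product, mem_filter] at hs
    have := card_idemOn_compl_le s.1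
    rw [hs.1.2] at this
    exact_mod_cast this
  · rintro ⟨Q, H, S⟩ hs t _
    simp only [mem_product, mem_filter] at hs
    have hq : Q.card = q := hs.1.2
    by_cases hH : Fintype.card α + 2 * e < 2 * H.card
    swap
    · simp only [hH, false_and, and_false, filter_false, card_empty, Nat.cast_zero]
      positivity
    let opt : α → Finset (Finset α × Finset α) := fun z =>
      if z ∈ H then {(Q, ∅), (∅, Q), (∅, ∅)}
      else (Q.powerset ×ˢ {∅}) ∪ ({∅} ×ˢ Q.powerset)
    have h1 : (univ.filter fun R : α → α → Prop => PO R ∧ Antichain R Q ∧ Hom R Q = H ∧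
        Fintype.card α + 2 * e < 2 * H.card ∧ irr R = S ∧ rc Q R = t).card ≤
        (Fintype.piFinset opt).card := by
      refine card_le_card_of_injOn
        (fun R z => (Q.filter (fun u => lt R z u), Q.filter (fun u => lt R u z))) ?_ ?_
      · intro R hR
        simp only [coe_filter, mem_univ, true_and, Set.mem_ofPred_eq] at hR
        obtain ⟨hP, hA, hHom, -, -, -⟩ := hR
        simp only [mem_coe, Fintype.mem_piFinset]
        intro z
        by_cases hz : z ∈ H
        · simp only [opt, hz, if_true, mem_insert, mem_singleton, Prod.mk.injEq]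
          rw [← hHom, mem_Hom] at hz
          rcases hz.2 with h | h | h
          · left
            exact ⟨filter_true_of_mem h, filter_false_of_mem fun u hu => hP.lt_asymm (h u hu)⟩
          · right; left
            exact ⟨filter_false_of_mem fun u hu => hP.lt_asymm (h u hu), filter_true_of_mem h⟩
          · right; right
            exact ⟨filter_false_of_mem fun u hu => (h u hu).1,
              filter_false_of_mem fun u hu => (h u hu).2⟩
        · simp only [opt, hz, if_false, mem_union, mem_product, mem_powerset, filter_subset,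
            mem_singleton, true_and, and_true]
          by_contra hno
          push Not at hno
          obtain ⟨u, hu⟩ := hno.1
          obtain ⟨w, hw⟩ := hno.2
          rw [mem_filter] at hu hw
          exact hA u hu.1 w hw.1 (hP.lt_trans hu.2 hw.2)
      · intro R1 hR1 R2 hR2 hEq
        simp only [coe_filter, mem_univ, true_and, Set.mem_ofPred_eq] at hR1 hR2
        refine rel_ext (fun a b => ?_) (diag_iff_of_irr (hR1.2.2.2.2.1.trans hR2.2.2.2.2.1.symm))
        by_cases hb : b ∈ Q
        · have := congrArg (fun p => b ∈ p.1) (congrFun hEq a)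
          simpa [hb] using this
        by_cases ha : a ∈ Q
        · have := congrArg (fun p => a ∈ p.2) (congrFun hEq b)
          simpa [ha] using this
        exact lt_iff_of_rc (hR1.2.2.2.2.2.trans hR2.2.2.2.2.2.symm) ha hb
    have h2 : (Fintype.piFinset opt).card ≤ 4 ^ Fintype.card α * (2 ^ q) ^ Hᶜ.card := by
      rw [Fintype.card_piFinset]
      calc ∏ z, (opt z).card ≤ ∏ z, (4 * if z ∈ Hᶜ then 2 ^ q else 1) := by
            refine prod_le_prod' fun z _ => ?_
            by_cases hz : z ∈ H
            · simp only [opt, hz, if_true, mem_compl, not_true, if_false]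
              exact card_le_three.trans (by norm_num)
            · simp only [opt, hz, if_false, mem_compl, not_false_eq_true, if_true]
              refine (card_union_le _ _).trans ?_
              simp only [card_product, card_powerset, card_singleton, hq]
              omega
        _ = 4 ^ Fintype.card α * (2 ^ q) ^ Hᶜ.card := by
            rw [prod_mul_distrib, prod_const, card_univ, prod_ite_mem, univ_inter, prod_const]
    have h3 : ((2 ^ q : ℝ)) ^ Hᶜ.card ≤ (2 : ℝ) ^ ((q : ℝ) * (Fintype.card α / 2 - e)) := by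
      rw [← pow_mul, ← Real.rpow_natCast]
      apply Real.rpow_le_rpow_of_exponent_le (by norm_num)
      push_cast
      refine mul_le_mul_of_nonneg_left ?_ (by positivity)
      have h4 := card_add_card_compl H
      have h5 : (H.card : ℝ) + Hᶜ.card = Fintype.card α := by exact_mod_cast h4
      have h6 : (Fintype.card α : ℝ) + 2 * e < 2 * H.card := by exact_mod_cast hH
      linarith
    calc _ ≤ ((4 ^ Fintype.card α * (2 ^ q) ^ Hᶜ.card : ℕ) : ℝ) := by exact_mod_cast h1.trans h2
      _ ≤ _ := by push_cast; gcongr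

/-- few irreflexive points, and `v` of low degree -/
def Bs1 (v : α) (k g : ℕ) : Finset (α → α → Prop) :=
  univ.filter fun R => PO R ∧ (irr R).card ≤ k ∧ (upN R v).card ≤ g ∧ (dnN R v).card ≤ g

lemma card_Bs1 (v : α) (k g : ℕ) : ((Bs1 v k g).card : ℝ) ≤
    (small α k).card * (small α g).card * (small α g).card * I (Fintype.card α - 1) := by
  have := card_le_of_cover (Bs1 v k g) (small α k ×ˢ small α g ×ˢ small α g)
    (fun _ => idemOn ({v} : Finset α)ᶜ)
    (fun s t => univ.filter fun R => PO R ∧ irr R = s.1 ∧ upN R v = s.2.1 ∧ dnN R v = s.2.2 ∧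
      rc {v} R = t)
    (I (Fintype.card α - 1)) 1 zero_le_one ?_ ?_ ?_
  · simpa [card_product, mul_assoc] using this
  · intro R hR
    simp only [Bs1, mem_filter, mem_univ, true_and] at hR
    obtain ⟨hP, h1, h2, h3⟩ := hR
    exact ⟨(irr R, upN R v, dnN R v), by simp [h1, h2, h3], rc {v} R, rc_mem_idemOn hP _,
      by simp [hP]⟩
  · intro s _
    have := card_idemOn_compl_le ({v} : Finset α)
    rw [card_singleton] at this
    exact_mod_cast this
  · intro s _ t _
    norm_cast
    rw [card_le_one]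
    intro R1 hR1 R2 hR2
    simp only [mem_filter, mem_univ, true_and] at hR1 hR2
    refine det_of_res hR1.1 hR2.1 {v} (fun a b ha hb => ?_) (fun w hw => ?_) (fun w hw => ?_)
      (diag_iff_of_irr (hR1.2.1.trans hR2.2.1.symm))
    · exact lt_iff_of_rc (hR1.2.2.2.2.trans hR2.2.2.2.2.symm) ha hb
    · rw [mem_singleton.1 hw, hR1.2.2.1, hR2.2.2.1]
    · rw [mem_singleton.1 hw, hR1.2.2.2.1, hR2.2.2.2.1]

/-- few irreflexive points, and a large antichain -/
def Bs2 (α : Type) [Fintype α] (k g : ℕ) : Finset (α → α → Prop) :=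
  univ.filter fun R => PO R ∧ (irr R).card ≤ k ∧ ∃ J, Antichain R J ∧ g ≤ J.card

lemma card_Bs2 (k g : ℕ) : (Bs2 α k g).card * 2 ^ g ≤ (small α k).card * (idemAll α).card := by
  set P := (Bs2 α k g).image (rc ∅) with hP
  have h1 : (Bs2 α k g).card ≤ (small α k).card * P.card := by
    refine card_le_mul_card_image (f := rc ∅) _ _ fun t _ => ?_
    refine card_le_card_of_injOn irr ?_ ?_
    · intro R hR
      simp only [Bs2, coe_filter, mem_filter, mem_univ, true_and, Set.mem_ofPred_eq] at hR
      simpa using hR.1.2.1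
    · intro R1 hR1 R2 hR2 hEq
      simp only [coe_filter, Set.mem_ofPred_eq] at hR1 hR2
      exact rel_ext (fun a b => lt_iff_of_rc (hR1.2.trans hR2.2.symm) (by simp) (by simp))
        (diag_iff_of_irr hEq)
  have h2 : 2 ^ g * P.card ≤ ((idemAll α).filter fun R => rc ∅ R ∈ P).card := by
    refine mul_card_image_le_card_of_maps_to (f := rc ∅) (fun R hR => (mem_filter.1 hR).2) _ ?_
    intro t ht
    obtain ⟨R, hR, rfl⟩ := mem_image.1 ht
    simp only [Bs2, mem_filter, mem_univ, true_and] at hR
    obtain ⟨hPO, -, J, hJ, hg⟩ := hR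
    have h3 : 2 ^ g ≤ J.powerset.card := by
      rw [card_powerset]; exact Nat.pow_le_pow_right (by norm_num) hg
    refine h3.trans (card_le_card_of_injOn (fun T => fun a b => lt R a b ∨ (a = b ∧ a ∉ T)) ?_ ?_)
    · intro T hT
      simp only [coe_powerset, Set.mem_preimage, Set.mem_powerset_iff, coe_subset] at hT
      have hrc : rc ∅ (fun a b => lt R a b ∨ (a = b ∧ a ∉ T)) = rc ∅ R := by
        funext a b
        simp only [rc, lt, notMem_empty, not_false_eq_true, true_and, eq_iff_iff]
        tauto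
      simp only [idemAll, coe_filter, mem_filter, mem_univ, true_and, Set.mem_ofPred_eq, hrc, ht,
        and_true]
      intro a b
      constructor
      · intro hab
        by_cases ha : a ∈ T
        · by_cases hb : b ∈ T
          · rcases hab with hab | hab
            · exact absurd hab (hJ a (hT ha) b (hT hb))
            · exact absurd ha hab.2
          · exact ⟨b, hab, Or.inr ⟨rfl, hb⟩⟩
        · exact ⟨a, Or.inr ⟨rfl, ha⟩, hab⟩
      · rintro ⟨c, h4 | ⟨rfl, h4⟩, h5 | ⟨rfl, h5⟩⟩
        · exact Or.inl (hPO.lt_trans h4 h5)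
        · exact Or.inl h4
        · exact Or.inl h5
        · exact Or.inr ⟨rfl, h4⟩
    · intro T1 _ T2 _ hEq
      ext a
      have := congrFun (congrFun hEq a) a
      simp only [lt_irrefl', true_and, false_or, eq_iff_iff] at this
      tauto
  have h3 : ((idemAll α).filter fun R => rc ∅ R ∈ P).card ≤ (idemAll α).card := card_filter_le _ _
  calc (Bs2 α k g).card * 2 ^ g ≤ (small α k).card * P.card * 2 ^ g := by gcongr
    _ = (small α k).card * (2 ^ g * P.card) := by ring
    _ ≤ _ := Nat.mul_le_mul_left _ (h2.trans h3)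

end Pool.Agent.MP_c00610_co
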