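import Pool.Agent.MP_c00610_co.Count1

set_option linter.unusedSectionVars false

open Finset
open scoped Classical

noncomputable section
namespace Pool.Agent.MP_c00610_co

variable {α : Type} [Fintype α]

lemma candU_congr {R1 R2 : α → α → Prop} {K : Finset α} (h : res K R1 = res K R2) (q : ℕ)
    (Qu Qd : Finset α) : candU R1 q K Qu Qd = candU R2 q K Qu Qd := by
  rw [← candU_res R1, h, candU_res]

lemma candD_congr {R1 R2 : α → α → Prop} {K : Finset α} (h : res K R1 = res K R2) (q : ℕ)
    (Qu Qd : Finset α) : candD R1 q K Qu Qd = candD R2 q K Qu Qd := by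
  rw [← candD_res R1, h, candD_res]

lemma lt_iff_of_res {R1 R2 : α → α → Prop} {K : Finset α} (h : res K R1 = res K R2) {a b : α}
    (ha : a ∉ K) (hb : b ∉ K) : lt R1 a b ↔ lt R2 a b := by
  have h1 := lt_res (R := R1) (K := K) (a := a) (b := b)
  have h2 := lt_res (R := R2) (K := K) (a := a) (b := b)
  rw [h] at h1
  tauto

lemma diag_iff_of_res {R1 R2 : α → α → Prop} {K : Finset α} (h : res K R1 = res K R2) {a : α}
    (ha : a ∉ K) : R1 a a ↔ R2 a a := by
  have := congrFun (congrFun h a) a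
  simpa [res, ha] using this

lemma exists_notMem_of_adm {Q K : Finset α} {q : ℕ} {v y : α} (hq : 1 ≤ q) (hQ : q < Q.card)
    (hv : v ∉ Q) (hK : K ⊆ {v, y}) : ∃ u ∈ Q, u ∉ K := by
  obtain ⟨u, hu, hu'⟩ := exists_mem_notMem_of_card_lt_card (s := {y}) (t := Q) (by simp; omega)
  refine ⟨u, hu, fun huK => ?_⟩
  have := hK huK
  simp only [mem_insert, mem_singleton] at this hu'
  rcases this with rfl | rfl
  · exact hv hu
  · exact hu' rfl

lemma cov_transfer {R1 R2 : α → α → Prop} (h1 : PO R1) (h2 : PO R2) {K : Finset α}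
    (h : res K R1 = res K R2) {q : ℕ} (hq : 1 ≤ q) {v y : α} (hK : K ⊆ {v, y})
    {Qu Qd : Finset α} (a1 : Adm R1 q v Qu Qd) (a2 : Adm R2 q v Qu Qd)
    (hn : ∀ z ∈ cand R1 q K Qu Qd, adj R1 v z → adj R2 v z) {z : α} (hz : z ∉ K) :
    (cov R1 v z → cov R2 v z) ∧ (cov R1 z v → cov R2 z v) := by
  constructor
  · intro hc
    by_cases hQ : z ∈ Qu
    · exact mem_upN.1 (a2.su hQ)
    have k1 := a1.up_mem h1 K hc hQ hz
    rcases hn z (mem_cand.2 (Or.inl k1)) (Or.inl hc) with k2 | k2
    · exact k2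
    exfalso
    rw [candU_congr h, mem_candU] at k1
    by_cases hQ' : z ∈ Qd
    · exact lt_irrefl' (k1.2.2.2 z hQ' hz)
    have k3 := mem_candD.1 (a2.dn_mem h2 K k2 hQ' hz)
    obtain ⟨u, hu, huK⟩ := exists_notMem_of_adm hq k1.1
      (fun hv => lt_irrefl' (mem_upN.1 (a1.su hv)).1) hK
    exact (k1.2.2.1 u hu huK).2.1 (k3.2.2.2 u hu huK)
  · intro hc
    by_cases hQ : z ∈ Qd
    · exact mem_dnN.1 (a2.sd hQ)
    have k1 := a1.dn_mem h1 K hc hQ hz
    rcases hn z (mem_cand.2 (Or.inr k1)) (Or.inr hc) with k2 | k2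
    swap
    · exact k2
    exfalso
    rw [candD_congr h, mem_candD] at k1
    by_cases hQ' : z ∈ Qu
    · exact lt_irrefl' (k1.2.2.2 z hQ' hz)
    have k3 := mem_candU.1 (a2.up_mem h2 K k2 hQ' hz)
    obtain ⟨u, hu, huK⟩ := exists_notMem_of_adm hq k1.1
      (fun hv => lt_irrefl' (mem_dnN.1 (a1.sd hv)).1) hK
    exact (k1.2.2.1 u hu huK).2.2 (k3.2.2.2 u hu huK)

lemma cand_congr {R1 R2 : α → α → Prop} {K : Finset α} (h : res K R1 = res K R2) (q : ℕ)
    (Qu Qd : Finset α) : cand R1 q K Qu Qd = cand R2 q K Qu Qd := by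
  unfold cand; rw [candU_congr h, candD_congr h]

lemma cov_transfer_iff {R1 R2 : α → α → Prop} (h1 : PO R1) (h2 : PO R2) {K : Finset α}
    (h : res K R1 = res K R2) {q : ℕ} (hq : 1 ≤ q) {v y : α} (hK : K ⊆ {v, y})
    {Qu Qd : Finset α} (a1 : Adm R1 q v Qu Qd) (a2 : Adm R2 q v Qu Qd)
    (hn : ∀ z ∈ cand R1 q K Qu Qd, adj R1 v z ↔ adj R2 v z) {z : α} (hz : z ∉ K) :
    (cov R1 v z ↔ cov R2 v z) ∧ (cov R1 z v ↔ cov R2 z v) := by
  have k1 := cov_transfer h1 h2 h hq hK a1 a2 (fun z hz => (hn z hz).1) hz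
  have k2 := cov_transfer h2 h1 h.symm hq hK a2 a1
    (fun z hz => (hn z (by rwa [cand_congr h])).2) hz
  tauto

/-- a vertex with too few candidate neighbours -/
def B4 (α : Type) [Fintype α] (q e : ℕ) : Finset (α → α → Prop) :=
  univ.filter fun R => PO R ∧ ∃ v Qu Qd, Adm R q v Qu Qd ∧ Idem (res {v} R) ∧
    ∃ W ∈ Wset (res {v} R), (∀ z ∈ W, ¬ adj R v z) ∧
      2 * (cand R q {v} Qu Qd \ W).card + 2 * e < Fintype.card α

lemma card_B4 (q e : ℕ) (hq : 1 ≤ q) : ((B4 α q e).card : ℝ) ≤
    (Fintype.card α * ((Fintype.card α : ℝ) + 1) ^ (q + 1) * (Fintype.card α + 1) ^ (q + 1) * 2) *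
      (I (Fintype.card α - 1) * (Fintype.card α + 2) ^ 2) *
      (2 : ℝ) ^ ((Fintype.card α : ℝ) / 2 - e) := by
  have := card_le_of_cover (B4 α q e)
    ((univ : Finset α) ×ˢ small α (q + 1) ×ˢ small α (q + 1) ×ˢ (univ : Finset Prop))
    (fun s => (idemOn ({s.1} : Finset α)ᶜ).biUnion fun t => (Wset t).image fun W => (t, W))
    (fun s t => univ.filter fun R => PO R ∧ Adm R q s.1 s.2.1 s.2.2.1 ∧ (R s.1 s.1 ↔ s.2.2.2) ∧
      res {s.1} R = t.1 ∧ (∀ z ∈ t.2, ¬ adj R s.1 z) ∧
      2 * (cand t.1 q {s.1} s.2.1 s.2.2.1 \ t.2).card + 2 * e < Fintype.card α)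
    (I (Fintype.card α - 1) * (Fintype.card α + 2) ^ 2)
    ((2 : ℝ) ^ ((Fintype.card α : ℝ) / 2 - e)) (by positivity) ?_ ?_ ?_
  · refine this.trans ?_
    gcongr
    simp only [card_product, card_univ, Fintype.card_prop]
    have h1 : ((small α (q + 1)).card : ℝ) ≤ (Fintype.card α + 1) ^ (q + 1) := by
      exact_mod_cast card_small_le_pow (q + 1)
    push_cast
    rw [← mul_assoc, ← mul_assoc]
    gcongr
  · intro R hR
    simp only [B4, mem_filter, mem_univ, true_and] at hR
    obtain ⟨hP, v, Qu, Qd, ha, hI, W, hW, h1, h2⟩ := hR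
    refine ⟨(v, Qu, Qd, R v v), by simp [ha.cu, ha.cd, em], (res {v} R, W), ?_, ?_⟩
    · exact mem_biUnion.2 ⟨res {v} R, res_mem_idemOn hI, mem_image.2 ⟨W, hW, rfl⟩⟩
    · simp only [mem_filter, mem_univ, true_and, cand_res]
      exact ⟨hP, ha, h1, h2⟩
  · intro s _
    have h1 := card_idemOn_compl_le ({s.1} : Finset α)
    rw [card_singleton] at h1
    have h2 := card_biUnion_le_card_mul (idemOn ({s.1} : Finset α)ᶜ)
      (fun t => (Wset t).image fun W => (t, W)) ((Fintype.card α + 2) ^ 2)
      (fun t _ => card_image_le.trans (card_Wset_le t))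
    have h3 := h2.trans (Nat.mul_le_mul_right _ h1)
    exact_mod_cast h3
  · rintro ⟨v, Qu, Qd, ρ⟩ _ ⟨t, W⟩ _
    simp only
    by_cases hs : 2 * (cand t q {v} Qu Qd \ W).card + 2 * e < Fintype.card α
    swap
    · simp only [hs, and_false, filter_false, card_empty, Nat.cast_zero]
      positivity
    have h1 : (univ.filter fun R : α → α → Prop => PO R ∧ Adm R q v Qu Qd ∧ (R v v ↔ ρ) ∧
        res {v} R = t ∧ (∀ z ∈ W, ¬ adj R v z) ∧
        2 * (cand t q {v} Qu Qd \ W).card + 2 * e < Fintype.card α).card ≤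
        (cand t q {v} Qu Qd \ W).powerset.card := by
      refine card_le_card_of_injOn (fun R => (cand t q {v} Qu Qd \ W).filter (adj R v)) ?_ ?_
      · intro R _
        exact mem_coe.2 (mem_powerset.2 (filter_subset _ _))
      · intro R1 hR1 R2 hR2 hEq
        simp only [coe_filter, mem_univ, true_and, Set.mem_ofPred_eq] at hR1 hR2
        obtain ⟨p1, a1, r1, e1, w1, -⟩ := hR1
        obtain ⟨p2, a2, r2, e2, w2, -⟩ := hR2
        have hres : res {v} R1 = res {v} R2 := e1.trans e2.symm
        have hn : ∀ z ∈ cand R1 q {v} Qu Qd, adj R1 v z ↔ adj R2 v z := by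
          intro z hz
          by_cases hzW : z ∈ W
          · exact ⟨fun hh => absurd hh (w1 z hzW), fun hh => absurd hh (w2 z hzW)⟩
          · have hz' : z ∈ cand t q {v} Qu Qd := by rw [← e1, cand_res]; exact hz
            have := congrArg (fun S => z ∈ S) hEq
            simpa [hz', hzW] using this
        have key : ∀ z, (cov R1 v z ↔ cov R2 v z) ∧ (cov R1 z v ↔ cov R2 z v) := by
          intro z
          by_cases hzv : z = v
          · subst hzv
            simp [cov, lt_irrefl']
          · exact cov_transfer_iff p1 p2 hres hq (y := v) (by simp) a1 a2 hn (by simpa using hzv)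
        refine det_of_res p1 p2 {v} (fun a b ha hb => lt_iff_of_res hres ha hb)
          (fun w hw => ?_) (fun w hw => ?_) (fun a => ?_)
        · rw [mem_singleton.1 hw]; ext z; simp [(key z).1]
        · rw [mem_singleton.1 hw]; ext z; simp [(key z).2]
        · by_cases hav : a = v
          · rw [hav, r1, r2]
          · exact diag_iff_of_res hres (by simpa using hav)
    rw [card_powerset] at h1
    refine le_trans (by exact_mod_cast h1 : _ ≤ ((2 : ℝ) ^ (cand t q {v} Qu Qd \ W).card)) ?_
    rw [← Real.rpow_natCast]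
    apply Real.rpow_le_rpow_of_exponent_le (by norm_num)
    have : (2 : ℝ) * (cand t q {v} Qu Qd \ W).card + 2 * e < Fintype.card α := by exact_mod_cast hs
    linarith

/-- disjoint pairs of subsets -/
def dpairs (A B : Finset α) : Finset (Finset α × Finset α) :=
  (A.powerset ×ˢ B.powerset).filter fun p => Disjoint p.1 p.2

lemma card_dpairs (A B : Finset α) :
    ((dpairs A B).card : ℝ) ≤ 2 ^ A.card * 2 ^ B.card * (3 / 4) ^ (A ∩ B).card := by
  let opt : α → Finset (Prop × Prop) := fun z =>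
    if z ∈ A then (if z ∈ B then {(True, False), (False, True), (False, False)}
      else {(True, False), (False, False)})
    else (if z ∈ B then {(False, True), (False, False)} else {(False, False)})
  have h1 : (dpairs A B).card ≤ (Fintype.piFinset opt).card := by
    refine card_le_card_of_injOn (fun p z => (z ∈ p.1, z ∈ p.2)) ?_ ?_
    · rintro ⟨X, Y⟩ hp
      simp only [dpairs, coe_filter, mem_product, mem_powerset, Set.mem_ofPred_eq] at hp
      simp only [mem_coe, Fintype.mem_piFinset]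
      intro z
      have k1 : z ∈ X → z ∈ A := fun h => hp.1.1 h
      have k2 : z ∈ Y → z ∈ B := fun h => hp.1.2 h
      have k3 : z ∈ X → z ∉ Y := fun h => disjoint_left.1 hp.2 h
      by_cases hA : z ∈ A <;> by_cases hB : z ∈ B <;> by_cases hX : z ∈ X <;>
        by_cases hY : z ∈ Y <;> simp_all [opt]
    · rintro ⟨X, Y⟩ _ ⟨X', Y'⟩ _ hEq
      simp only [Prod.mk.injEq]
      constructor
      · ext z
        have := congrArg Prod.fst (congrFun hEq z)
        simpa using this
      · ext z
        have := congrArg Prod.snd (congrFun hEq z)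
        simpa using this
  rw [Fintype.card_piFinset] at h1
  calc ((dpairs A B).card : ℝ) ≤ ∏ z, ((opt z).card : ℝ) := by exact_mod_cast h1
    _ ≤ ∏ z, ((if z ∈ A then (2 : ℝ) else 1) * (if z ∈ B then 2 else 1) *
          (if z ∈ A ∩ B then 3 / 4 else 1)) := by
        refine prod_le_prod (fun z _ => by positivity) fun z _ => ?_
        by_cases hA : z ∈ A <;> by_cases hB : z ∈ B
        · simp only [opt, hA, hB, if_true, mem_inter, and_self]
          have : (({(True, False), (False, True), (False, False)} :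
            Finset (Prop × Prop)).card : ℝ) ≤ 3 := by exact_mod_cast card_le_three
          linarith
        · simp only [opt, hA, hB, if_true, if_false, mem_inter, and_false]
          have : (({(True, False), (False, False)} : Finset (Prop × Prop)).card : ℝ) ≤ 2 := by
            exact_mod_cast card_le_two
          linarith
        · simp only [opt, hA, hB, if_true, if_false, mem_inter, false_and]
          have : (({(False, True), (False, False)} : Finset (Prop × Prop)).card : ℝ) ≤ 2 := by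
            exact_mod_cast card_le_two
          linarith
        · simp [opt, hA, hB]
    _ = _ := by
        rw [prod_mul_distrib, prod_mul_distrib, prod_ite_mem, prod_ite_mem, prod_ite_mem]
        simp only [univ_inter, prod_const]

/-- two vertices with almost no common neighbours but many common candidates -/
def B5 (α : Type) [Fintype α] (q e : ℕ) : Finset (α → α → Prop) :=
  univ.filter fun R => PO R ∧
    (∀ Q, Antichain R Q → Q.card = q → 2 * (Hom R Q).card ≤ Fintype.card α + 2 * e) ∧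
    ∃ x y, x ≠ y ∧ ∃ Qu Qd Pu Pd, Adm R q x Qu Qd ∧ Adm R q y Pu Pd ∧
    Idem (res {x, y} R) ∧ (nbr R x ∩ nbr R y).card ≤ 2 ∧
    10 * e < (cand R q {x} Qu Qd ∩ cand R q {y} Pu Pd).card

lemma cand_inter_sub {R : α → α → Prop} {q : ℕ} {x y : α} {Qu Qd Pu Pd : Finset α} :
    cand R q {x} Qu Qd ∩ cand R q {y} Pu Pd ⊆ cand R q {x, y} Qu Qd ∩ cand R q {x, y} Pu Pd := by
  intro z hz
  simp only [mem_inter, mem_cand, mem_candU, mem_candD, mem_insert, mem_singleton] at hz ⊢
  have hx : z ≠ x := by tauto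
  have hy : z ≠ y := by tauto
  constructor
  · rcases hz.1 with h | h
    · exact Or.inl ⟨h.1, by tauto, fun u hu hK => h.2.2.1 u hu (by tauto),
        fun u hu hK => h.2.2.2 u hu (by tauto)⟩
    · exact Or.inr ⟨h.1, by tauto, fun u hu hK => h.2.2.1 u hu (by tauto),
        fun u hu hK => h.2.2.2 u hu (by tauto)⟩
  · rcases hz.2 with h | h
    · exact Or.inl ⟨h.1, by tauto, fun u hu hK => h.2.2.1 u hu (by tauto),
        fun u hu hK => h.2.2.2 u hu (by tauto)⟩
    · exact Or.inr ⟨h.1, by tauto, fun u hu hK => h.2.2.1 u hu (by tauto),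
        fun u hu hK => h.2.2.2 u hu (by tauto)⟩

lemma card_B5 (q e : ℕ) (hq : 1 ≤ q) : ((B5 α q e).card : ℝ) ≤
    ((Fintype.card α : ℝ) ^ 2 * ((Fintype.card α : ℝ) + 1) ^ (4 * q + 6) * 16) *
      I (Fintype.card α - 2) * (2 : ℝ) ^ ((Fintype.card α : ℝ) - 2 * e) := by
  have := card_le_of_cover (B5 α q e)
    (((univ : Finset (α × α)).filter fun p => p.1 ≠ p.2) ×ˢ
      (small α (q + 1) ×ˢ small α (q + 1)) ×ˢ (small α (q + 1) ×ˢ small α (q + 1)) ×ˢ
      small α 2 ×ˢ (univ : Finset ((Prop × Prop) × (Prop × Prop))))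
    (fun s => idemOn ({s.1.1, s.1.2} : Finset α)ᶜ)
    (fun s t => univ.filter fun R => PO R ∧ Adm R q s.1.1 s.2.1.1 s.2.1.2 ∧
      Adm R q s.1.2 s.2.2.1.1 s.2.2.1.2 ∧ nbr R s.1.1 ∩ nbr R s.1.2 = s.2.2.2.1 ∧
      ((R s.1.1 s.1.1, R s.1.2 s.1.2), (cov R s.1.1 s.1.2, cov R s.1.2 s.1.1)) = s.2.2.2.2 ∧
      res {s.1.1, s.1.2} R = t ∧
      (cand t q {s.1.1, s.1.2} s.2.1.1 s.2.1.2).card +
        (cand t q {s.1.1, s.1.2} s.2.2.1.1 s.2.2.1.2).card ≤ Fintype.card α + 2 * e ∧
      10 * e ≤ (cand t q {s.1.1, s.1.2} s.2.1.1 s.2.1.2 ∩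
        cand t q {s.1.1, s.1.2} s.2.2.1.1 s.2.2.1.2).card)
    (I (Fintype.card α - 2))
    ((2 : ℝ) ^ ((Fintype.card α : ℝ) - 2 * e)) (by positivity) ?_ ?_ ?_
  · refine this.trans ?_
    gcongr
    simp only [card_product, card_univ, Fintype.card_prod, Fintype.card_prop]
    have h1 : ((small α (q + 1)).card : ℝ) ≤ (Fintype.card α + 1) ^ (q + 1) := by
      exact_mod_cast card_small_le_pow (q + 1)
    have h2 : ((small α 2).card : ℝ) ≤ (Fintype.card α + 1) ^ 2 := by
      exact_mod_cast card_small_le_pow 2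
    have h3 : ((((univ : Finset (α × α)).filter fun p => p.1 ≠ p.2).card : ℝ)) ≤
        (Fintype.card α : ℝ) ^ 2 := by
      have := card_filter_le (univ : Finset (α × α)) (fun p => p.1 ≠ p.2)
      rw [card_univ, Fintype.card_prod] at this
      rw [sq]; exact_mod_cast this
    push_cast
    calc _ ≤ (Fintype.card α : ℝ) ^ 2 * (((Fintype.card α + 1) ^ (q + 1) *
          (Fintype.card α + 1) ^ (q + 1)) * (((Fintype.card α + 1) ^ (q + 1) *
          (Fintype.card α + 1) ^ (q + 1)) * ((Fintype.card α + 1) ^ 2 * 16))) := by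
          gcongr
      _ = _ := by ring
  · intro R hR
    simp only [B5, mem_filter, mem_univ, true_and] at hR
    obtain ⟨hP, hom, x, y, hxy, Qu, Qd, Pu, Pd, ha, hb, hI, h1, h2⟩ := hR
    refine ⟨((x, y), (Qu, Qd), (Pu, Pd), nbr R x ∩ nbr R y,
      ((R x x, R y y), (cov R x y, cov R y x))), by simp [ha.cu, ha.cd, hb.cu, hb.cd, hxy, h1],
      res {x, y} R, res_mem_idemOn hI, ?_⟩
    simp only [mem_filter, mem_univ, true_and, cand_res]
    have k1 := card_cand_le hom ha {x, y} y (by simp)
    have k2 := card_cand_le hom hb {x, y} x (by rw [pair_comm])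
    have k3 := card_le_card (cand_inter_sub (R := R) (q := q) (x := x) (y := y) (Qu := Qu)
      (Qd := Qd) (Pu := Pu) (Pd := Pd))
    exact ⟨hP, ha, hb, by omega, by omega⟩
  · intro s hs
    simp only [mem_product, mem_filter] at hs
    have h1 := card_idemOn_compl_le ({s.1.1, s.1.2} : Finset α)
    rw [card_pair hs.1.2] at h1
    exact_mod_cast h1
  · rintro ⟨⟨x, y⟩, ⟨Qu, Qd⟩, ⟨Pu, Pd⟩, T, ρ⟩ _ t _
    simp only
    set A := cand t q {x, y} Qu Qd with hA
    set B := cand t q {x, y} Pu Pd with hB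
    by_cases hs : A.card + B.card ≤ Fintype.card α + 2 * e ∧ 10 * e ≤ (A ∩ B).card
    swap
    · simp only [hs, and_false, filter_false, card_empty, Nat.cast_zero]
      positivity
    have h1 : (univ.filter fun R : α → α → Prop => PO R ∧ Adm R q x Qu Qd ∧ Adm R q y Pu Pd ∧
        nbr R x ∩ nbr R y = T ∧ ((R x x, R y y), (cov R x y, cov R y x)) = ρ ∧
        res {x, y} R = t ∧ A.card + B.card ≤ Fintype.card α + 2 * e ∧
        10 * e ≤ (A ∩ B).card).card ≤ (dpairs A B).card := by
      refine card_le_card_of_injOn (fun R => (A.filter (fun z => adj R x z ∧ z ∉ T),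
        B.filter (fun z => adj R y z ∧ z ∉ T))) ?_ ?_
      · intro R hR
        simp only [coe_filter, mem_univ, true_and, Set.mem_ofPred_eq] at hR
        simp only [dpairs, coe_filter, mem_product, mem_powerset, filter_subset, true_and,
          Set.mem_ofPred_eq]
        rw [disjoint_left]
        intro z hz1 hz2
        rw [mem_filter] at hz1 hz2
        apply hz1.2.2
        rw [← hR.2.2.2.1]
        simp [hz1.2.1, hz2.2.1]
      · intro R1 hR1 R2 hR2 hEq
        simp only [coe_filter, mem_univ, true_and, Set.mem_ofPred_eq] at hR1 hR2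
        obtain ⟨p1, a1, b1, t1, r1, e1, -⟩ := hR1
        obtain ⟨p2, a2, b2, t2, r2, e2, -⟩ := hR2
        have hres : res {x, y} R1 = res {x, y} R2 := e1.trans e2.symm
        have hr := r1.trans r2.symm
        simp only [Prod.mk.injEq, eq_iff_iff] at hr hEq
        have hT : ∀ z ∈ T, (adj R1 x z ∧ adj R1 y z) ∧ (adj R2 x z ∧ adj R2 y z) := by
          intro z hz
          have k1 : z ∈ nbr R1 x ∩ nbr R1 y := by rw [t1]; exact hz
          have k2 : z ∈ nbr R2 x ∩ nbr R2 y := by rw [t2]; exact hz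
          simp only [mem_inter, mem_nbr] at k1 k2
          exact ⟨k1, k2⟩
        have hnx : ∀ z ∈ cand R1 q {x, y} Qu Qd, adj R1 x z ↔ adj R2 x z := by
          intro z hz
          by_cases hzT : z ∈ T
          · have := hT z hzT
            exact ⟨fun _ => this.2.1, fun _ => this.1.1⟩
          · have hz' : z ∈ A := by rw [hA, ← e1, cand_res]; exact hz
            have := congrArg (fun S => z ∈ S) hEq.1
            simpa [hz', hzT] using this
        have hny : ∀ z ∈ cand R1 q {x, y} Pu Pd, adj R1 y z ↔ adj R2 y z := by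
          intro z hz
          by_cases hzT : z ∈ T
          · have := hT z hzT
            exact ⟨fun _ => this.2.2, fun _ => this.1.2⟩
          · have hz' : z ∈ B := by rw [hB, ← e1, cand_res]; exact hz
            have := congrArg (fun S => z ∈ S) hEq.2
            simpa [hz', hzT] using this
        have keyx : ∀ z, (cov R1 x z ↔ cov R2 x z) ∧ (cov R1 z x ↔ cov R2 z x) := by
          intro z
          by_cases hzx : z = x
          · subst hzx
            simp [cov, lt_irrefl']
          by_cases hzy : z = y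
          · subst hzy
            exact hr.2
          exact cov_transfer_iff p1 p2 hres hq (y := y) (by simp) a1 a2 hnx (by simp [hzx, hzy])
        have keyy : ∀ z, (cov R1 y z ↔ cov R2 y z) ∧ (cov R1 z y ↔ cov R2 z y) := by
          intro z
          by_cases hzy : z = y
          · subst hzy
            simp [cov, lt_irrefl']
          by_cases hzx : z = x
          · subst hzx
            exact hr.2.symm
          exact cov_transfer_iff p1 p2 hres hq (y := x) (by rw [pair_comm]) b1 b2 hny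
            (by simp [hzx, hzy])
        refine det_of_res p1 p2 {x, y} (fun a b ha hb => lt_iff_of_res hres ha hb)
          (fun w hw => ?_) (fun w hw => ?_) (fun a => ?_)
        · simp only [mem_insert, mem_singleton] at hw
          rcases hw with rfl | rfl
          · ext z; simp [(keyx z).1]
          · ext z; simp [(keyy z).1]
        · simp only [mem_insert, mem_singleton] at hw
          rcases hw with rfl | rfl
          · ext z; simp [(keyx z).2]
          · ext z; simp [(keyy z).2]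
        · by_cases hax : a = x
          · rw [hax]; exact hr.1.1
          by_cases hay : a = y
          · rw [hay]; exact hr.1.2
          exact diag_iff_of_res hres (by simp [hax, hay])
    refine le_trans (by exact_mod_cast h1) ((card_dpairs A B).trans ?_)
    have k1 : (2 : ℝ) ^ A.card * 2 ^ B.card ≤ (2 : ℝ) ^ ((Fintype.card α : ℝ) + 2 * e) := by
      rw [← pow_add, ← Real.rpow_natCast]
      apply Real.rpow_le_rpow_of_exponent_le (by norm_num)
      exact_mod_cast hs.1
    have k2 : ((3 : ℝ) / 4) ^ (A ∩ B).card ≤ (2 : ℝ) ^ (-(4 * e : ℝ)) := by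
      calc ((3 : ℝ) / 4) ^ (A ∩ B).card ≤ ((3 : ℝ) / 4) ^ (10 * e) :=
            pow_le_pow_of_le_one (by norm_num) (by norm_num) hs.2
        _ = (((3 : ℝ) / 4) ^ 10) ^ e := by rw [pow_mul]
        _ ≤ (((2 : ℝ) ^ 4)⁻¹) ^ e := by gcongr; norm_num
        _ = (2 : ℝ) ^ (-(4 * e : ℝ)) := by
            rw [Real.rpow_neg (by norm_num), inv_pow, ← pow_mul, ← Real.rpow_natCast]
            push_cast; rfl
    calc (2 : ℝ) ^ A.card * 2 ^ B.card * (3 / 4) ^ (A ∩ B).card
        ≤ (2 : ℝ) ^ ((Fintype.card α : ℝ) + 2 * e) * (2 : ℝ) ^ (-(4 * e : ℝ)) := by gcongr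
      _ = _ := by rw [← Real.rpow_add (by norm_num)]; congr 1; ring

/-- layered relations -/
def Good (α : Type) [Fintype α] (k : ℕ) : Finset (α → α → Prop) :=
  univ.filter fun R => PO R ∧ ∃ A O, (O ⊆ A ∨ O.card ≤ k) ∧ Shape R A O

lemma card_Good (k : ℕ) : (Good α k).card ≤ ∑ A : Finset α,
    (2 ^ A.card + (small α k).card) * 2 ^ (A.card * Aᶜ.card) * (2 ^ A.card + 2 ^ Aᶜ.card) := by
  have h1 : Good α k ⊆ univ.biUnion fun A : Finset α => univ.filter fun R =>
      PO R ∧ ∃ O, (O ⊆ A ∨ O.card ≤ k) ∧ Shape R A O := by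
    intro R hR
    simp only [Good, mem_filter, mem_univ, true_and, mem_biUnion] at hR ⊢
    obtain ⟨hP, A, O, h⟩ := hR
    exact ⟨A, hP, O, h⟩
  refine (card_le_card h1).trans (card_biUnion_le.trans (sum_le_sum fun A _ => ?_))
  have h2 : (univ.filter fun R : α → α → Prop => PO R ∧ ∃ O, (O ⊆ A ∨ O.card ≤ k) ∧ Shape R A O)
      ⊆ (A.powerset ∪ small α k).biUnion fun O => univ.filter fun R => PO R ∧ Shape R A O := by
    intro R hR
    simp only [mem_filter, mem_univ, true_and, mem_biUnion, mem_union, mem_powerset,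
      mem_small] at hR ⊢
    obtain ⟨hP, O, h⟩ := hR
    exact ⟨O, h.1, hP, h.2⟩
  refine (card_le_card h2).trans ((card_biUnion_le_card_mul _ _
    (2 ^ (A.card * Aᶜ.card) * (2 ^ A.card + 2 ^ Aᶜ.card)) fun O _ => ?_).trans ?_)
  · have h3 : ((A ×ˢ Aᶜ).powerset ×ˢ (A.powerset ∪ Aᶜ.powerset)).card ≤
        2 ^ (A.card * Aᶜ.card) * (2 ^ A.card + 2 ^ Aᶜ.card) := by
      rw [card_product, card_powerset, card_product]
      refine Nat.mul_le_mul_left _ ((card_union_le _ _).trans ?_)
      rw [card_powerset, card_powerset]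
    refine le_trans (card_le_card_of_injOn
      (fun R => ((A ×ˢ Aᶜ).filter (fun p => adj R p.1 p.2), irr R)) ?_ ?_) h3
    · intro R hR
      simp only [coe_filter, mem_univ, true_and, Set.mem_ofPred_eq] at hR
      simp only [mem_coe, mem_product, mem_powerset, filter_subset, mem_union, true_and]
      exact hR.2.1
    · intro R1 hR1 R2 hR2 hEq
      simp only [coe_filter, mem_univ, true_and, Set.mem_ofPred_eq] at hR1 hR2
      simp only [Prod.mk.injEq] at hEq
      have hadj : ∀ a b, a ∈ A → b ∉ A → (adj R1 a b ↔ adj R2 a b) := by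
        intro a b ha hb
        have := congrArg (fun S => (a, b) ∈ S) hEq.1
        simpa [ha, hb] using this
      have key : ∀ S1 S2 : α → α → Prop, Shape S1 A O → Shape S2 A O →
          (∀ a b, a ∈ A → b ∉ A → adj S1 a b → adj S2 a b) → ∀ a b, cov S1 a b → lt S2 a b := by
        intro S1 S2 s1 s2 hh a b hab
        rcases s1.2 a b hab with h | h
        · rcases hh a b h.1 h.2.1 (Or.inl hab) with k | k
          · exact k.1
          · have := s2.2 b a k
            tauto
        · rcases hh b a h.2.1 h.1 (Or.inr hab) with k | k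
          · have := s2.2 b a k
            tauto
          · exact k.1
      exact det_of_cov hR1.1 hR2.1 (key R1 R2 hR1.2 hR2.2 fun a b ha hb => (hadj a b ha hb).1)
        (key R2 R1 hR2.2 hR1.2 fun a b ha hb => (hadj a b ha hb).2) (diag_iff_of_irr hEq.2)
  · rw [← mul_assoc]
    gcongr
    refine (card_union_le _ _).trans ?_
    rw [card_powerset]

/-- the cover of all idempotent relations -/
lemma idemAll_subset (v : α) (q e g : ℕ) (hn : 250 * e + 10 < Fintype.card α) :
    idemAll α ⊆ B0 α ∪ B1 α q e ∪ Bs1 v (16 * e) g ∪ Bs2 α (16 * e) g ∪ B4 α q e ∪ B5 α q e ∪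
      Good α (148 * e + 2) := by
  intro R hR
  simp only [idemAll, mem_filter, mem_univ, true_and] at hR
  by_contra hno
  simp only [mem_union, not_or] at hno
  obtain ⟨⟨⟨⟨⟨⟨h0, h1⟩, hs1⟩, hs2⟩, h4⟩, h5⟩, hg⟩ := hno
  have hP : PO R := by
    refine ⟨hR.tr, fun a b hab hba => ?_⟩
    by_contra hne
    exact h0 (by simp only [B0, mem_filter, mem_univ, true_and]; exact ⟨hR, a, b, hne, hab, hba⟩)
  simp only [B1, Bs1, Bs2, B4, B5, Good, mem_filter, mem_univ, true_and, hP] at h1 hs1 hs2 h4 h5 hg
  push Not at h1 hs1 hs2 h4 h5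
  have hN : Nice R q e := by
    refine ⟨hP, hR, h1, h4, fun x y hxy Qu Qd Pu Pd => h5 h1 x y hxy Qu Qd Pu Pd, ?_, hn⟩
    by_contra hS
    push Not at hS
    by_cases hu : (upN R v).card ≤ g
    · have := hs1 hS hu
      have := hs2 hS _ (antichain_dnN R v)
      omega
    · have := hs2 hS _ (antichain_upN R v)
      omega
  exact hg hN.shape

end Pool.Agent.MP_c00610_co
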