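import Pool.Agent.MP_c00610_co.Count2

set_option linter.unusedSectionVars false

open Finset
open scoped Classical

noncomputable section
namespace Pool.Agent.MP_c00610_co

variable {α : Type} [Fintype α]

def ltD (A O : Finset α) (E : Finset (α × α)) (x y : α) : Prop :=
  (x ∈ O ∧ y ∉ A ∧ (x, y) ∈ E) ∨ (x ∉ A ∧ y ∈ A ∧ y ∉ O ∧ (y, x) ∈ E) ∨
    (x ∈ O ∧ y ∈ A ∧ y ∉ O ∧ ∃ b, b ∉ A ∧ (x, b) ∈ E ∧ (y, b) ∈ E)

def mkRel (A O : Finset α) (E : Finset (α × α)) (S : Finset α) : α → α → Prop :=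
  fun x y => ltD A O E x y ∨ (x = y ∧ x ∉ S)

def Reg (A O : Finset α) (E : Finset (α × α)) : Prop :=
  (∀ b, b ∉ A → ∃ a ∈ O, (a, b) ∈ E) ∧ (∀ b, b ∉ A → ∃ a ∈ A, a ∉ O ∧ (a, b) ∈ E) ∧
    (∀ a ∈ A, ∃ b, b ∉ A ∧ (a, b) ∈ E)

lemma ltD_irrefl {A O : Finset α} {E : Finset (α × α)} (hO : O ⊆ A) (x : α) : ¬ ltD A O E x x := by
  rintro (h | h | h)
  · exact h.2.1 (hO h.1)
  · exact h.1 h.2.1
  · exact h.2.2.1 h.1

lemma ltD_trans {A O : Finset α} {E : Finset (α × α)} (hO : O ⊆ A) {x y z : α}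
    (h1 : ltD A O E x y) (h2 : ltD A O E y z) : ltD A O E x z := by
  rcases h1 with h1 | h1 | h1 <;> rcases h2 with h2 | h2 | h2
  · exact absurd (hO h2.1) h1.2.1
  · exact Or.inr (Or.inr ⟨h1.1, h2.2.1, h2.2.2.1, y, h1.2.1, h1.2.2, h2.2.2.2⟩)
  · exact absurd (hO h2.1) h1.2.1
  · exact absurd h2.1 h1.2.2.1
  · exact absurd h1.2.1 h2.1
  · exact absurd h2.1 h1.2.2.1
  · exact absurd h2.1 h1.2.2.1
  · exact absurd h1.2.1 h2.1
  · exact absurd h2.1 h1.2.2.1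

lemma idem_mkRel {A O : Finset α} {E : Finset (α × α)} {S : Finset α} (hO : O ⊆ A)
    (hS : S ⊆ A ∨ S ⊆ Aᶜ) : Idem (mkRel A O E S) := by
  intro x y
  constructor
  · intro h
    by_cases hx : x ∈ S
    swap
    · exact ⟨x, Or.inr ⟨rfl, hx⟩, h⟩
    by_cases hy : y ∈ S
    swap
    · exact ⟨y, h, Or.inr ⟨rfl, hy⟩⟩
    rcases h with h | h
    swap
    · exact absurd hx h.2
    rcases hS with hS | hS
    · rcases h with h | h | h
      · exact absurd (hS hy) h.2.1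
      · exact absurd (hS hx) h.1
      · obtain ⟨h1, h2, h3, b, h4, h5, h6⟩ := h
        exact ⟨b, Or.inl (Or.inl ⟨h1, h4, h5⟩), Or.inl (Or.inr (Or.inl ⟨h4, h2, h3, h6⟩))⟩
    · have hx' := mem_compl.1 (hS hx)
      have hy' := mem_compl.1 (hS hy)
      rcases h with h | h | h
      · exact absurd (hO h.1) hx'
      · exact absurd h.2.1 hy'
      · exact absurd h.2.1 hy'
  · rintro ⟨c, h1 | ⟨rfl, h1⟩, h2 | ⟨rfl, h2⟩⟩
    · exact Or.inl (ltD_trans hO h1 h2)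
    · exact Or.inl h1
    · exact Or.inl h2
    · exact Or.inr ⟨rfl, h1⟩

lemma lt_mkRel {A O : Finset α} {E : Finset (α × α)} {S : Finset α} (hO : O ⊆ A) {x y : α} :
    lt (mkRel A O E S) x y ↔ ltD A O E x y := by
  unfold lt mkRel
  constructor
  · rintro ⟨h | h, h'⟩
    · exact h
    · exact absurd h.1 h'
  · intro h
    exact ⟨Or.inl h, by rintro rfl; exact ltD_irrefl hO _ h⟩

lemma notMem_iff_mid {A O : Finset α} {E : Finset (α × α)} (hR : Reg A O E) (x : α) :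
    x ∉ A ↔ ∃ y z, ltD A O E y x ∧ ltD A O E x z := by
  constructor
  · intro hx
    obtain ⟨a, ha, h1⟩ := hR.1 x hx
    obtain ⟨a', ha', h2, h3⟩ := hR.2.1 x hx
    exact ⟨a, a', Or.inl ⟨ha, hx, h1⟩, Or.inr (Or.inl ⟨hx, ha', h2, h3⟩)⟩
  · rintro ⟨y, z, h1, h2⟩ hx
    have k1 : x ∉ O := by
      rcases h1 with h | h | h
      · exact absurd hx h.2.1
      · exact h.2.2.1
      · exact h.2.2.1
    rcases h2 with h | h | h
    · exact k1 h.1
    · exact h.1 hx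
    · exact k1 h.1

lemma mem_O_iff {A O : Finset α} {E : Finset (α × α)} (hO : O ⊆ A) (hR : Reg A O E) (x : α) :
    x ∈ O ↔ x ∈ A ∧ ∃ z, ltD A O E x z := by
  constructor
  · intro hx
    obtain ⟨b, h1, h2⟩ := hR.2.2 x (hO hx)
    exact ⟨hO hx, b, Or.inl ⟨hx, h1, h2⟩⟩
  · rintro ⟨hx, z, h | h | h⟩
    · exact h.1
    · exact absurd hx h.1
    · exact h.1

lemma mem_E_iff {A O : Finset α} {E : Finset (α × α)} (hO : O ⊆ A) (hE : E ⊆ A ×ˢ Aᶜ) (a b : α) :
    (a, b) ∈ E ↔ a ∈ A ∧ b ∉ A ∧ (ltD A O E a b ∨ ltD A O E b a) := by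
  constructor
  · intro h
    have := hE h
    simp only [mem_product, mem_compl] at this
    refine ⟨this.1, this.2, ?_⟩
    by_cases ha : a ∈ O
    · exact Or.inl (Or.inl ⟨ha, this.2, h⟩)
    · exact Or.inr (Or.inr (Or.inl ⟨this.2, this.1, ha, h⟩))
  · rintro ⟨ha, hb, h | h⟩
    · rcases h with h | h | h
      · exact h.2.2
      · exact absurd ha h.1
      · exact absurd h.2.1 hb
    · rcases h with h | h | h
      · exact absurd ha h.2.1
      · exact h.2.2.2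
      · exact absurd (hO h.1) hb

def regs (A : Finset α) : Finset (Finset α × Finset (α × α)) :=
  (A.powerset ×ˢ (A ×ˢ Aᶜ).powerset).filter fun p => Reg A p.1 p.2

lemma sum_regs_le : ∑ A : Finset α, (regs A).card * (A.powerset ∪ Aᶜ.powerset).card ≤
    (idemAll α).card := by
  have h1 : ((univ : Finset (Finset α)).sigma fun A => regs A ×ˢ (A.powerset ∪ Aᶜ.powerset)).card =
      ∑ A : Finset α, (regs A).card * (A.powerset ∪ Aᶜ.powerset).card := by
    rw [card_sigma]; simp only [card_product]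
  rw [← h1]
  refine card_le_card_of_injOn (fun d => mkRel d.1 d.2.1.1 d.2.1.2 d.2.2) ?_ ?_
  · rintro ⟨A, ⟨O, E⟩, S⟩ hd
    simp only [regs, mem_coe, mem_sigma, mem_univ, mem_product, mem_filter, mem_powerset,
      mem_union, true_and] at hd
    simp only [idemAll, coe_filter, mem_univ, true_and, Set.mem_ofPred_eq]
    exact idem_mkRel hd.1.1.1 hd.2
  · rintro ⟨A, ⟨O, E⟩, S⟩ hd ⟨A', ⟨O', E'⟩, S'⟩ hd' hEq
    simp only [regs, mem_coe, mem_sigma, mem_univ, mem_product, mem_filter, mem_powerset,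
      mem_union, true_and] at hd hd'
    simp only at hEq
    have hlt : ∀ x y, ltD A O E x y ↔ ltD A' O' E' x y := by
      intro x y
      rw [← lt_mkRel (S := S) hd.1.1.1, ← lt_mkRel (S := S') hd'.1.1.1, hEq]
    have hA : A = A' := by
      ext x
      rw [← not_iff_not, notMem_iff_mid hd.1.2, notMem_iff_mid hd'.1.2]
      simp only [hlt]
    subst hA
    have hO : O = O' := by
      ext x
      rw [mem_O_iff hd.1.1.1 hd.1.2, mem_O_iff hd'.1.1.1 hd'.1.2]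
      simp only [hlt]
    subst hO
    have hE : E = E' := by
      ext ⟨a, b⟩
      rw [mem_E_iff hd.1.1.1 hd.1.1.2, mem_E_iff hd'.1.1.1 hd'.1.1.2]
      simp only [hlt]
    subst hE
    have hS : S = S' := by
      ext x
      have := congrFun (congrFun hEq x) x
      simp only [mkRel, ltD_irrefl hd.1.1.1, true_and, false_or, eq_iff_iff] at this
      tauto
    subst hS
    rfl

lemma card_avoid {β : Type} [DecidableEq β] (P Z : Finset β) (hZ : Z ⊆ P) :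
    ((P.powerset.filter fun E => Disjoint E Z).card : ℝ) = 2 ^ P.card * (1 / 2) ^ Z.card := by
  have h1 : (P.powerset.filter fun E => Disjoint E Z) = (P \ Z).powerset := by
    ext E
    simp only [mem_filter, mem_powerset, subset_sdiff]
  rw [h1, card_powerset, card_sdiff_of_subset hZ]
  have h2 := card_le_card hZ
  obtain ⟨m, hm⟩ := Nat.exists_eq_add_of_le h2
  rw [hm, Nat.add_sub_cancel_left]
  push_cast
  rw [pow_add, one_div, inv_pow]
  field_simp

lemma card_avoid2 {β : Type} [DecidableEq β] (A : Finset α) (P : Finset β) (Z : Finset α → Finset β)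
    (hZ : ∀ O ⊆ A, Z O ⊆ P) :
    (((A.powerset ×ˢ P.powerset).filter fun p => Disjoint p.2 (Z p.1)).card : ℝ) =
      2 ^ P.card * ∑ O ∈ A.powerset, (1 / 2) ^ (Z O).card := by
  rw [card_eq_sum_ones, sum_filter, sum_product, mul_sum]
  push_cast
  refine sum_congr rfl fun O hO => ?_
  rw [← card_avoid P (Z O) (hZ O (mem_powerset.1 hO)), card_eq_sum_ones, sum_filter]
  push_cast
  rfl

lemma card_regs_ge (A : Finset α) :
    (2 : ℝ) ^ A.card * 2 ^ (A.card * Aᶜ.card) - 2 ^ (A.card * Aᶜ.card) *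
      (2 * Aᶜ.card * (3 / 2) ^ A.card + A.card * (2 ^ A.card * (1 / 2) ^ Aᶜ.card)) ≤
      (regs A).card := by
  set U := A.powerset ×ˢ (A ×ˢ Aᶜ).powerset with hU
  let U1 : α → Finset (Finset α × Finset (α × α)) := fun b =>
    U.filter fun p => Disjoint p.2 (p.1 ×ˢ {b})
  let U2 : α → Finset (Finset α × Finset (α × α)) := fun b =>
    U.filter fun p => Disjoint p.2 ((A \ p.1) ×ˢ {b})
  let U3 : α → Finset (Finset α × Finset (α × α)) := fun a =>
    U.filter fun p => Disjoint p.2 ({a} ×ˢ Aᶜ)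
  have hcov : U ⊆ regs A ∪ Aᶜ.biUnion U1 ∪ Aᶜ.biUnion U2 ∪ A.biUnion U3 := by
    intro p hp
    by_contra hno
    simp only [mem_union, not_or, mem_biUnion, regs, mem_filter, ← hU, hp, true_and, U1, U2, U3,
      mem_compl, not_exists, not_and, not_disjoint_iff] at hno
    obtain ⟨⟨⟨h0, h1⟩, h2⟩, h3⟩ := hno
    refine h0 ⟨fun b hb => ?_, fun b hb => ?_, fun a ha => ?_⟩
    · obtain ⟨⟨x, y⟩, k1, k2⟩ := h1 b hb
      simp only [mem_product, mem_singleton] at k2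
      obtain ⟨k2, rfl⟩ := k2
      exact ⟨x, k2, k1⟩
    · obtain ⟨⟨x, y⟩, k1, k2⟩ := h2 b hb
      simp only [mem_product, mem_singleton, mem_sdiff] at k2
      obtain ⟨k2, rfl⟩ := k2
      exact ⟨x, k2.1, k2.2, k1⟩
    · obtain ⟨⟨x, y⟩, k1, k2⟩ := h3 a ha
      simp only [mem_product, mem_singleton, mem_compl] at k2
      obtain ⟨rfl, k2⟩ := k2
      exact ⟨y, k2, k1⟩
  have hc : U.card ≤ (regs A).card + ∑ b ∈ Aᶜ, (U1 b).card + ∑ b ∈ Aᶜ, (U2 b).card +
      ∑ a ∈ A, (U3 a).card := by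
    refine (card_le_card hcov).trans ((card_union_le _ _).trans ?_)
    gcongr
    · refine (card_union_le _ _).trans ?_
      gcongr
      · refine (card_union_le _ _).trans ?_
        gcongr
        exact card_biUnion_le
      · exact card_biUnion_le
    · exact card_biUnion_le
  have hUc : (U.card : ℝ) = 2 ^ A.card * 2 ^ (A.card * Aᶜ.card) := by
    rw [hU, card_product, card_powerset, card_powerset, card_product]; push_cast; rfl
  have e1 : ∀ b ∈ Aᶜ, ((U1 b).card : ℝ) = 2 ^ (A.card * Aᶜ.card) * (3 / 2) ^ A.card := by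
    intro b hb
    have := card_avoid2 A (A ×ˢ Aᶜ) (fun O => O ×ˢ {b})
      (fun O hO => product_subset_product hO (by simpa using hb))
    simp only [U1, hU]
    rw [this, card_product]
    congr 1
    have h2 := Finset.prod_one_add (s := A) (f := fun _ => (1 / 2 : ℝ))
    simp only [prod_const] at h2
    simp only [card_product, card_singleton, mul_one]
    rw [← h2]; norm_num
  have e2 : ∀ b ∈ Aᶜ, ((U2 b).card : ℝ) = 2 ^ (A.card * Aᶜ.card) * (3 / 2) ^ A.card := by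
    intro b hb
    have := card_avoid2 A (A ×ˢ Aᶜ) (fun O => (A \ O) ×ˢ {b})
      (fun O hO => product_subset_product sdiff_subset (by simpa using hb))
    simp only [U2, hU]
    rw [this, card_product]
    congr 1
    have h2 := Finset.prod_add (fun _ : α => (1 : ℝ)) (fun _ => (1 / 2 : ℝ)) A
    simp only [prod_const, one_pow, one_mul] at h2
    simp only [card_product, card_singleton, mul_one]
    rw [← h2]; norm_num
  have e3 : ∀ a ∈ A, ((U3 a).card : ℝ) =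
      2 ^ (A.card * Aᶜ.card) * (2 ^ A.card * (1 / 2) ^ Aᶜ.card) := by
    intro a ha
    have := card_avoid2 A (A ×ˢ Aᶜ) (fun _ => {a} ×ˢ Aᶜ)
      (fun O hO => product_subset_product (by simpa using ha) subset_rfl)
    simp only [U3, hU]
    rw [this, card_product]
    congr 1
    simp
  have hc' : (U.card : ℝ) ≤ (regs A).card + ∑ b ∈ Aᶜ, ((U1 b).card : ℝ) +
      ∑ b ∈ Aᶜ, ((U2 b).card : ℝ) + ∑ a ∈ A, ((U3 a).card : ℝ) := by exact_mod_cast hc
  rw [sum_congr rfl e1, sum_congr rfl e2, sum_congr rfl e3, hUc] at hc'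
  simp only [sum_const, nsmul_eq_mul] at hc'
  linarith

lemma card_Ss_ge (A : Finset α) :
    (2 : ℝ) ^ A.card + 2 ^ Aᶜ.card - 1 ≤ (A.powerset ∪ Aᶜ.powerset).card := by
  have h1 := card_union_add_card_inter A.powerset Aᶜ.powerset
  have h2 : (A.powerset ∩ Aᶜ.powerset).card ≤ 1 := by
    rw [card_le_one_iff_subset_singleton]
    refine ⟨∅, fun S hS => ?_⟩
    simp only [mem_inter, mem_powerset] at hS
    rw [mem_singleton]
    by_contra hne
    obtain ⟨x, hx⟩ := nonempty_iff_ne_empty.2 hne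
    exact mem_compl.1 (hS.2 hx) (hS.1 hx)
  rw [card_powerset, card_powerset] at h1
  have h3 : 2 ^ A.card + 2 ^ Aᶜ.card ≤ (A.powerset ∪ Aᶜ.powerset).card + 1 := by omega
  have h4 : ((2 ^ A.card + 2 ^ Aᶜ.card : ℕ) : ℝ) ≤ ((A.powerset ∪ Aᶜ.powerset).card + 1 : ℕ) := by
    exact_mod_cast h3
  push_cast at h4
  linarith

/-- main term -/
def fT (a b : ℕ) : ℝ := 2 ^ a * 2 ^ (a * b) * (2 ^ a + 2 ^ b)

lemma err_le (a b : ℕ) : (2 : ℝ) ^ a * 2 ^ (a * b) + 2 ^ (a * b) *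
    (2 * b * (3 / 2) ^ a + a * (2 ^ a * (1 / 2) ^ b)) * (2 ^ a + 2 ^ b) ≤
    (4 * (a + b) + 1) * (2 : ℝ) ^ (((a : ℝ) + b + 8 / 5) ^ 2 / 4 + 2) := by
  set M := (2 : ℝ) ^ (((a : ℝ) + b + 8 / 5) ^ 2 / 4 + 2) with hM
  have ha : (0 : ℝ) ≤ a := Nat.cast_nonneg a
  have hb : (0 : ℝ) ≤ b := Nat.cast_nonneg b
  have key : ∀ x : ℝ, x ≤ ((a : ℝ) + b + 8 / 5) ^ 2 / 4 + 2 → (2 : ℝ) ^ x ≤ M := fun x hx =>
    Real.rpow_le_rpow_of_exponent_le (by norm_num) hx
  have p1 : (2 : ℝ) ^ a = (2 : ℝ) ^ (a : ℝ) := (Real.rpow_natCast _ _).symm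
  have p2 : (2 : ℝ) ^ b = (2 : ℝ) ^ (b : ℝ) := (Real.rpow_natCast _ _).symm
  have p3 : (2 : ℝ) ^ (a * b) = (2 : ℝ) ^ ((a : ℝ) * b) := by
    rw [← Real.rpow_natCast]; push_cast; rfl
  have p4 : (1 / 2 : ℝ) ^ b = (2 : ℝ) ^ (-(b : ℝ)) := by
    rw [Real.rpow_neg (by norm_num), Real.rpow_natCast, one_div, inv_pow]
  have p5 : (3 / 2 : ℝ) ^ a ≤ (2 : ℝ) ^ (3 / 5 * (a : ℝ)) := by
    rw [Real.rpow_mul (by norm_num), Real.rpow_natCast]
    gcongr
    have : (3 / 2 : ℝ) = ((3 / 2 : ℝ) ^ (5 : ℝ)) ^ (1 / 5 : ℝ) := by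
      rw [← Real.rpow_mul (by norm_num)]; norm_num
    rw [this, show (3 / 5 : ℝ) = 3 * (1 / 5) by norm_num, Real.rpow_mul (by norm_num)]
    gcongr
    norm_num
  have t0 : (2 : ℝ) ^ a * 2 ^ (a * b) ≤ M := by
    rw [p1, p3, ← Real.rpow_add (by norm_num)]
    apply key; nlinarith [sq_nonneg ((a : ℝ) - b - 1)]
  have t1 : (2 : ℝ) ^ (a * b) * (3 / 2) ^ a * 2 ^ a ≤ M := by
    calc _ ≤ (2 : ℝ) ^ (a * b) * (2 : ℝ) ^ (3 / 5 * (a : ℝ)) * 2 ^ a := by gcongr
      _ ≤ M := by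
        rw [p1, p3, ← Real.rpow_add (by norm_num), ← Real.rpow_add (by norm_num)]
        apply key; nlinarith [sq_nonneg ((a : ℝ) - b - 8 / 5)]
  have t2 : (2 : ℝ) ^ (a * b) * (3 / 2) ^ a * 2 ^ b ≤ M := by
    calc _ ≤ (2 : ℝ) ^ (a * b) * (2 : ℝ) ^ (3 / 5 * (a : ℝ)) * 2 ^ b := by gcongr
      _ ≤ M := by
        rw [p2, p3, ← Real.rpow_add (by norm_num), ← Real.rpow_add (by norm_num)]
        apply key; nlinarith [sq_nonneg ((a : ℝ) - b + 2 / 5)]
  have t3 : (2 : ℝ) ^ (a * b) * (2 ^ a * (1 / 2) ^ b) * 2 ^ a ≤ M := by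
    rw [p1, p3, p4, ← Real.rpow_add (by norm_num), ← Real.rpow_add (by norm_num),
      ← Real.rpow_add (by norm_num)]
    apply key; nlinarith [sq_nonneg ((a : ℝ) - b - 3)]
  have t4 : (2 : ℝ) ^ (a * b) * (2 ^ a * (1 / 2) ^ b) * 2 ^ b ≤ M := by
    rw [p1, p2, p3, p4, ← Real.rpow_add (by norm_num), ← Real.rpow_add (by norm_num),
      ← Real.rpow_add (by norm_num)]
    apply key; nlinarith [sq_nonneg ((a : ℝ) - b - 1)]
  have hM0 : 0 ≤ M := by positivity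
  nlinarith [mul_le_mul_of_nonneg_left t1 hb, mul_le_mul_of_nonneg_left t2 hb,
    mul_le_mul_of_nonneg_left t3 ha, mul_le_mul_of_nonneg_left t4 ha, mul_nonneg ha hM0]

lemma lower_bound : ∑ A : Finset α, fT A.card Aᶜ.card -
    2 ^ Fintype.card α * ((4 * Fintype.card α + 1) *
      (2 : ℝ) ^ (((Fintype.card α : ℝ) + 8 / 5) ^ 2 / 4 + 2)) ≤ (idemAll α).card := by
  have h1 : ((∑ A : Finset α, (regs A).card * (A.powerset ∪ Aᶜ.powerset).card : ℕ) : ℝ) ≤
      (idemAll α).card := by exact_mod_cast sum_regs_le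
  refine le_trans ?_ h1
  push_cast
  have h2 : (2 : ℝ) ^ Fintype.card α * ((4 * Fintype.card α + 1) *
      (2 : ℝ) ^ (((Fintype.card α : ℝ) + 8 / 5) ^ 2 / 4 + 2)) =
      ∑ _A : Finset α, ((4 * Fintype.card α + 1) *
      (2 : ℝ) ^ (((Fintype.card α : ℝ) + 8 / 5) ^ 2 / 4 + 2)) := by
    simp
  rw [h2, ← sum_sub_distrib]
  refine sum_le_sum fun A _ => ?_
  have k1 := card_regs_ge A
  have k2 := card_Ss_ge A
  have k3 := err_le A.card Aᶜ.card
  have k4 : (A.card : ℝ) + Aᶜ.card = Fintype.card α := by exact_mod_cast card_add_card_compl A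
  rw [k4] at k3
  have k5 : (0 : ℝ) ≤ 2 ^ A.card + 2 ^ Aᶜ.card - 1 := by
    have : (1 : ℝ) ≤ 2 ^ A.card := one_le_pow₀ (by norm_num)
    have : (0 : ℝ) ≤ 2 ^ Aᶜ.card := by positivity
    linarith
  have k6 := mul_le_mul_of_nonneg_right k1 k5
  have k7 := mul_le_mul_of_nonneg_left k2 (Nat.cast_nonneg (α := ℝ) (regs A).card)
  have k8 : (0 : ℝ) ≤ 2 ^ (A.card * Aᶜ.card) *
      (2 * Aᶜ.card * (3 / 2) ^ A.card + A.card * (2 ^ A.card * (1 / 2) ^ Aᶜ.card)) := by positivity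
  unfold fT
  nlinarith

end Pool.Agent.MP_c00610_co
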