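import Pool.Agent.MP_c00610_co.Basic

set_option linter.unusedSectionVars false

open Finset
open scoped Classical

noncomputable section
namespace Pool.Agent.MP_c00610_co

variable {α : Type} [Fintype α]

/-- admissible samples of upper and lower covers of `v` -/
structure Adm (R : α → α → Prop) (q : ℕ) (v : α) (Qu Qd : Finset α) : Prop where
  su : Qu ⊆ upN R v
  sd : Qd ⊆ dnN R v
  cu : Qu.card ≤ q + 1
  cd : Qd.card ≤ q + 1
  fu : Qu.card ≤ q → Qu = upN R v
  fd : Qd.card ≤ q → Qd = dnN R v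

def candU (R : α → α → Prop) (q : ℕ) (K Qu Qd : Finset α) : Finset α :=
  univ.filter fun z => q < Qu.card ∧ z ∉ K ∧
    (∀ u ∈ Qu, u ∉ K → z ≠ u ∧ ¬ lt R z u ∧ ¬ lt R u z) ∧ (∀ d ∈ Qd, d ∉ K → lt R d z)

def candD (R : α → α → Prop) (q : ℕ) (K Qu Qd : Finset α) : Finset α :=
  univ.filter fun z => q < Qd.card ∧ z ∉ K ∧
    (∀ d ∈ Qd, d ∉ K → z ≠ d ∧ ¬ lt R z d ∧ ¬ lt R d z) ∧ (∀ u ∈ Qu, u ∉ K → lt R z u)

def cand (R : α → α → Prop) (q : ℕ) (K Qu Qd : Finset α) : Finset α :=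
  candU R q K Qu Qd ∪ candD R q K Qu Qd

def Hom (R : α → α → Prop) (Q : Finset α) : Finset α :=
  univ.filter fun z => z ∉ Q ∧ ((∀ u ∈ Q, lt R z u) ∨ (∀ u ∈ Q, lt R u z) ∨
    (∀ u ∈ Q, ¬ lt R z u ∧ ¬ lt R u z))

def Antichain (R : α → α → Prop) (Q : Finset α) : Prop := ∀ a ∈ Q, ∀ b ∈ Q, ¬ lt R a b

def st4 (R : α → α → Prop) : Finset α :=
  univ.filter fun z => ∃ a b c, lt R z a ∧ lt R a b ∧ lt R b c

def en4 (R : α → α → Prop) : Finset α :=
  univ.filter fun z => ∃ a b c, lt R a b ∧ lt R b c ∧ lt R c z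

def Wset (R : α → α → Prop) : Finset (Finset α) :=
  ({∅, irr R, st4 R, en4 R} ∪ univ.image (above R) ∪ univ.image (below R)) ∪
    univ.image (fun p : α × α => above R p.1 ∩ below R p.2)

lemma mem_candU {R : α → α → Prop} {q : ℕ} {K Qu Qd : Finset α} {z : α} :
    z ∈ candU R q K Qu Qd ↔ q < Qu.card ∧ z ∉ K ∧
    (∀ u ∈ Qu, u ∉ K → z ≠ u ∧ ¬ lt R z u ∧ ¬ lt R u z) ∧ (∀ d ∈ Qd, d ∉ K → lt R d z) := by
  simp only [candU, mem_filter, mem_univ, true_and]

lemma mem_candD {R : α → α → Prop} {q : ℕ} {K Qu Qd : Finset α} {z : α} :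
    z ∈ candD R q K Qu Qd ↔ q < Qd.card ∧ z ∉ K ∧
    (∀ d ∈ Qd, d ∉ K → z ≠ d ∧ ¬ lt R z d ∧ ¬ lt R d z) ∧ (∀ u ∈ Qu, u ∉ K → lt R z u) := by
  simp only [candD, mem_filter, mem_univ, true_and]

lemma mem_cand {R : α → α → Prop} {q : ℕ} {K Qu Qd : Finset α} {z : α} :
    z ∈ cand R q K Qu Qd ↔ z ∈ candU R q K Qu Qd ∨ z ∈ candD R q K Qu Qd := by
  simp only [cand, mem_union]

lemma mem_Hom {R : α → α → Prop} {Q : Finset α} {z : α} :
    z ∈ Hom R Q ↔ z ∉ Q ∧ ((∀ u ∈ Q, lt R z u) ∨ (∀ u ∈ Q, lt R u z) ∨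
    (∀ u ∈ Q, ¬ lt R z u ∧ ¬ lt R u z)) := by
  simp only [Hom, mem_filter, mem_univ, true_and]

lemma mem_st4 {R : α → α → Prop} {z : α} :
    z ∈ st4 R ↔ ∃ a b c, lt R z a ∧ lt R a b ∧ lt R b c := by
  simp only [st4, mem_filter, mem_univ, true_and]

lemma mem_en4 {R : α → α → Prop} {z : α} :
    z ∈ en4 R ↔ ∃ a b c, lt R a b ∧ lt R b c ∧ lt R c z := by
  simp only [en4, mem_filter, mem_univ, true_and]

lemma card_Wset_le (R : α → α → Prop) :
    (Wset R).card ≤ (Fintype.card α + 2) ^ 2 := by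
  unfold Wset
  have h1 : ({∅, irr R, st4 R, en4 R} : Finset (Finset α)).card ≤ 4 := card_le_four
  have h2 : (univ.image (above R)).card ≤ Fintype.card α := card_image_le.trans (by simp)
  have h3 : (univ.image (below R)).card ≤ Fintype.card α := card_image_le.trans (by simp)
  have h4 : (univ.image (fun p : α × α => above R p.1 ∩ below R p.2)).card ≤
      Fintype.card α * Fintype.card α := card_image_le.trans (by simp)
  have h5 := card_union_le (({∅, irr R, st4 R, en4 R} ∪ univ.image (above R) ∪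
    univ.image (below R))) (univ.image (fun p : α × α => above R p.1 ∩ below R p.2))
  have h6 := card_union_le (({∅, irr R, st4 R, en4 R} ∪ univ.image (above R)))
    (univ.image (below R))
  have h7 := card_union_le ({∅, irr R, st4 R, en4 R} : Finset (Finset α)) (univ.image (above R))
  nlinarith

lemma candU_res (R : α → α → Prop) (q : ℕ) (K Qu Qd : Finset α) :
    candU (res K R) q K Qu Qd = candU R q K Qu Qd := by
  ext z
  simp only [mem_candU, lt_res]
  constructor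
  · rintro ⟨h1, h2, h3, h4⟩
    refine ⟨h1, h2, fun u hu huK => ?_, fun d hd hdK => (h4 d hd hdK).1⟩
    have := h3 u hu huK
    tauto
  · rintro ⟨h1, h2, h3, h4⟩
    refine ⟨h1, h2, fun u hu huK => ?_, fun d hd hdK => ⟨h4 d hd hdK, hdK, h2⟩⟩
    have := h3 u hu huK
    tauto

lemma candD_res (R : α → α → Prop) (q : ℕ) (K Qu Qd : Finset α) :
    candD (res K R) q K Qu Qd = candD R q K Qu Qd := by
  ext z
  simp only [mem_candD, lt_res]
  constructor
  · rintro ⟨h1, h2, h3, h4⟩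
    refine ⟨h1, h2, fun u hu huK => ?_, fun d hd hdK => (h4 d hd hdK).1⟩
    have := h3 u hu huK
    tauto
  · rintro ⟨h1, h2, h3, h4⟩
    refine ⟨h1, h2, fun u hu huK => ?_, fun d hd hdK => ⟨h4 d hd hdK, h2, hdK⟩⟩
    have := h3 u hu huK
    tauto

lemma cand_res (R : α → α → Prop) (q : ℕ) (K Qu Qd : Finset α) :
    cand (res K R) q K Qu Qd = cand R q K Qu Qd := by
  unfold cand; rw [candU_res, candD_res]

lemma Adm.up_mem {R : α → α → Prop} {q : ℕ} {v : α} {Qu Qd : Finset α} (h : Adm R q v Qu Qd)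
    (hR : PO R) (K : Finset α) {z : α} (hz : cov R v z) (hQ : z ∉ Qu) (hK : z ∉ K) :
    z ∈ candU R q K Qu Qd := by
  rw [mem_candU]
  refine ⟨?_, hK, fun u hu _ => ⟨?_, ?_, ?_⟩, fun d hd _ => ?_⟩
  · by_contra hq
    have := h.fu (by omega)
    rw [this] at hQ
    exact hQ (mem_upN.2 hz)
  · rintro rfl; exact hQ hu
  · exact (mem_upN.1 (h.su hu)).2 z hz.1
  · exact hz.2 u (mem_upN.1 (h.su hu)).1
  · exact hR.lt_trans (mem_dnN.1 (h.sd hd)).1 hz.1

lemma Adm.dn_mem {R : α → α → Prop} {q : ℕ} {v : α} {Qu Qd : Finset α} (h : Adm R q v Qu Qd)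
    (hR : PO R) (K : Finset α) {z : α} (hz : cov R z v) (hQ : z ∉ Qd) (hK : z ∉ K) :
    z ∈ candD R q K Qu Qd := by
  rw [mem_candD]
  refine ⟨?_, hK, fun u hu _ => ⟨?_, ?_, ?_⟩, fun d hd _ => ?_⟩
  · by_contra hq
    have := h.fd (by omega)
    rw [this] at hQ
    exact hQ (mem_dnN.2 hz)
  · rintro rfl; exact hQ hu
  · exact fun hh => hz.2 u hh (mem_dnN.1 (h.sd hu)).1
  · exact fun hh => (mem_dnN.1 (h.sd hu)).2 z hh hz.1
  · exact hR.lt_trans hz.1 (mem_upN.1 (h.su hd)).1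

lemma antichain_upN (R : α → α → Prop) (v : α) : Antichain R (upN R v) :=
  fun a ha _ hb hab => (mem_upN.1 hb).2 a (mem_upN.1 ha).1 hab

lemma antichain_dnN (R : α → α → Prop) (v : α) : Antichain R (dnN R v) :=
  fun _ ha b hb hab => (mem_dnN.1 ha).2 b hab (mem_dnN.1 hb).1

lemma exists_adm (R : α → α → Prop) (q : ℕ) (v : α) (A B : Finset α) (hA : A ⊆ upN R v)
    (hB : B ⊆ dnN R v) (hA' : A.card ≤ q + 1) (hB' : B.card ≤ q + 1) :
    ∃ Qu Qd, Adm R q v Qu Qd ∧ A ⊆ Qu ∧ B ⊆ Qd := by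
  obtain ⟨Qu, h1, h2, h3⟩ := exists_subsuperset_card_eq hA
    (n := min (q + 1) (upN R v).card) (le_min hA' (card_le_card hA)) (min_le_right _ _)
  obtain ⟨Qd, h4, h5, h6⟩ := exists_subsuperset_card_eq hB
    (n := min (q + 1) (dnN R v).card) (le_min hB' (card_le_card hB)) (min_le_right _ _)
  refine ⟨Qu, Qd, ⟨h2, h5, by omega, by omega, fun h => ?_, fun h => ?_⟩, h1, h4⟩
  · exact eq_of_subset_of_card_le h2 (by omega)
  · exact eq_of_subset_of_card_le h5 (by omega)

/-- size bound for the candidate set -/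
lemma card_cand_le {R : α → α → Prop} {q e : ℕ} {v : α} {Qu Qd : Finset α}
    (hom : ∀ Q, Antichain R Q → Q.card = q → 2 * (Hom R Q).card ≤ Fintype.card α + 2 * e)
    (h : Adm R q v Qu Qd) (K : Finset α) (y : α) (hK : K ⊆ {v, y}) :
    2 * (cand R q K Qu Qd).card ≤ Fintype.card α + 2 * e := by
  have key : ∀ Q : Finset α, v ∉ Q → q < Q.card → ∃ Q' ⊆ Q, Q'.card = q ∧ ∀ u ∈ Q', u ∉ K := by
    intro Q hv hq
    have h1 : q ≤ (Q.erase y).card := by
      have := pred_card_le_card_erase (s := Q) (a := y)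
      omega
    obtain ⟨Q', h2, h3⟩ := exists_subset_card_eq h1
    refine ⟨Q', h2.trans (erase_subset _ _), h3, fun u hu huK => ?_⟩
    have h4 := hK huK
    have h5 := h2 hu
    simp only [mem_insert, mem_singleton, mem_erase] at h4 h5
    rcases h4 with rfl | rfl
    · exact hv h5.2
    · exact h5.1 rfl
  by_cases hu : q < Qu.card
  · obtain ⟨Q', h1, h2, h3⟩ := key Qu (fun hv => lt_irrefl' (mem_upN.1 (h.su hv)).1) hu
    have hA : Antichain R Q' := fun a ha b hb =>
      antichain_upN R v a (h.su (h1 ha)) b (h.su (h1 hb))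
    refine le_trans (Nat.mul_le_mul_left 2 (card_le_card fun z hz => ?_)) (hom Q' hA h2)
    rw [mem_Hom]
    rcases mem_cand.1 hz with hz | hz
    · rw [mem_candU] at hz
      refine ⟨fun hzQ => (hz.2.2.1 z (h1 hzQ) (h3 z hzQ)).1 rfl, Or.inr (Or.inr fun u hu => ?_)⟩
      exact (hz.2.2.1 u (h1 hu) (h3 u hu)).2
    · rw [mem_candD] at hz
      refine ⟨fun hzQ => lt_irrefl' (hz.2.2.2 z (h1 hzQ) (h3 z hzQ)), Or.inl fun u hu => ?_⟩
      exact hz.2.2.2 u (h1 hu) (h3 u hu)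
  by_cases hd : q < Qd.card
  · obtain ⟨Q', h1, h2, h3⟩ := key Qd (fun hv => lt_irrefl' (mem_dnN.1 (h.sd hv)).1) hd
    have hA : Antichain R Q' := fun a ha b hb =>
      antichain_dnN R v a (h.sd (h1 ha)) b (h.sd (h1 hb))
    refine le_trans (Nat.mul_le_mul_left 2 (card_le_card fun z hz => ?_)) (hom Q' hA h2)
    rw [mem_Hom]
    rcases mem_cand.1 hz with hz | hz
    · rw [mem_candU] at hz
      exact absurd hz.1 hu
    · rw [mem_candD] at hz
      refine ⟨fun hzQ => (hz.2.2.1 z (h1 hzQ) (h3 z hzQ)).1 rfl, Or.inr (Or.inr fun u hu => ?_)⟩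
      exact (hz.2.2.1 u (h1 hu) (h3 u hu)).2
  · have : cand R q K Qu Qd = ∅ := by
      ext z
      simp only [mem_cand, mem_candU, mem_candD, notMem_empty, iff_false]
      tauto
    rw [this]; simp

/-- the hypotheses satisfied by a relation in none of the bad classes -/
structure Nice (R : α → α → Prop) (q e : ℕ) : Prop where
  po : PO R
  idem : Idem R
  hom : ∀ Q, Antichain R Q → Q.card = q → 2 * (Hom R Q).card ≤ Fintype.card α + 2 * e
  big : ∀ v Qu Qd, Adm R q v Qu Qd → Idem (res {v} R) → ∀ W ∈ Wset (res {v} R),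
    (∀ z ∈ W, ¬ adj R v z) → Fintype.card α ≤ 2 * (cand R q {v} Qu Qd \ W).card + 2 * e
  pair : ∀ x y, x ≠ y → ∀ Qu Qd Pu Pd, Adm R q x Qu Qd → Adm R q y Pu Pd →
    Idem (res {x, y} R) → (nbr R x ∩ nbr R y).card ≤ 2 →
    (cand R q {x} Qu Qd ∩ cand R q {y} Pu Pd).card ≤ 10 * e
  irrBig : 16 * e < (irr R).card
  nBig : 250 * e + 10 < Fintype.card α

lemma card_le_cover2 {A B C : Finset α} (h : ∀ z ∈ A, z ∈ B ∨ z ∈ C) :
    A.card ≤ B.card + C.card :=
  (card_le_card (fun z hz => mem_union.2 (h z hz))).trans (card_union_le _ _)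

lemma card_le_cover3 {A B C D : Finset α} (h : ∀ z ∈ A, z ∈ B ∨ z ∈ C ∨ z ∈ D) :
    A.card ≤ B.card + C.card + D.card := by
  have h1 := card_le_cover2 (A := A) (B := B) (C := C ∪ D) (fun z hz => by
    rcases h z hz with h | h
    · exact Or.inl h
    · exact Or.inr (mem_union.2 h))
  have h2 := card_union_le C D
  omega

lemma card_compl_union (A B : Finset α) :
    (A ∪ B)ᶜ.card + A.card + B.card = Fintype.card α + (A ∩ B).card := by
  have h1 := card_union_add_card_inter A B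
  have h2 := card_add_card_compl (A ∪ B)
  omega

namespace Nice

variable {R : α → α → Prop} {q e : ℕ}

lemma le_cand (h : Nice R q e) {v : α} {Qu Qd : Finset α} (ha : Adm R q v Qu Qd) :
    2 * (cand R q {v} Qu Qd).card ≤ Fintype.card α + 2 * e :=
  card_cand_le h.hom ha {v} v (by simp)

lemma inter_small (h : Nice R q e) {v : α} {Qu Qd : Finset α} (ha : Adm R q v Qu Qd)
    (hI : Idem (res {v} R)) {W : Finset α} (hW : W ∈ Wset (res {v} R))
    (hn : ∀ z ∈ W, ¬ adj R v z) : (cand R q {v} Qu Qd ∩ W).card ≤ 2 * e := by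
  have h1 := h.big v Qu Qd ha hI W hW hn
  have h2 := h.le_cand ha
  have h3 := card_sdiff_add_card_inter (cand R q {v} Qu Qd) W
  omega

lemma ge_cand' (h : Nice R q e) {v : α} {Qu Qd : Finset α} (ha : Adm R q v Qu Qd)
    (hI : Idem (res {v} R)) : Fintype.card α ≤ 2 * (cand R q {v} Qu Qd).card + 2 * e := by
  have := h.big v Qu Qd ha hI ∅ (by simp [Wset]) (by simp)
  simpa using this

lemma irr_common (h : Nice R q e) {x y : α} (hx : ¬ R x x) (hy : ¬ R y y) (hxy : x ≠ y) :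
    3 ≤ (nbr R x ∩ nbr R y).card := by
  by_contra hlt
  have key : ∀ v, ¬ R v v → ∀ Qu Qd, Adm R q v Qu Qd →
      (cand R q {v} Qu Qd ∩ irr R).card ≤ 2 * e ∧
      Fintype.card α ≤ 2 * (cand R q {v} Qu Qd).card + 2 * e := by
    intro v hv Qu Qd ha
    have hI : Idem (res {v} R) := idem_res_irr h.po h.idem _ (by simpa using hv)
    refine ⟨le_trans (card_le_card ?_) (h.inter_small ha hI (W := irr (res {v} R))
      (by simp [Wset]) ?_), h.ge_cand' ha hI⟩
    · intro z hz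
      simp only [mem_inter, mem_irr, res] at hz ⊢
      tauto
    · intro z hz
      simp only [mem_irr, res, mem_singleton] at hz
      by_cases hzv : z = v
      · subst hzv; exact adj_irrefl
      · exact h.idem.not_adj_irr hv (by tauto)
  obtain ⟨Qu, Qd, ha, -⟩ := exists_adm R q x ∅ ∅ (by simp) (by simp) (by simp) (by simp)
  obtain ⟨Pu, Pd, hb, -⟩ := exists_adm R q y ∅ ∅ (by simp) (by simp) (by simp) (by simp)
  have hI : Idem (res {x, y} R) := idem_res_irr h.po h.idem _ (by simp [hx, hy])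
  have h1 := h.pair x y hxy Qu Qd Pu Pd ha hb hI (by omega)
  obtain ⟨h2, h3⟩ := key x hx Qu Qd ha
  obtain ⟨h4, h5⟩ := key y hy Pu Pd hb
  have h6 := card_compl_union (cand R q {x} Qu Qd) (cand R q {y} Pu Pd)
  have h7 := card_le_cover3 (A := irr R) (B := cand R q {x} Qu Qd ∩ irr R)
    (C := cand R q {y} Pu Pd ∩ irr R) (D := (cand R q {x} Qu Qd ∪ cand R q {y} Pu Pd)ᶜ)
    (fun z hz => by simp only [mem_inter, mem_compl, mem_union]; tauto)
  have h8 := h.irrBig
  omega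

lemma idem_res_small (h : Nice R q e) (K : Finset α) (hK : K.card ≤ 2) : Idem (res K R) := by
  refine idem_res h.po K fun x y _ _ hx hy hxy => ?_
  have h1 := h.irr_common hx hy hxy.2
  obtain ⟨z, hz, hzK⟩ := exists_mem_notMem_of_card_lt_card
    (s := K) (t := nbr R x ∩ nbr R y) (by omega)
  simp only [mem_inter, mem_nbr] at hz
  exact ⟨z, hzK, h.po.common_between hxy hz.1 hz.2⟩

lemma ge_cand (h : Nice R q e) {v : α} {Qu Qd : Finset α} (ha : Adm R q v Qu Qd) :
    Fintype.card α ≤ 2 * (cand R q {v} Qu Qd).card + 2 * e :=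
  h.ge_cand' ha (h.idem_res_small _ (by simp))

lemma pair' (h : Nice R q e) {x y : α} (hxy : x ≠ y) {Qu Qd Pu Pd : Finset α}
    (ha : Adm R q x Qu Qd) (hb : Adm R q y Pu Pd) (hc : (nbr R x ∩ nbr R y).card ≤ 2) :
    (cand R q {x} Qu Qd ∩ cand R q {y} Pu Pd).card ≤ 10 * e :=
  h.pair x y hxy Qu Qd Pu Pd ha hb (h.idem_res_small _ card_le_two) hc

lemma pair_adj (h : Nice R q e) {x y : α} (hxy : adj R x y) {Qu Qd Pu Pd : Finset α}
    (ha : Adm R q x Qu Qd) (hb : Adm R q y Pu Pd) :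
    (cand R q {x} Qu Qd ∩ cand R q {y} Pu Pd).card ≤ 10 * e := by
  refine h.pair' (by rintro rfl; exact adj_irrefl hxy) ha hb ?_
  have : nbr R x ∩ nbr R y = ∅ := by
    ext z
    simp only [mem_inter, mem_nbr, notMem_empty, iff_false]
    exact fun hz => h.po.no_triangle hxy hz.1 hz.2
  rw [this]; simp

lemma exists_adj (h : Nice R q e) (v : α) : ∃ z, adj R v z := by
  obtain ⟨Qu, Qd, ha, -⟩ := exists_adm R q v ∅ ∅ (by simp) (by simp) (by simp) (by simp)
  have h1 := h.ge_cand ha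
  have h2 := h.nBig
  obtain ⟨z, hz⟩ : (cand R q {v} Qu Qd).Nonempty := card_pos.1 (by omega)
  rcases mem_cand.1 hz with hz | hz
  · obtain ⟨u, hu⟩ : Qu.Nonempty := card_pos.1 (by have := (mem_candU.1 hz).1; omega)
    exact ⟨u, Or.inl (mem_upN.1 (ha.su hu))⟩
  · obtain ⟨u, hu⟩ : Qd.Nonempty := card_pos.1 (by have := (mem_candD.1 hz).1; omega)
    exact ⟨u, Or.inr (mem_dnN.1 (ha.sd hu))⟩

/-- the two sides -/
lemma exists_sides (h : Nice R q e) : ∃ (side : α → Bool) (X : Bool → Finset α),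
    (∀ b, X (!b) = (X b)ᶜ) ∧ (∀ b, Fintype.card α ≤ 2 * (X b).card + 2 * e) ∧
    ∀ v Qu Qd, Adm R q v Qu Qd → (X (side v) \ cand R q {v} Qu Qd).card ≤ 24 * e := by
  have hn := h.nBig
  obtain ⟨v0⟩ : Nonempty α := Fintype.card_pos_iff.1 (by omega)
  obtain ⟨Q0, P0, h0, -⟩ := exists_adm R q v0 ∅ ∅ (by simp) (by simp) (by simp) (by simp)
  set B := cand R q {v0} Q0 P0 with hB
  have hB1 : 2 * B.card ≤ Fintype.card α + 2 * e := h.le_cand h0
  have hB2 : Fintype.card α ≤ 2 * B.card + 2 * e := h.ge_cand h0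
  have hB3 := card_add_card_compl B
  refine ⟨fun v => decide (∃ z, adj R v z ∧ adj R v0 z), fun b => if b then B else Bᶜ, ?_, ?_, ?_⟩
  · intro b; cases b <;> simp
  · intro b; cases b
    · simp only [Bool.false_eq_true, if_false]; omega
    · simp only [if_true]; omega
  · intro v Qu Qd ha
    have h1 := h.le_cand ha
    have h2 := h.ge_cand ha
    by_cases hv : ∃ z, adj R v z ∧ adj R v0 z
    · simp only [hv, decide_true, if_true]
      obtain ⟨z, hz1, hz2⟩ := hv
      obtain ⟨Pu, Pd, hb, -⟩ := exists_adm R q z ∅ ∅ (by simp) (by simp) (by simp) (by simp)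
      have h3 := h.pair_adj hz1 ha hb
      have h4 := h.pair_adj hz2 h0 hb
      have h5 := h.ge_cand hb
      have h6 := card_compl_union (cand R q {v} Qu Qd) (cand R q {z} Pu Pd)
      have h7 := card_le_cover2 (A := B \ cand R q {v} Qu Qd) (B := B ∩ cand R q {z} Pu Pd)
        (C := (cand R q {v} Qu Qd ∪ cand R q {z} Pu Pd)ᶜ)
        (fun z hz => by simp only [mem_inter, mem_compl, mem_union, mem_sdiff] at hz ⊢; tauto)
      rw [← hB] at h4
      omega
    · simp only [hv, decide_false, Bool.false_eq_true, if_false]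
      have hne : v ≠ v0 := by
        rintro rfl
        obtain ⟨z, hz⟩ := h.exists_adj v
        exact hv ⟨z, hz, hz⟩
      have h3 := h.pair' hne ha h0 (by
        have : nbr R v ∩ nbr R v0 = ∅ := by
          ext z
          simp only [mem_inter, mem_nbr, notMem_empty, iff_false]
          exact fun hz => hv ⟨z, hz⟩
        rw [this]; simp)
      have h6 := card_compl_union (cand R q {v} Qu Qd) B
      have h7 : (Bᶜ \ cand R q {v} Qu Qd).card ≤ (cand R q {v} Qu Qd ∪ B)ᶜ.card :=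
        card_le_card (fun z hz => by
          simp only [mem_compl, mem_union, mem_sdiff] at hz ⊢; tauto)
      rw [← hB] at h3
      omega

end Nice

end Pool.Agent.MP_c00610_co
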