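import Pool.Agent.MP_c00610_co.Nice

set_option linter.unusedSectionVars false

open Finset
open scoped Classical

noncomputable section
namespace Pool.Agent.MP_c00610_co

variable {α : Type} [Fintype α]

/-- second-level facts -/
structure Two (R : α → α → Prop) (side : α → Bool) (X : Bool → Finset α) (e : ℕ) : Prop where
  po : PO R
  p1 : ∀ x y, adj R x y → side y = !side x
  p2 : ∀ b, X (!b) = (X b)ᶜ
  p3 : ∀ b, 122 * e + 4 < (X b).card
  p4u : ∀ v u, cov R v u → (X (side v) ∩ above R u).card ≤ 24 * e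
  p4d : ∀ d v, cov R d v → (X (side v) ∩ below R d).card ≤ 24 * e
  p5 : ∀ d v u, cov R d v → cov R v u → (X (side v) \ (above R d ∪ below R u)).card ≤ 24 * e
  p6u : ∀ v w, v ≠ w → 26 * e + 1 < (X (side v) ∩ above R w).card → ∃ z, lt R w z ∧ adj R v z
  p6d : ∀ v w, v ≠ w → 26 * e + 1 < (X (side v) ∩ below R w).card → ∃ z, lt R z w ∧ adj R v z
  p6b : ∀ v w w', v ≠ w → v ≠ w' → 26 * e + 1 < (X (side v) ∩ (above R w ∩ below R w')).card →
    ∃ z, lt R w z ∧ lt R z w' ∧ adj R v z
  p7u : ∀ v, (∀ z, ¬ lt R z v) → (∀ z ∈ st4 R, ¬ adj R v z) →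
    (X (side v) ∩ st4 R).card ≤ 26 * e + 1
  p7d : ∀ v, (∀ z, ¬ lt R v z) → (∀ z ∈ en4 R, ¬ adj R v z) →
    (X (side v) ∩ en4 R).card ≤ 26 * e + 1
  p8 : ∀ x y, ¬ R x x → ¬ R y y → side x = side y

lemma card_le_insert_of {A B : Finset α} (v : α) (h : ∀ z ∈ A, z ≠ v → z ∈ B) :
    A.card ≤ B.card + 1 := by
  refine (card_le_card (t := insert v B) fun z hz => ?_).trans (card_insert_le _ _)
  by_cases hzv : z = v
  · simp [hzv]
  · exact mem_insert_of_mem (h z hz hzv)

lemma Nice.exists_two {R : α → α → Prop} {q e : ℕ} (h : Nice R q e) :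
    ∃ side X, Two R side X e := by
  obtain ⟨side, X, hX1, hX2, hX3⟩ := h.exists_sides
  have hn := h.nBig
  have same : ∀ x y, x ≠ y → side x = side y → 3 ≤ (nbr R x ∩ nbr R y).card := by
    intro x y hxy hs
    by_contra hlt
    obtain ⟨Qu, Qd, ha, -⟩ := exists_adm R q x ∅ ∅ (by simp) (by simp) (by simp) (by simp)
    obtain ⟨Pu, Pd, hb, -⟩ := exists_adm R q y ∅ ∅ (by simp) (by simp) (by simp) (by simp)
    have h1 := h.pair' hxy ha hb (by omega)
    have h2 := hX3 x Qu Qd ha
    have h3 := hX3 y Pu Pd hb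
    rw [← hs] at h3
    have h4 := hX2 (side x)
    have h5 := card_le_cover3 (A := X (side x)) (B := X (side x) \ cand R q {x} Qu Qd)
      (C := X (side x) \ cand R q {y} Pu Pd) (D := cand R q {x} Qu Qd ∩ cand R q {y} Pu Pd)
      (fun z hz => by simp only [mem_inter, mem_sdiff]; tauto)
    omega
  have p1 : ∀ x y, adj R x y → side y = !side x := by
    intro x y hxy
    by_contra hs
    have hs' : side x = side y := by
      revert hs; cases side x <;> cases side y <;> simp
    have h1 := same x y (by rintro rfl; exact adj_irrefl hxy) hs'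
    obtain ⟨z, hz⟩ : (nbr R x ∩ nbr R y).Nonempty := card_pos.1 (by omega)
    simp only [mem_inter, mem_nbr] at hz
    exact h.po.no_triangle hxy hz.1 hz.2
  have nb : ∀ v, ∀ W ∈ Wset (res {v} R), (∀ z ∈ W, ¬ adj R v z) →
      (X (side v) ∩ W).card ≤ 26 * e := by
    intro v W hW hn
    obtain ⟨Qu, Qd, ha, -⟩ := exists_adm R q v ∅ ∅ (by simp) (by simp) (by simp) (by simp)
    have h1 := h.inter_small ha (h.idem_res_small _ (by simp)) hW hn
    have h2 := hX3 v Qu Qd ha
    have h3 := card_le_cover2 (A := X (side v) ∩ W) (B := X (side v) \ cand R q {v} Qu Qd)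
      (C := cand R q {v} Qu Qd ∩ W) (fun z hz => by
        simp only [mem_inter, mem_sdiff] at hz ⊢; tauto)
    omega
  refine ⟨side, X, h.po, p1, hX1, fun b => by have := hX2 b; omega, ?_, ?_, ?_, ?_, ?_, ?_, ?_,
    ?_, ?_⟩
  · intro v u hvu
    obtain ⟨Qu, Qd, ha, hu, -⟩ := exists_adm R q v {u} ∅ (by simpa using hvu) (by simp)
      (by simp) (by simp)
    refine le_trans (card_le_card fun z hz => ?_) (hX3 v Qu Qd ha)
    simp only [mem_inter, mem_above, mem_sdiff] at hz ⊢
    refine ⟨hz.1, fun hc => ?_⟩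
    have hu' : u ∈ Qu := hu (by simp)
    have huv : u ∉ ({v} : Finset α) := by
      simp only [mem_singleton]; exact fun hh => hvu.1.2 hh.symm
    rcases mem_cand.1 hc with hc | hc
    · exact ((mem_candU.1 hc).2.2.1 u hu' huv).2.2 hz.2
    · exact h.po.lt_asymm hz.2 ((mem_candD.1 hc).2.2.2 u hu' huv)
  · intro d v hdv
    obtain ⟨Qu, Qd, ha, -, hd⟩ := exists_adm R q v ∅ {d} (by simp) (by simpa using hdv)
      (by simp) (by simp)
    refine le_trans (card_le_card fun z hz => ?_) (hX3 v Qu Qd ha)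
    simp only [mem_inter, mem_below, mem_sdiff] at hz ⊢
    refine ⟨hz.1, fun hc => ?_⟩
    have hd' : d ∈ Qd := hd (by simp)
    have hdv' : d ∉ ({v} : Finset α) := by
      simp only [mem_singleton]; exact fun hh => hdv.1.2 hh
    rcases mem_cand.1 hc with hc | hc
    · exact h.po.lt_asymm hz.2 ((mem_candU.1 hc).2.2.2 d hd' hdv')
    · exact ((mem_candD.1 hc).2.2.1 d hd' hdv').2.1 hz.2
  · intro d v u hdv hvu
    obtain ⟨Qu, Qd, ha, hu, hd⟩ := exists_adm R q v {u} {d} (by simpa using hvu)
      (by simpa using hdv) (by simp) (by simp)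
    refine le_trans (card_le_card fun z hz => ?_) (hX3 v Qu Qd ha)
    simp only [mem_union, mem_above, mem_below, mem_sdiff] at hz ⊢
    refine ⟨hz.1, fun hc => hz.2 ?_⟩
    have hu' : u ∈ Qu := hu (by simp)
    have huv : u ∉ ({v} : Finset α) := by
      simp only [mem_singleton]; exact fun hh => hvu.1.2 hh.symm
    have hd' : d ∈ Qd := hd (by simp)
    have hdv' : d ∉ ({v} : Finset α) := by
      simp only [mem_singleton]; exact fun hh => hdv.1.2 hh
    rcases mem_cand.1 hc with hc | hc
    · exact Or.inl ((mem_candU.1 hc).2.2.2 d hd' hdv')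
    · exact Or.inr ((mem_candD.1 hc).2.2.2 u hu' huv)
  · intro v w hvw hbig
    by_contra hno
    push Not at hno
    have h1 := nb v (above (res {v} R) w) (by simp [Wset]) (fun z hz => by
      rw [mem_above, lt_res] at hz; exact hno z hz.1)
    have h2 := card_le_insert_of (A := X (side v) ∩ above R w)
      (B := X (side v) ∩ above (res {v} R) w) v (fun z hz hzv => by
        simp only [mem_inter, mem_above, lt_res, mem_singleton] at hz ⊢
        exact ⟨hz.1, hz.2, hvw.symm, hzv⟩)
    omega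
  · intro v w hvw hbig
    by_contra hno
    push Not at hno
    have h1 := nb v (below (res {v} R) w) (by simp [Wset]) (fun z hz => by
      rw [mem_below, lt_res] at hz; exact hno z hz.1)
    have h2 := card_le_insert_of (A := X (side v) ∩ below R w)
      (B := X (side v) ∩ below (res {v} R) w) v (fun z hz hzv => by
        simp only [mem_inter, mem_below, lt_res, mem_singleton] at hz ⊢
        exact ⟨hz.1, hz.2, hzv, hvw.symm⟩)
    omega
  · intro v w w' hvw hvw' hbig
    by_contra hno
    push Not at hno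
    have h1 := nb v (above (res {v} R) w ∩ below (res {v} R) w')
      (mem_union_right _ (mem_image.2 ⟨(w, w'), mem_univ _, rfl⟩)) (fun z hz => by
      rw [mem_inter, mem_above, mem_below, lt_res, lt_res] at hz; exact hno z hz.1.1 hz.2.1)
    have h2 := card_le_insert_of (A := X (side v) ∩ (above R w ∩ below R w'))
      (B := X (side v) ∩ (above (res {v} R) w ∩ below (res {v} R) w')) v (fun z hz hzv => by
        simp only [mem_inter, mem_above, mem_below, lt_res, mem_singleton] at hz ⊢
        exact ⟨hz.1, ⟨hz.2.1, hvw.symm, hzv⟩, hz.2.2, hzv, hvw'.symm⟩)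
    omega
  · intro v hv hno
    have h1 := nb v (st4 (res {v} R)) (by simp [Wset]) (fun z hz => by
      obtain ⟨a, b, c, h1, h2, h3⟩ := mem_st4.1 hz
      rw [lt_res] at h1 h2 h3
      exact hno z (mem_st4.2 ⟨a, b, c, h1.1, h2.1, h3.1⟩))
    have h2 := card_le_insert_of (A := X (side v) ∩ st4 R)
      (B := X (side v) ∩ st4 (res {v} R)) v (fun z hz hzv => by
        rw [mem_inter] at hz ⊢
        obtain ⟨a, b, c, k1, k2, k3⟩ := mem_st4.1 hz.2
        have ha : a ≠ v := fun hh => hv _ (hh ▸ k1)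
        have hb : b ≠ v := fun hh => hv _ (hh ▸ k2)
        have hc : c ≠ v := fun hh => hv _ (hh ▸ k3)
        refine ⟨hz.1, mem_st4.2 ⟨a, b, c, ?_, ?_, ?_⟩⟩ <;>
          simp only [lt_res, mem_singleton] <;> tauto)
    omega
  · intro v hv hno
    have h1 := nb v (en4 (res {v} R)) (by simp [Wset]) (fun z hz => by
      obtain ⟨a, b, c, h1, h2, h3⟩ := mem_en4.1 hz
      rw [lt_res] at h1 h2 h3
      exact hno z (mem_en4.2 ⟨a, b, c, h1.1, h2.1, h3.1⟩))
    have h2 := card_le_insert_of (A := X (side v) ∩ en4 R)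
      (B := X (side v) ∩ en4 (res {v} R)) v (fun z hz hzv => by
        rw [mem_inter] at hz ⊢
        obtain ⟨a, b, c, k1, k2, k3⟩ := mem_en4.1 hz.2
        have ha : a ≠ v := fun hh => hv _ (hh ▸ k1)
        have hb : b ≠ v := fun hh => hv _ (hh ▸ k2)
        have hc : c ≠ v := fun hh => hv _ (hh ▸ k3)
        refine ⟨hz.1, mem_en4.2 ⟨a, b, c, ?_, ?_, ?_⟩⟩ <;>
          simp only [lt_res, mem_singleton] <;> tauto)
    omega
  · intro x y hx hy
    by_cases hxy : x = y
    · rw [hxy]
    have h1 := h.irr_common hx hy hxy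
    obtain ⟨z, hz⟩ : (nbr R x ∩ nbr R y).Nonempty := card_pos.1 (by omega)
    simp only [mem_inter, mem_nbr] at hz
    rw [p1 z x hz.1.symm, p1 z y hz.2.symm]

/-- the layered shape -/
def Shape (R : α → α → Prop) (A O : Finset α) : Prop :=
  (irr R ⊆ A ∨ irr R ⊆ Aᶜ) ∧ ∀ x y, cov R x y →
    (x ∈ A ∧ y ∉ A ∧ (x ∈ O ∨ y ∈ O)) ∨ (x ∉ A ∧ y ∈ A ∧ x ∉ O ∧ y ∉ O)

namespace Two

variable {R : α → α → Prop} {side : α → Bool} {X : Bool → Finset α} {e : ℕ}

lemma side_cov (h : Two R side X e) {x y : α} (hxy : cov R x y) : side y = !side x :=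
  h.p1 x y (Or.inl hxy)

lemma mid_of_same (h : Two R side X e) {x y : α} (hxy : lt R x y) (hs : side x = side y) :
    ∃ m, lt R x m ∧ lt R m y := by
  by_contra hno
  push Not at hno
  have := h.side_cov ⟨hxy, hno⟩
  rw [hs] at this
  revert this; cases side y <;> simp

lemma chain4 (h : Two R side X e) {a b c d : α} (hab : cov R a b) (hbc : cov R b c)
    (hcd : cov R c d) :
    (X (side b) \ above R a).card ≤ 48 * e ∧ (X (side c) \ below R d).card ≤ 48 * e := by
  have s1 := h.side_cov hab
  have s2 := h.side_cov hbc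
  have s3 := h.side_cov hcd
  have sd : side d = side b := by rw [s3, s2]; simp
  have sc : side a = side c := by rw [s2, s1]; simp
  constructor
  · have h1 := h.p4d c d hcd
    rw [sd] at h1
    have h2 := h.p5 a b c hab hbc
    have h3 := card_le_cover2 (A := X (side b) \ above R a) (B := X (side b) ∩ below R c)
      (C := X (side b) \ (above R a ∪ below R c)) (fun z hz => by
        simp only [mem_inter, mem_sdiff, mem_union] at hz ⊢; tauto)
    omega
  · have h1 := h.p4u a b hab
    rw [sc] at h1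
    have h2 := h.p5 b c d hbc hcd
    have h3 := card_le_cover2 (A := X (side c) \ below R d) (B := X (side c) ∩ above R b)
      (C := X (side c) \ (above R b ∪ below R d)) (fun z hz => by
        simp only [mem_inter, mem_sdiff, mem_union] at hz ⊢; tauto)
    omega

lemma step_up (h : Two R side X e) {x y z : α} (h1 : x = y ∨ lt R x y) (h2 : lt R y z) :
    lt R x z := by
  rcases h1 with rfl | h1
  · exact h2
  · exact h.po.lt_trans h1 h2

lemma step_dn (h : Two R side X e) {x y z : α} (h2 : lt R x y) (h1 : z = y ∨ lt R y z) :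
    lt R x z := by
  rcases h1 with rfl | h1
  · exact h2
  · exact h.po.lt_trans h2 h1

lemma cov_chain_up (h : Two R side X e) {z a b c : α} (h1 : lt R z a) (h2 : lt R a b)
    (h3 : lt R b c) : ∃ a' b' c', cov R z a' ∧ cov R a' b' ∧ cov R b' c' ∧
      (c' = c ∨ lt R c' c) := by
  obtain ⟨a', ha, ha'⟩ := h.po.exists_cov_up h1
  obtain ⟨b', hb, hb'⟩ := h.po.exists_cov_up (h.step_up ha' h2)
  obtain ⟨c', hc, hc'⟩ := h.po.exists_cov_up (h.step_up hb' h3)
  exact ⟨a', b', c', ha, hb, hc, hc'⟩

lemma cov_chain_dn (h : Two R side X e) {z a b c : α} (h1 : lt R a b) (h2 : lt R b c)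
    (h3 : lt R c z) : ∃ a' b' c', cov R a' b' ∧ cov R b' c' ∧ cov R c' z := by
  obtain ⟨c', hc, hc'⟩ := h.po.exists_cov_dn h3
  obtain ⟨b', hb, hb'⟩ := h.po.exists_cov_dn (h.step_dn h2 hc')
  obtain ⟨a', ha, ha'⟩ := h.po.exists_cov_dn (h.step_dn h1 hb')
  exact ⟨a', b', c', ha, hb, hc⟩

lemma no5 (h : Two R side X e) {a b c d f : α} (h1 : lt R a b) (h2 : lt R b c) (h3 : lt R c d)
    (h4 : lt R d f) : False := by
  obtain ⟨b', c', d', hb, hc, hd, hd'⟩ := h.cov_chain_up h1 h2 h3
  obtain ⟨f', hf, -⟩ := h.po.exists_cov_up (h.step_up hd' h4)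
  have k1 := (h.chain4 hb hc hd).2
  have k2 := h.p4d d' f' hf
  have s1 := h.side_cov hd
  have s2 := h.side_cov hf
  have s3 : side f' = side c' := by rw [s2, s1]; simp
  rw [s3] at k2
  have k3 := card_sdiff_add_card_inter (X (side c')) (below R d')
  have k4 := h.p3 (side c')
  omega

lemma same_start (h : Two R side X e) {a b c d a' b' c' d' : α} (hab : cov R a b)
    (hbc : cov R b c) (hcd : cov R c d) (hab' : cov R a' b') (hbc' : cov R b' c')
    (hcd' : cov R c' d') : side a' = side a := by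
  by_contra hs
  have s1 := h.side_cov hab
  have t1 := h.side_cov hab'
  have t2 := h.side_cov hbc'
  have t3 := h.side_cov hcd'
  have u1 : side c' = side b := by
    rw [t2, t1, s1]; revert hs; cases side a <;> cases side a' <;> simp
  have u2 : side d' = side a := by
    rw [t3, u1, s1]; simp
  have k1 := (h.chain4 hab hbc hcd).1
  have k2 := (h.chain4 hab' hbc' hcd').2
  rw [u1] at k2
  have k3 := h.p3 (side b)
  have k4 := card_le_cover3 (A := X (side b)) (B := X (side b) \ above R a)
    (C := X (side b) \ below R d') (D := X (side b) ∩ (above R a ∩ below R d')) (fun z hz => by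
      simp only [mem_inter, mem_sdiff]; tauto)
  have n1 : b ≠ a := fun hh => hab.1.2 hh.symm
  have n2 : b ≠ d' := by
    rintro rfl
    rw [u2] at s1; revert s1; cases side a <;> simp
  obtain ⟨y, hy1, hy2, hy3⟩ := h.p6b b a d' n1 n2 (by omega)
  have sy : side y = side a := by rw [h.p1 b y hy3, s1]; simp
  obtain ⟨m, hm1, hm2⟩ := h.mid_of_same hy1 sy.symm
  obtain ⟨m', hm3, hm4⟩ := h.mid_of_same hy2 (by rw [sy, u2])
  exact h.no5 hm1 hm2 hm3 hm4

lemma irr_side (h : Two R side X e) (s : Bool) :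
    irr R ⊆ univ.filter (fun v => side v = s) ∨ irr R ⊆ (univ.filter (fun v => side v = s))ᶜ := by
  by_cases hs : ∃ x, ¬ R x x ∧ side x = s
  · obtain ⟨x, hx, hxs⟩ := hs
    left
    intro y hy
    simp only [mem_filter, mem_univ, true_and]
    rw [← hxs]; exact h.p8 y x (mem_irr.1 hy) hx
  · right
    intro y hy
    simp only [mem_compl, mem_filter, mem_univ, true_and]
    exact fun hh => hs ⟨y, mem_irr.1 hy, hh⟩

lemma shape_no4 (h : Two R side X e)
    (hno : ∀ a b c d, lt R a b → lt R b c → lt R c d → False) :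
    ∃ A O, O ⊆ A ∧ Shape R A O := by
  have key : ∀ dx x ux dy y uy, cov R dx x → cov R x ux → cov R dy y → cov R y uy →
      side y = side x := by
    intro dx x ux dy y uy h1 h2 h3 h4
    by_contra hs
    have s1 := h.side_cov h1
    have s2 := h.side_cov h2
    have s3 := h.side_cov h3
    have s4 := h.side_cov h4
    have t1 : side uy = side x := by
      rw [s4]; revert hs; cases side x <;> cases side y <;> simp
    have t2 : side dy = side x := by
      revert hs s3; cases side x <;> cases side y <;> cases side dy <;> simp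
    have k1 := h.p5 dx x ux h1 h2
    have k2 := h.p3 (side x)
    have k3 := card_le_cover3 (A := X (side x)) (B := X (side x) \ (above R dx ∪ below R ux))
      (C := X (side x) ∩ above R dx) (D := X (side x) ∩ below R ux) (fun z hz => by
        simp only [mem_inter, mem_sdiff, mem_union]; tauto)
    by_cases hc : 26 * e + 1 < (X (side x) ∩ above R dx).card
    · have n1 : uy ≠ dx := by
        rintro rfl
        rw [t1] at s1; revert s1; cases side x <;> simp
      obtain ⟨b, hb1, hb2⟩ := h.p6u uy dx n1 (by rw [t1]; exact hc)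
      have sb : side dx = side b := by
        rw [h.p1 uy b hb2, t1, s1]; simp
      obtain ⟨m, hm1, hm2⟩ := h.mid_of_same hb1 sb
      rcases hb2 with hb2 | hb2
      · exact hno _ _ _ _ h3.1 h4.1 hb2.1
      · exact hno _ _ _ _ hm1 hm2 hb2.1
    · have hc' : 26 * e + 1 < (X (side x) ∩ below R ux).card := by omega
      have n1 : dy ≠ ux := by
        rintro rfl
        rw [t2] at s2; revert s2; cases side x <;> simp
      obtain ⟨b, hb1, hb2⟩ := h.p6d dy ux n1 (by rw [t2]; exact hc')
      have sb : side b = side ux := by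
        rw [h.p1 dy b hb2, t2, s2]
      obtain ⟨m, hm1, hm2⟩ := h.mid_of_same hb1 sb
      rcases hb2 with hb2 | hb2
      · exact hno _ _ _ _ hb2.1 hm1 hm2
      · exact hno _ _ _ _ hb2.1 h3.1 h4.1
  obtain ⟨s, hs⟩ : ∃ s : Bool, ∀ d v u, cov R d v → cov R v u → side v ≠ s := by
    by_cases hM : ∃ d v u, cov R d v ∧ cov R v u
    · obtain ⟨d0, v0, u0, h1, h2⟩ := hM
      refine ⟨!side v0, fun d v u h3 h4 => ?_⟩
      rw [key d0 v0 u0 d v u h1 h2 h3 h4]
      cases side v0 <;> simp
    · exact ⟨true, fun d v u h3 h4 => absurd ⟨d, v, u, h3, h4⟩ hM⟩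
  refine ⟨univ.filter (fun v => side v = s),
    univ.filter (fun v => side v = s ∧ ∀ d, ¬ cov R d v), ?_, h.irr_side s, ?_⟩
  · intro v hv
    simp only [mem_filter, mem_univ, true_and] at hv ⊢
    exact hv.1
  · intro x y hxy
    have s1 := h.side_cov hxy
    simp only [mem_filter, mem_univ, true_and]
    by_cases hx : side x = s
    · left
      refine ⟨hx, ?_, Or.inl ⟨hx, fun d hd => hs d x y hd hxy hx⟩⟩
      rw [s1, hx]; cases s <;> simp
    · right
      refine ⟨hx, ?_, fun hh => hx hh.1, fun hh => hh.2 x hxy⟩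
      rw [s1]; revert hx; cases s <;> cases side x <;> simp

lemma shape_4 (h : Two R side X e) {a b c d : α} (hab : cov R a b) (hbc : cov R b c)
    (hcd : cov R c d) : ∃ A O, O.card ≤ 148 * e + 2 ∧ Shape R A O := by
  have s1 := h.side_cov hab
  have s2 := h.side_cov hbc
  have s3 := h.side_cov hcd
  have sd : side d = side b := by rw [s3, s2]; simp
  have sc : side c = side a := by rw [s2, s1]; simp
  obtain ⟨k1, k2⟩ := h.chain4 hab hbc hcd
  have hD : ∀ z ∈ st4 R, side z = side a ∧ ∀ w, ¬ lt R w z := by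
    intro z hz
    obtain ⟨a1, b1, c1, h1, h2, h3⟩ := mem_st4.1 hz
    obtain ⟨a', b', c', h4, h5, h6, -⟩ := h.cov_chain_up h1 h2 h3
    exact ⟨h.same_start hab hbc hcd h4 h5 h6, fun w hw => h.no5 hw h1 h2 h3⟩
  have hT : ∀ z ∈ en4 R, side z = side b ∧ ∀ w, ¬ lt R z w := by
    intro z hz
    obtain ⟨a1, b1, c1, h1, h2, h3⟩ := mem_en4.1 hz
    obtain ⟨a', b', c', h4, h5, h6⟩ := h.cov_chain_dn h1 h2 h3
    refine ⟨?_, fun w hw => h.no5 h1 h2 h3 hw⟩
    rw [h.side_cov h6, h.side_cov h5, h.side_cov h4, h.same_start hab hbc hcd h4 h5 h6, s1]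
    simp
  have ha4 : a ∈ st4 R := mem_st4.2 ⟨b, c, d, hab.1, hbc.1, hcd.1⟩
  have hd4 : d ∈ en4 R := mem_en4.2 ⟨a, b, c, hab.1, hbc.1, hcd.1⟩
  have hXb : X (side b) = (X (side a))ᶜ := by rw [s1, h.p2]
  have cD : (st4 R).card ≤ 74 * e + 1 := by
    have h1 := h.p7u a (hD a ha4).2 (fun z hz hadj => by
      have := h.p1 a z hadj
      rw [(hD z hz).1] at this
      revert this; cases side a <;> simp)
    have h2 := card_le_cover2 (A := st4 R) (B := X (side a) ∩ st4 R)
      (C := X (side b) \ above R a) (fun z hz => by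
        have := (hD z hz).2 a
        simp only [hXb, mem_inter, mem_sdiff, mem_compl, mem_above]; tauto)
    omega
  have cT : (en4 R).card ≤ 74 * e + 1 := by
    have h1 := h.p7d d (hT d hd4).2 (fun z hz hadj => by
      have := h.p1 d z hadj
      rw [(hT z hz).1, sd] at this
      revert this; cases side b <;> simp)
    have h2 := card_le_cover2 (A := en4 R) (B := X (side d) ∩ en4 R)
      (C := X (side c) \ below R d) (fun z hz => by
        have := (hT z hz).2 d
        simp only [sd, sc, hXb, mem_inter, mem_sdiff, mem_compl, mem_below]; tauto)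
    omega
  refine ⟨univ.filter (fun v => side v = side a), st4 R ∪ en4 R,
    (card_union_le _ _).trans (by omega), h.irr_side _, ?_⟩
  intro x y hxy
  have t1 := h.side_cov hxy
  simp only [mem_filter, mem_univ, true_and, mem_union]
  by_cases hx : side x = side a
  · left
    have hy : side y = side b := by rw [t1, hx, s1]
    refine ⟨hx, by rw [t1, hx]; cases side a <;> simp, ?_⟩
    by_contra hno
    push Not at hno
    have k3 := h.p3 (side a)
    have k4 := h.p3 (side b)
    have k5 := card_sdiff_add_card_inter (X (side c)) (below R d)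
    have k6 := card_sdiff_add_card_inter (X (side b)) (above R a)
    have n1 : x ≠ d := by
      rintro rfl
      rw [sd, s1] at hx; revert hx; cases side a <;> simp
    have n2 : y ≠ a := by
      rintro rfl
      rw [s1] at hy; revert hy; cases side y <;> simp
    obtain ⟨z', hz1, hz2⟩ := h.p6d x d n1 (by rw [hx]; rw [sc] at k5 k2; omega)
    obtain ⟨z, hz3, hz4⟩ := h.p6u y a n2 (by rw [hy]; omega)
    have sz' : side z' = side d := by rw [h.p1 x z' hz2, hx, sd, s1]
    have sz : side a = side z := by rw [h.p1 y z hz4, hy, s1]; simp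
    obtain ⟨m, hm1, hm2⟩ := h.mid_of_same hz1 sz'
    obtain ⟨m', hm3, hm4⟩ := h.mid_of_same hz3 sz
    rcases hz2 with hz2 | hz2
    · exact hno.1.1 (mem_st4.2 ⟨z', m, d, hz2.1, hm1, hm2⟩)
    rcases hz4 with hz4 | hz4
    · have := h.same_start hab hbc hcd hz2 hxy hz4
      rw [sz', sd, s1] at this
      revert this; cases side a <;> simp
    · exact hno.2.2 (mem_en4.2 ⟨a, m', z, hm3, hm4, hz4.1⟩)
  · right
    have hy : side y = side a := by
      rw [t1]; revert hx; cases side a <;> cases side x <;> simp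
    refine ⟨hx, hy, ?_, ?_⟩
    · rintro (hh | hh)
      · exact hx (hD x hh).1
      · exact (hT x hh).2 y hxy.1
    · rintro (hh | hh)
      · exact (hD y hh).2 x hxy.1
      · have := (hT y hh).1
        rw [hy, s1] at this
        revert this; cases side a <;> simp

end Two

theorem Nice.shape {R : α → α → Prop} {q e : ℕ} (h : Nice R q e) :
    ∃ A O, (O ⊆ A ∨ O.card ≤ 148 * e + 2) ∧ Shape R A O := by
  obtain ⟨side, X, h2⟩ := h.exists_two
  by_cases h4 : ∃ a b c d, lt R a b ∧ lt R b c ∧ lt R c d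
  · obtain ⟨a, b, c, d, h1, h3, h5⟩ := h4
    obtain ⟨b', c', d', k1, k2, k3, -⟩ := h2.cov_chain_up h1 h3 h5
    obtain ⟨A, O, k4, k5⟩ := h2.shape_4 k1 k2 k3
    exact ⟨A, O, Or.inr k4, k5⟩
  · obtain ⟨A, O, k4, k5⟩ := h2.shape_no4 (fun a b c d h1 h3 h5 => h4 ⟨a, b, c, d, h1, h3, h5⟩)
    exact ⟨A, O, Or.inl k4, k5⟩

end Pool.Agent.MP_c00610_co
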