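import Pool.Agent.MP_c00610_co.Lower

set_option linter.unusedSectionVars false

open Finset
open scoped Classical

noncomputable section
namespace Pool.Agent.MP_c00610_co

lemma pw_le {a b : ℝ} (h : a ≤ b) : (2 : ℝ) ^ a ≤ 2 ^ b :=
  Real.rpow_le_rpow_of_exponent_le (by norm_num) h

lemma pw_add (a b : ℝ) : (2 : ℝ) ^ a * 2 ^ b = 2 ^ (a + b) :=
  (Real.rpow_add (by norm_num) a b).symm

lemma pw_nat (m : ℕ) : (2 : ℝ) ^ m = (2 : ℝ) ^ (m : ℝ) := (Real.rpow_natCast _ _).symm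

lemma pw_pos (a : ℝ) : 0 < (2 : ℝ) ^ a := by positivity

lemma card_small_le_exp {α : Type} [Fintype α] (k s : ℕ) :
    ((small α k).card : ℝ) ≤
      (2 : ℝ) ^ (3 / 2 * (1 / 2) ^ s * (Fintype.card α : ℝ) + s * k) := by
  have ht0 : (0 : ℝ) < (1 / 2) ^ s := by positivity
  have ht1 : ((1 : ℝ) / 2) ^ s ≤ 1 := pow_le_one₀ (by norm_num) (by norm_num)
  have h1 := card_small_le_entropy (α := α) k _ ht0 ht1
  have h2 : 1 + ((1 : ℝ) / 2) ^ s ≤ (2 : ℝ) ^ (3 / 2 * (1 / 2 : ℝ) ^ s) := by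
    rw [Real.rpow_def_of_pos (by norm_num)]
    have := Real.add_one_le_exp (Real.log 2 * (3 / 2 * (1 / 2 : ℝ) ^ s))
    have h3 := Real.log_two_gt_d9
    nlinarith
  have h3 : (1 + ((1 : ℝ) / 2) ^ s) ^ Fintype.card α ≤
      (2 : ℝ) ^ (3 / 2 * (1 / 2) ^ s * (Fintype.card α : ℝ)) := by
    rw [Real.rpow_mul (by norm_num), Real.rpow_natCast]
    gcongr
  have h4 : (((1 : ℝ) / 2) ^ s) ^ k * (2 : ℝ) ^ ((s : ℝ) * k) = 1 := by
    rw [← pow_mul, ← Nat.cast_mul, Real.rpow_natCast, ← mul_pow]; simp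
  rw [← pw_add]
  calc ((small α k).card : ℝ) = (small α k).card * (((1 : ℝ) / 2) ^ s) ^ k *
        (2 : ℝ) ^ ((s : ℝ) * k) := by rw [mul_assoc, h4, mul_one]
    _ ≤ _ := mul_le_mul_of_nonneg_right (h1.trans h3) (pw_pos _).le

/-- the main term -/
def fS (n : ℕ) : ℝ := ∑ a ∈ range (n + 1), n.choose a * fT a (n - a)

lemma sum_subsets {α : Type} [Fintype α] (φ : ℕ → ℕ → ℝ) :
    ∑ A : Finset α, φ A.card Aᶜ.card =
      ∑ a ∈ range (Fintype.card α + 1), (Fintype.card α).choose a * φ a (Fintype.card α - a) := by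
  have := sum_powerset_apply_card (fun a => φ a (Fintype.card α - a)) (x := (univ : Finset α))
  simp only [powerset_univ, card_univ, nsmul_eq_mul] at this
  rw [← this]
  exact sum_congr rfl fun A _ => by rw [card_compl]

/-- the crude scale -/
def F (n : ℕ) : ℝ := (2 : ℝ) ^ ((n : ℝ) ^ 2 / 4 + 2 * n)

lemma F_pos (n : ℕ) : 0 < F n := pw_pos _

def r (n : ℕ) : ℝ := I n / F n

lemma r_nonneg (n : ℕ) : 0 ≤ r n := div_nonneg (Nat.cast_nonneg _) (F_pos n).le

lemma I_sub (n k : ℕ) (hk : k ≤ n) :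
    (I (n - k) : ℝ) = (2 : ℝ) ^ (-(k : ℝ) * n / 2 + (k : ℝ) ^ 2 / 4 - 2 * k) * (F n * r (n - k)) := by
  have h1 : F (n - k) = (2 : ℝ) ^ (-(k : ℝ) * n / 2 + (k : ℝ) ^ 2 / 4 - 2 * k) * F n := by
    unfold F
    rw [pw_add, Nat.cast_sub hk]
    congr 1; ring
  rw [← mul_assoc, ← h1, r, mul_div_cancel₀ _ (F_pos _).ne']

/-- the error factor -/
def w (q n : ℕ) : ℝ :=
  ((n : ℝ) + 2) ^ (4 * q + 12) * (2 : ℝ) ^ ((q : ℝ) ^ 2 / 4 + 10 - n / 20000)

lemma w_pos (q n : ℕ) : 0 < w q n := by unfold w; positivity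

lemma le_w (q n m : ℕ) (p x : ℝ) (hm : m ≤ 4 * q + 12) (hp : p ≤ ((n : ℝ) + 2) ^ m)
    (hx : x ≤ (q : ℝ) ^ 2 / 4 + 10 - n / 20000) : p * (2 : ℝ) ^ x ≤ w q n := by
  unfold w
  have : (1 : ℝ) ≤ n + 2 := by linarith [Nat.cast_nonneg (α := ℝ) n]
  exact mul_le_mul (hp.trans (pow_le_pow_right₀ this hm)) (pw_le hx) (pw_pos _).le (by positivity)

lemma le_w' (q n : ℕ) (x : ℝ) (hx : x ≤ 10 - n / 20000) : (2 : ℝ) ^ x ≤ w q n := by
  have := le_w q n 0 1 x (by omega) (by simp) (by nlinarith [sq_nonneg (q : ℝ)])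
  rwa [one_mul] at this

lemma sum_small_term {α : Type} [Fintype α] :
    ∑ A : Finset α, (2 : ℝ) ^ (A.card * Aᶜ.card) * (2 ^ A.card + 2 ^ Aᶜ.card) ≤
      (2 : ℝ) ^ (5 / 4 - (Fintype.card α : ℝ) / 2) * F (Fintype.card α) := by
  have h1 : ∀ A : Finset α, (2 : ℝ) ^ (A.card * Aᶜ.card) * (2 ^ A.card + 2 ^ Aᶜ.card) ≤
      (2 : ℝ) ^ (((Fintype.card α : ℝ) + 1) ^ 2 / 4 + 1) := by
    intro A
    have k4 : (A.card : ℝ) + Aᶜ.card = Fintype.card α := by
      exact_mod_cast card_add_card_compl A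
    rw [mul_add, pw_nat, pw_nat A.card, pw_nat Aᶜ.card, pw_add, pw_add, ← pw_add _ 1,
      Real.rpow_one, mul_two]
    push_cast
    refine add_le_add (pw_le ?_) (pw_le ?_)
    · rw [← k4]; nlinarith [sq_nonneg ((A.card : ℝ) - Aᶜ.card - 1)]
    · rw [← k4]; nlinarith [sq_nonneg ((A.card : ℝ) - Aᶜ.card + 1)]
  refine (sum_le_sum fun A _ => h1 A).trans ?_
  simp only [sum_const, card_univ, Fintype.card_finset, nsmul_eq_mul]
  push_cast
  rw [pw_nat, pw_add, F, pw_add]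
  apply pw_le
  nlinarith

lemma fT_le (a b : ℕ) : fT a b ≤ 3 * (2 : ℝ) ^ (((a : ℝ) + b) ^ 2 / 4 + (a + b)) := by
  have k1 : (2 : ℝ) ^ a * 2 ^ (a * b) * 2 ^ a ≤
      (2 : ℝ) ^ (1 : ℝ) * (2 : ℝ) ^ (((a : ℝ) + b) ^ 2 / 4 + (a + b)) := by
    rw [pw_nat (_ * _), pw_nat a, pw_add, pw_add, pw_add]
    apply pw_le
    push_cast
    nlinarith [sq_nonneg ((a : ℝ) - b - 2)]
  have k2 : (2 : ℝ) ^ a * 2 ^ (a * b) * 2 ^ b ≤
      (2 : ℝ) ^ (((a : ℝ) + b) ^ 2 / 4 + (a + b)) := by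
    rw [pw_nat (_ * _), pw_nat a, pw_nat b, pw_add, pw_add]
    apply pw_le
    push_cast
    nlinarith [sq_nonneg ((a : ℝ) - b)]
  rw [Real.rpow_one] at k1
  unfold fT
  linarith

lemma fS_le (n : ℕ) : fS n ≤ 3 * F n := by
  have h1 : ∀ a ∈ range (n + 1), (n.choose a : ℝ) * fT a (n - a) ≤
      n.choose a * (3 * (2 : ℝ) ^ ((n : ℝ) ^ 2 / 4 + n)) := by
    intro a ha
    have h2 := fT_le a (n - a)
    rw [Nat.cast_sub (by simpa [Nat.lt_succ_iff] using ha), add_sub_cancel] at h2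
    gcongr
  refine (sum_le_sum h1).trans ?_
  rw [← sum_mul]
  have h3 : ∑ a ∈ range (n + 1), (n.choose a : ℝ) = 2 ^ n := by
    exact_mod_cast Nat.sum_range_choose n
  rw [h3, pw_nat, mul_left_comm, pw_add, F]
  apply le_of_eq
  congr 2; ring

lemma I_eq (n : ℕ) : I n = (idemAll (Fin n)).card := by
  unfold I idemAll
  congr 1
  ext R
  simp

lemma div_bounds (n m : ℕ) (hm : 0 < m) :
    (n : ℝ) / m - 1 ≤ (n / m : ℕ) ∧ ((n / m : ℕ) : ℝ) ≤ n / m := by
  refine ⟨?_, Nat.cast_div_le⟩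
  have h1 := Nat.lt_mul_div_succ n hm
  have h2 : (n : ℝ) < m * ((n / m : ℕ) + 1) := by exact_mod_cast h1
  have h3 : (0 : ℝ) < m := by exact_mod_cast hm
  rw [sub_le_iff_le_add, div_le_iff₀ h3]
  linarith

section
variable {α : Type} [Fintype α] {q n : ℕ}

lemma t0 (hc : Fintype.card α = n) (hn : 1 ≤ n) :
    ((B0 α).card : ℝ) ≤ w q n * (F n * r (n - 1)) := by
  have := card_B0 (α := α)
  rw [hc, I_sub n 1 hn, ← mul_assoc] at this
  refine this.trans (mul_le_mul_of_nonneg_right ?_ (mul_nonneg (F_pos _).le (r_nonneg _)))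
  have hx : (0 : ℝ) ≤ n := Nat.cast_nonneg n
  refine le_w q n 2 _ _ (by omega) (by gcongr; linarith) ?_
  push_cast
  nlinarith [sq_nonneg (q : ℝ)]

lemma t1 (hc : Fintype.card α = n) (hq : 100000 ≤ q) (hn : q ≤ n) :
    ((B1 α q (n / 20000)).card : ℝ) ≤ w q n * (F n * r (n - q)) := by
  have := card_B1 (α := α) q (n / 20000)
  rw [hc, I_sub n q hn, show (4 : ℝ) ^ n = 2 ^ n * 2 ^ n by rw [← mul_pow]; norm_num,
    pw_nat n] at this
  have he := (div_bounds n 20000 (by norm_num)).1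
  generalize ((n / 20000 : ℕ) : ℝ) = e at *
  refine this.trans ?_
  have hx : (0 : ℝ) ≤ n := Nat.cast_nonneg n
  have hqr : (100000 : ℝ) ≤ q := by exact_mod_cast hq
  calc _ = (((n : ℝ) + 1) ^ q * ((2 : ℝ) ^ (n : ℝ) * (2 : ℝ) ^ (n : ℝ) * (2 : ℝ) ^ (n : ℝ) *
        (2 : ℝ) ^ (n : ℝ) * (2 : ℝ) ^ (-(q : ℝ) * n / 2 + (q : ℝ) ^ 2 / 4 - 2 * q) *
        (2 : ℝ) ^ ((q : ℝ) * (n / 2 - e)))) * (F n * r (n - q)) := by ring
    _ ≤ _ := by
      refine mul_le_mul_of_nonneg_right ?_ (mul_nonneg (F_pos _).le (r_nonneg _))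
      rw [pw_add, pw_add, pw_add, pw_add, pw_add]
      refine le_w q n q _ _ (by omega) (by gcongr; linarith) ?_
      push_cast at he
      have k1 := mul_le_mul_of_nonneg_left he (by linarith : (0 : ℝ) ≤ q)
      have k2 := mul_le_mul_of_nonneg_right hqr hx
      linarith

lemma t2 (hc : Fintype.card α = n) (hn : 1 ≤ n) (v : α) :
    ((Bs1 v (16 * (n / 20000)) (n / 50)).card : ℝ) ≤ w q n * (F n * r (n - 1)) := by
  have := card_Bs1 v (16 * (n / 20000)) (n / 50)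
  have s1 := card_small_le_exp (α := α) (16 * (n / 20000)) 7
  have s2 := card_small_le_exp (α := α) (n / 50) 4
  rw [hc] at s1 s2
  rw [hc, I_sub n 1 hn, ← mul_assoc] at this
  refine this.trans (mul_le_mul_of_nonneg_right ?_ (mul_nonneg (F_pos _).le (r_nonneg _)))
  refine le_trans (mul_le_mul_of_nonneg_right (mul_le_mul (mul_le_mul s1 s2 (Nat.cast_nonneg _)
    (pw_pos _).le) s2 (Nat.cast_nonneg _) (by positivity)) (pw_pos _).le) ?_
  rw [pw_add, pw_add, pw_add]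
  apply le_w'
  have he := (div_bounds n 20000 (by norm_num)).2
  have hg := (div_bounds n 50 (by norm_num)).2
  have hx : (0 : ℝ) ≤ n := Nat.cast_nonneg n
  rw [Nat.cast_mul]
  generalize ((n / 20000 : ℕ) : ℝ) = e at *
  generalize ((n / 50 : ℕ) : ℝ) = g at *
  push_cast at he hg ⊢
  linarith

lemma t3 (hc : Fintype.card α = n) :
    ((Bs2 α (16 * (n / 20000)) (n / 50)).card : ℝ) ≤ w q n * (idemAll α).card := by
  have h1 := card_Bs2 (α := α) (16 * (n / 20000)) (n / 50)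
  have s1 := card_small_le_exp (α := α) (16 * (n / 20000)) 7
  rw [hc] at s1
  have h2 : ((Bs2 α (16 * (n / 20000)) (n / 50)).card : ℝ) * 2 ^ (n / 50) ≤
      (small α (16 * (n / 20000))).card * (idemAll α).card := by exact_mod_cast h1
  have h3 : (2 : ℝ) ^ (n / 50) * (2 : ℝ) ^ (-((n / 50 : ℕ) : ℝ)) = 1 := by
    rw [pw_nat, pw_add]; simp
  have h4 := mul_le_mul_of_nonneg_right h2 (pw_pos (-((n / 50 : ℕ) : ℝ))).le
  rw [mul_assoc, h3, mul_one, mul_right_comm] at h4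
  refine h4.trans (mul_le_mul_of_nonneg_right ?_ (Nat.cast_nonneg _))
  refine le_trans (mul_le_mul_of_nonneg_right s1 (pw_pos _).le) ?_
  rw [pw_add]
  apply le_w'
  have he := (div_bounds n 20000 (by norm_num)).2
  have hg := (div_bounds n 50 (by norm_num)).1
  have hx : (0 : ℝ) ≤ n := Nat.cast_nonneg n
  rw [Nat.cast_mul]
  generalize ((n / 20000 : ℕ) : ℝ) = e at *
  generalize ((n / 50 : ℕ) : ℝ) = g at *
  push_cast at he hg ⊢
  linarith

lemma t4 (hc : Fintype.card α = n) (hq : 1 ≤ q) (hn : 1 ≤ n) :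
    ((B4 α q (n / 20000)).card : ℝ) ≤ w q n * (F n * r (n - 1)) := by
  have := card_B4 (α := α) q (n / 20000) hq
  rw [hc, I_sub n 1 hn] at this
  have he := (div_bounds n 20000 (by norm_num)).1
  generalize ((n / 20000 : ℕ) : ℝ) = e at *
  refine this.trans ?_
  have hx : (0 : ℝ) ≤ n := Nat.cast_nonneg n
  calc _ = (((n : ℝ) * (n + 1) ^ (q + 1) * (n + 1) ^ (q + 1) * 2 * (n + 2) ^ 2) *
        ((2 : ℝ) ^ (-((1 : ℕ) : ℝ) * n / 2 + ((1 : ℕ) : ℝ) ^ 2 / 4 - 2 * (1 : ℕ)) *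
          (2 : ℝ) ^ ((n : ℝ) / 2 - e))) * (F n * r (n - 1)) := by ring
    _ ≤ _ := by
      refine mul_le_mul_of_nonneg_right ?_ (mul_nonneg (F_pos _).le (r_nonneg _))
      rw [pw_add]
      refine le_w q n (1 + (q + 1) + (q + 1) + 1 + 2) _ _ (by omega) ?_ ?_
      · calc _ ≤ ((n : ℝ) + 2) * (n + 2) ^ (q + 1) * (n + 2) ^ (q + 1) * (n + 2) * (n + 2) ^ 2 := by
              gcongr <;> linarith
          _ = _ := by ring
      · push_cast at he ⊢
        nlinarith [sq_nonneg (q : ℝ)]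

lemma t5 (hc : Fintype.card α = n) (hq : 1 ≤ q) (hn : 2 ≤ n) :
    ((B5 α q (n / 20000)).card : ℝ) ≤ w q n * (F n * r (n - 2)) := by
  have := card_B5 (α := α) q (n / 20000) hq
  rw [hc, I_sub n 2 hn] at this
  have he := (div_bounds n 20000 (by norm_num)).1
  generalize ((n / 20000 : ℕ) : ℝ) = e at *
  refine this.trans ?_
  have hx : (0 : ℝ) ≤ n := Nat.cast_nonneg n
  calc _ = (((n : ℝ) ^ 2 * (n + 1) ^ (4 * q + 6) * 2 ^ 4) *
        ((2 : ℝ) ^ (-((2 : ℕ) : ℝ) * n / 2 + ((2 : ℕ) : ℝ) ^ 2 / 4 - 2 * (2 : ℕ)) *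
          (2 : ℝ) ^ ((n : ℝ) - 2 * e))) * (F n * r (n - 2)) := by ring
    _ ≤ _ := by
      refine mul_le_mul_of_nonneg_right ?_ (mul_nonneg (F_pos _).le (r_nonneg _))
      rw [pw_add]
      refine le_w q n (2 + (4 * q + 6) + 4) _ _ (by omega) ?_ ?_
      · calc _ ≤ ((n : ℝ) + 2) ^ 2 * (n + 2) ^ (4 * q + 6) * (n + 2) ^ 4 := by
              gcongr <;> linarith
          _ = _ := by ring
      · push_cast at he ⊢
        nlinarith [sq_nonneg (q : ℝ)]

lemma t6 (hc : Fintype.card α = n) :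
    ((Good α (148 * (n / 20000) + 2)).card : ℝ) ≤ fS n + w q n * F n := by
  have h1 := card_Good (α := α) (148 * (n / 20000) + 2)
  have s3 := card_small_le_exp (α := α) (148 * (n / 20000) + 2) 4
  have h2 : ((Good α (148 * (n / 20000) + 2)).card : ℝ) ≤ ∑ A : Finset α,
      ((2 : ℝ) ^ A.card + (small α (148 * (n / 20000) + 2)).card) * 2 ^ (A.card * Aᶜ.card) *
        (2 ^ A.card + 2 ^ Aᶜ.card) := by exact_mod_cast h1
  refine h2.trans ?_
  have h3 : ∑ A : Finset α,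
      ((2 : ℝ) ^ A.card + (small α (148 * (n / 20000) + 2)).card) * 2 ^ (A.card * Aᶜ.card) *
        (2 ^ A.card + 2 ^ Aᶜ.card) = fS n + (small α (148 * (n / 20000) + 2)).card *
        ∑ A : Finset α, (2 : ℝ) ^ (A.card * Aᶜ.card) * (2 ^ A.card + 2 ^ Aᶜ.card) := by
    rw [fS, ← hc, ← sum_subsets, mul_sum, ← sum_add_distrib]
    refine sum_congr rfl fun A _ => ?_
    unfold fT; ring
  rw [h3]
  have h4 := sum_small_term (α := α)
  rw [hc] at h4 s3
  refine add_le_add le_rfl ((mul_le_mul s3 h4 (by positivity) (pw_pos _).le).trans ?_)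
  rw [← mul_assoc, pw_add]
  refine mul_le_mul_of_nonneg_right ?_ (F_pos _).le
  apply le_w'
  have he := (div_bounds n 20000 (by norm_num)).2
  have hx : (0 : ℝ) ≤ n := Nat.cast_nonneg n
  rw [Nat.cast_add, Nat.cast_mul]
  generalize ((n / 20000 : ℕ) : ℝ) = e at *
  push_cast at he ⊢
  linarith

lemma recursion' (hc : Fintype.card α = n) (hq : 100000 ≤ q) (hn : q ≤ n) :
    ((idemAll α).card : ℝ) ≤ fS n + w q n * (F n + (idemAll α).card +
      F n * (3 * r (n - 1) + r (n - 2) + r (n - q))) := by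
  obtain ⟨v⟩ : Nonempty α := Fintype.card_pos_iff.1 (by omega)
  have hsub := idemAll_subset v q (n / 20000) (n / 50) (by rw [hc]; omega)
  have hcard : ((idemAll α).card : ℝ) ≤ (B0 α).card + (B1 α q (n / 20000)).card +
      (Bs1 v (16 * (n / 20000)) (n / 50)).card + (Bs2 α (16 * (n / 20000)) (n / 50)).card +
      (B4 α q (n / 20000)).card + (B5 α q (n / 20000)).card +
      (Good α (148 * (n / 20000) + 2)).card := by
    norm_cast
    refine (card_le_card hsub).trans ?_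
    refine (card_union_le _ _).trans (Nat.add_le_add_right ?_ _)
    refine (card_union_le _ _).trans (Nat.add_le_add_right ?_ _)
    refine (card_union_le _ _).trans (Nat.add_le_add_right ?_ _)
    refine (card_union_le _ _).trans (Nat.add_le_add_right ?_ _)
    refine (card_union_le _ _).trans (Nat.add_le_add_right ?_ _)
    exact card_union_le _ _
  have k0 := t0 (q := q) hc (by omega)
  have k1 := t1 hc hq hn
  have k2 := t2 (q := q) hc (by omega) v
  have k3 := t3 (q := q) hc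
  have k4 := t4 (q := q) hc (by omega) (by omega)
  have k5 := t5 (q := q) hc (by omega) (by omega)
  have k6 := t6 (q := q) hc
  linarith

lemma lower_rec' (hc : Fintype.card α = n) : fS n - w q n * F n ≤ (idemAll α).card := by
  have h1 := lower_bound (α := α)
  rw [sum_subsets fT, hc] at h1
  refine le_trans (sub_le_sub_left ?_ _) h1
  have hx : (0 : ℝ) ≤ n := Nat.cast_nonneg n
  calc _ = ((4 * (n : ℝ) + 1) * (2 : ℝ) ^ (66 / 25 - (n : ℝ) / 5)) * F n := by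
        rw [pw_nat, F, mul_left_comm, pw_add, mul_assoc, pw_add]
        congr 2; ring
    _ ≤ _ := by
        refine mul_le_mul_of_nonneg_right ?_ (F_pos _).le
        refine le_w q n 2 _ _ (by omega) ?_ ?_
        · nlinarith
        · nlinarith [sq_nonneg (q : ℝ)]

end

lemma recursion {q n : ℕ} (hq : 100000 ≤ q) (hn : q ≤ n) :
    (I n : ℝ) ≤ fS n + w q n * (F n + I n + F n * (3 * r (n - 1) + r (n - 2) + r (n - q))) := by
  rw [I_eq]; exact recursion' (Fintype.card_fin n) hq hn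

lemma lower_rec (q n : ℕ) : fS n - w q n * F n ≤ I n := by
  rw [I_eq]; exact lower_rec' (Fintype.card_fin n)

end Pool.Agent.MP_c00610_co
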